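import Pool.Agent.R318.ST.Fin1

/-! # Joint moments for several curves `y ^ ℓ = f(x)` with random coefficients -/

set_option autoImplicit false

namespace Pool.Agent.R318.ST

open Finset Polynomial Filter Pool.Agent.R318.PR Pool.Agent.R459.Eq Pool.Agent.H730R2.AA

/-- the coefficients of the `i`-th polynomial -/
def part {r n : ℕ} {α : Type} (v : Fin (r * (n + 1)) → α) (i : Fin r) (j : Fin (n + 1)) : α := v (finProdFinEquiv (i, j))

open Classical in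
/-- the primes up to `x` that are good for all the curves -/
noncomputable def goodsA (ℓ : ℕ) {r n : ℕ} (v : Fin (r * (n + 1)) → ℤ) (x : ℕ) : Finset ℕ :=
  (range (x + 1)).filter (fun p => ∀ i : Fin r, GoodP ℓ (part v i) p)

/-- the limiting joint moments: the product of the moments of the standard normal law, times a power of `ℓ - 1` -/
noncomputable def cJ (ℓ : ℕ) {r : ℕ} (m : Fin r → ℕ) : ℝ := (∏ i, G (m i)) * √((ℓ : ℝ) - 1) ^ (∑ i, m i) / ((ℓ : ℝ) - 1)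

/-- at every `x ≥ X` with `x ^ W ≤ N`: almost all primes are good for all the curves, and the averages of the monomials in
the numbers `a1` of the curves are close to `cJ` -/
def CloseJ (ℓ r n : ℕ) (ε : ℝ) (X W N : ℕ) (v : Fin (r * (n + 1)) → ℤ) : Prop :=
  ∀ x : ℕ, X ≤ x → x ^ W ≤ N → (1 - ε) * (Nat.primeCounting x : ℝ) ≤ (goodsA ℓ v x).card ∧
    ∀ m : Fin r → ℕ, (∀ i, m i < 2 * ((n + 1) / 2)) → (∃ i, m i ≠ 0) →
      |∑ p ∈ goodsA ℓ v x, ∏ i, a1 ℓ (part v i) p ^ m i - cJ ℓ m * (goodsA ℓ v x).card| ≤ ε * (goodsA ℓ v x).card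

lemma av_prod {K : Type} [Fintype K] [DecidableEq K] (r n : ℕ) (F : Fin r → (Fin (n + 1) → K) → ℝ) :
    av (fun u : Fin (r * (n + 1)) → K => ∏ i, F i (part u i)) = ∏ i, av (F i) := by
  classical
  have h1 : ∑ u : Fin (r * (n + 1)) → K, ∏ i, F i (part u i) = ∏ i, ∑ w : Fin (n + 1) → K, F i w := by
    rw [Finset.prod_univ_sum, Fintype.piFinset_univ]
    apply sum_nbij' (fun u => (fun i => part u i)) (fun f => fun t => f (finProdFinEquiv.symm t).1 (finProdFinEquiv.symm t).2)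
    · intro u _; exact mem_univ _
    · intro f _; exact mem_univ _
    · intro u _
      funext t
      show u (finProdFinEquiv ((finProdFinEquiv.symm t).1, (finProdFinEquiv.symm t).2)) = u t
      rw [Prod.mk.eta, Equiv.apply_symm_apply]
    · intro f _
      funext i j
      unfold part
      simp
    · intro u _
      rfl
  unfold av
  rw [h1, prod_div_distrib, prod_const, card_univ, Fintype.card_fin, Fintype.card_fun, Fintype.card_fun, Fintype.card_fin,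
    Fintype.card_fin]
  push_cast
  congr 1
  rw [← pow_mul, mul_comm]

lemma prod_close {α : Type} (s : Finset α) (x y : α → ℝ) (B : ℝ) (hB : 1 ≤ B) (hx : ∀ i, |x i| ≤ B) (hy : ∀ i, |y i| ≤ B) :
    |∏ i ∈ s, x i - ∏ i ∈ s, y i| ≤ B ^ s.card * ∑ i ∈ s, |x i - y i| := by
  classical
  induction s using Finset.induction_on with
  | empty => simp
  | insert a s ha ih =>
    rw [prod_insert ha, prod_insert ha, sum_insert ha, card_insert_of_notMem ha]
    have h1 : |∏ i ∈ s, x i| ≤ B ^ s.card := by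
      rw [abs_prod]
      refine (prod_le_prod (fun _ _ => abs_nonneg _) (fun i _ => hx i)).trans ?_
      rw [prod_const]
    have e : x a * ∏ i ∈ s, x i - y a * ∏ i ∈ s, y i = (x a - y a) * ∏ i ∈ s, x i + y a * (∏ i ∈ s, x i - ∏ i ∈ s, y i) := by ring
    rw [e]
    refine (abs_add_le _ _).trans ?_
    rw [abs_mul, abs_mul]
    have h2 : |x a - y a| * |∏ i ∈ s, x i| ≤ |x a - y a| * B ^ (s.card + 1) := by
      apply mul_le_mul_of_nonneg_left _ (abs_nonneg _)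
      exact h1.trans (pow_le_pow_right₀ hB (by omega))
    have h3 : |y a| * |∏ i ∈ s, x i - ∏ i ∈ s, y i| ≤ B * (B ^ s.card * ∑ i ∈ s, |x i - y i|) :=
      mul_le_mul (hy a) ih (abs_nonneg _) (by linarith)
    have h4 : B * (B ^ s.card * ∑ i ∈ s, |x i - y i|) = B ^ (s.card + 1) * ∑ i ∈ s, |x i - y i| := by ring
    rw [mul_add]
    linarith

/-- the term of the prime `p` -/
noncomputable def YJ (ℓ : ℕ) {r n : ℕ} (m : Fin r → ℕ) (p : ℕ) (v : Fin (r * (n + 1)) → ℤ) : ℝ :=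
  ∏ i, Yi ℓ (m i) p (part v i)

/-- the limits of the mean values at `p` -/
noncomputable def tau (ℓ m p : ℕ) : ℝ := if m = 0 then 1 else if ℓ ∣ p - 1 then G m * √((ℓ : ℝ) - 1) ^ m else 0

lemma tau_mean (ℓ n m : ℕ) (hℓ : ℓ.Prime) (hm : m < 2 * ((n + 1) / 2)) (ε : ℝ) (hε : 0 < ε) :
    ∃ p₀ : ℕ, ∀ (p : ℕ) [Fact p.Prime], p₀ ≤ p →
      |av (fun u : Fin (n + 1) → ZMod p => Yb ℓ m u) - tau ℓ m p| ≤ ε := by
  unfold tau
  rcases Nat.eq_zero_or_pos m with h0 | h0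
  · subst h0
    obtain ⟨p₀, hp₀⟩ := exists_nat_ge (((n : ℝ) + 1) / ε)
    refine ⟨p₀, fun p hF hpp => ?_⟩
    have hp0 : (0 : ℝ) < p := by exact_mod_cast hF.out.pos
    rw [if_pos rfl]
    refine (Yb_zero ℓ n p).trans ?_
    rw [div_le_iff₀ hp0]
    have h3 : ((n : ℝ) + 1) / ε ≤ p := hp₀.trans (by exact_mod_cast hpp)
    rw [div_le_iff₀ hε] at h3
    linarith
  · obtain ⟨p₀, hp₀⟩ := Yb_mean ℓ n m ((n + 1) / 2) hℓ h0 hm (Nat.mul_div_le _ _) ε hε
    refine ⟨p₀, fun p hF hpp => ?_⟩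
    rw [if_neg (by omega)]
    exact hp₀ p hpp

lemma tau_bound (ℓ n : ℕ) : ∃ B : ℝ, 1 ≤ B ∧ ∀ m p, m < 2 * ((n + 1) / 2) → |tau ℓ m p| ≤ B := by
  classical
  refine ⟨1 + ∑ m ∈ range (2 * ((n + 1) / 2)), |G m * √((ℓ : ℝ) - 1) ^ m|, ?_, fun m p hm => ?_⟩
  · have : 0 ≤ ∑ m ∈ range (2 * ((n + 1) / 2)), |G m * √((ℓ : ℝ) - 1) ^ m| := sum_nonneg fun _ _ => abs_nonneg _
    linarith
  · have h1 : |G m * √((ℓ : ℝ) - 1) ^ m| ≤ ∑ m ∈ range (2 * ((n + 1) / 2)), |G m * √((ℓ : ℝ) - 1) ^ m| :=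
      single_le_sum (f := fun m => |G m * √((ℓ : ℝ) - 1) ^ m|) (fun _ _ => abs_nonneg _) (mem_range.2 hm)
    have h2 : 0 ≤ ∑ m ∈ range (2 * ((n + 1) / 2)), |G m * √((ℓ : ℝ) - 1) ^ m| := sum_nonneg fun _ _ => abs_nonneg _
    unfold tau
    split_ifs
    · rw [abs_one]; linarith
    · linarith
    · rw [abs_zero]; linarith

/-- one vector of exponents -/
theorem one_vec (b : ℕ) (hb : 2 ≤ b) (η : ℝ) (hη : 0 < η) (hη1 : η ≤ 1) : ∃ W : ℕ, 1 ≤ W ∧
    ∀ (ℓ r n : ℕ), ℓ.Prime → 1 ≤ n → ∀ κ : Fin (r * (n + 1)) → ℤ, (∀ j, κ j ≠ 0) → ∀ (m : Fin r → ℕ) (c : ℝ),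
    (∀ i, m i < 2 * ((n + 1) / 2)) → (((∀ i, m i = 0) ∧ c = 1) ∨ ((∃ i, m i ≠ 0) ∧ c = cJ ℓ m)) → ∀ ε : ℝ, 0 < ε →
    ∃ (C : ℝ) (X₀ : ℕ), 0 < C ∧ 2 ≤ X₀ ∧ ∀ k X : ℕ, X₀ ≤ X → ∀ (c₀ : Fin (r * (n + 1)) → ℤ)
    (u : Fin (r * (n + 1)) → ℕ → ℕ → ℝ), (∀ j, Dist b k η (u j)) →
    PrV b k u (fun g => ∃ x : ℕ, X ≤ x ∧ x ^ W ≤ b ^ k ∧ ε * (Nat.primeCounting x : ℝ) <
      |∑ p ∈ (range (x + 1)).filter Nat.Prime, YJ ℓ m p (fun j => c₀ j + κ j * (dval b (g j) : ℕ)) -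
        c * (Nat.primeCounting x : ℝ)|) ≤ C * (Real.log X / X) := by
  classical
  obtain ⟨W, hW, h⟩ := digits_SM b hb η hη hη1
  refine ⟨2 * W, by omega, fun ℓ r n hℓ hn κ hκ m c hmR hm ε hε => ?_⟩
  obtain ⟨C, hC, hSM⟩ := h (r * (n + 1)) κ hκ
  have hℓ1 : (1 : ℝ) ≤ ℓ := by exact_mod_cast hℓ.one_le
  have hn1 : (1 : ℝ) ≤ n := by exact_mod_cast hn
  have hD1 : (1 : ℝ) ≤ 2 * (ℓ : ℝ) * n := by nlinarith
  obtain ⟨B, hB⟩ : ∃ B : ℝ, B = ∏ i, (2 * (ℓ : ℝ) * n) ^ m i := ⟨_, rfl⟩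
  have hB0 : 0 < B := by rw [hB]; exact prod_pos fun i _ => by positivity
  have hYB : ∀ (p : ℕ) (v : Fin (r * (n + 1)) → ℤ), |YJ ℓ m p v| ≤ B := by
    intro p v
    unfold YJ
    rw [abs_prod, hB]
    exact prod_le_prod (fun _ _ => abs_nonneg _) fun i _ => Yi_bound ℓ (m i) n hℓ.one_le hn p _
  obtain ⟨M, hM⟩ : ∃ M, M = b * (2 * ℓ) := ⟨_, rfl⟩
  have hM0 : M ≠ 0 := by
    rw [hM]
    have := hℓ.pos
    positivity
  have hbM : b ∣ M := ⟨2 * ℓ, hM⟩
  have hpM : ∀ p : ℕ, p.Prime → ¬ p ∣ M → 3 ≤ p ∧ p ≠ ℓ := by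
    intro p hp hd
    constructor
    · have h2 := hp.two_le
      rcases Nat.lt_or_ge 2 p with h3 | h3
      · omega
      · exfalso
        apply hd
        have : p = 2 := by omega
        rw [this, hM]
        exact ⟨b * ℓ, by ring⟩
    · rintro rfl
      apply hd
      rw [hM]
      exact ⟨b * 2, by ring⟩
  obtain ⟨μ, hμ⟩ : ∃ μ : ℕ → ℝ, μ = fun p => meanV (r * (n + 1)) p (YJ ℓ m p) := ⟨_, rfl⟩
  have hYJ : ∀ (p : ℕ) [Fact p.Prime], ¬ p ∣ M → ∀ v : Fin (r * (n + 1)) → ℤ,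
      YJ ℓ m p v = (fun u : Fin (r * (n + 1)) → ZMod p => ∏ i, Yb ℓ (m i) (part u i)) (fun j => ((v j : ℤ) : ZMod p)) := by
    intro p hF hd v
    unfold YJ
    apply prod_congr rfl
    intro i _
    exact Yi_eq ℓ (m i) n p (hpM p hF.out hd).2 (part v i)
  have hμav : ∀ (p : ℕ) [Fact p.Prime], ¬ p ∣ M → μ p = ∏ i, av (fun u : Fin (n + 1) → ZMod p => Yb ℓ (m i) u) := by
    intro p hF hd
    rw [hμ]
    simp only
    rw [meanV_av (r * (n + 1)) p _ (fun u : Fin (r * (n + 1)) → ZMod p => ∏ i, Yb ℓ (m i) (part u i)) (hYJ p hd), av_prod]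
  have hμB : ∀ (p : ℕ), p.Prime → |μ p| ≤ B := by
    intro p hp
    have hp0 : (0 : ℝ) < p := by exact_mod_cast hp.pos
    rw [hμ]
    simp only
    unfold meanV
    rw [abs_div, abs_of_pos (pow_pos hp0 _), div_le_iff₀ (pow_pos hp0 _)]
    refine (abs_sum_le_sum_abs _ _).trans ?_
    refine (sum_le_card_nsmul _ _ B fun t _ => hYB p _).trans (le_of_eq ?_)
    rw [Fintype.card_piFinset, prod_const, card_univ, Fintype.card_fin, card_range, nsmul_eq_mul]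
    push_cast
    ring
  obtain ⟨B', hB'1, hB'⟩ := tau_bound ℓ n
  obtain ⟨Q, hQ⟩ : ∃ Q : ℝ, Q = max B' ((2 * (ℓ : ℝ) * n) ^ (2 * ((n + 1) / 2))) := ⟨_, rfl⟩
  have hQ1 : 1 ≤ Q := by rw [hQ]; exact hB'1.trans (le_max_left _ _)
  have hτQ : ∀ i p, |tau ℓ (m i) p| ≤ Q := by
    intro i p
    rw [hQ]
    exact (hB' (m i) p (hmR i)).trans (le_max_left _ _)
  have havQ : ∀ (p : ℕ) [Fact p.Prime], 3 ≤ p → ∀ i, |av (fun u : Fin (n + 1) → ZMod p => Yb ℓ (m i) u)| ≤ Q := by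
    intro p hF hp i
    have h1 : ∀ u : Fin (n + 1) → ZMod p, |Yb ℓ (m i) u| ≤ Q := by
      intro u
      refine (Yb_bound ℓ (m i) n hℓ.one_le hn p hp u).trans ?_
      rw [hQ]
      refine le_trans ?_ (le_max_right _ _)
      calc ((ℓ : ℝ) * n) ^ m i ≤ (2 * (ℓ : ℝ) * n) ^ m i := by
            apply pow_le_pow_left₀ (by positivity)
            nlinarith
        _ ≤ _ := pow_le_pow_right₀ hD1 (hmR i).le
    rw [abs_le]
    constructor
    · have h2 : av (fun _ : Fin (n + 1) → ZMod p => -Q * 1) ≤ av (fun u : Fin (n + 1) → ZMod p => Yb ℓ (m i) u) :=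
        av_mono _ _ fun u => by linarith [(abs_le.1 (h1 u)).1]
      rw [av_mul, av_one] at h2
      linarith
    · have h2 : av (fun u : Fin (n + 1) → ZMod p => Yb ℓ (m i) u) ≤ av (fun _ : Fin (n + 1) → ZMod p => Q * 1) :=
        av_mono _ _ fun u => by linarith [(abs_le.1 (h1 u)).2]
      rw [av_mul, av_one] at h2
      linarith
  have hτprod : ∀ p, |∏ i, tau ℓ (m i) p| ≤ Q ^ r := by
    intro p
    rw [abs_prod]
    refine (prod_le_prod (fun _ _ => abs_nonneg _) (fun i _ => hτQ i p)).trans ?_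
    rw [prod_const, card_univ, Fintype.card_fin]
  have hlim : ∀ ε : ℝ, 0 < ε → ∃ p₀ : ℕ, ∀ p, p.Prime → ¬ p ∣ M → p₀ ≤ p → |μ p - ∏ i, tau ℓ (m i) p| ≤ ε := by
    intro ε' hε'
    have hex : ∀ i : Fin r, ∃ p₀ : ℕ, ∀ (p : ℕ) [Fact p.Prime], p₀ ≤ p →
      |av (fun u : Fin (n + 1) → ZMod p => Yb ℓ (m i) u) - tau ℓ (m i) p| ≤ ε' / (Q ^ r * (r + 1)) :=
      fun i => tau_mean ℓ n (m i) hℓ (hmR i) _ (by positivity)
    choose p₀ hp₀ using hex
    refine ⟨∑ i, p₀ i, fun p hp hd hpp => ?_⟩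
    have hF : Fact p.Prime := ⟨hp⟩
    rw [hμav p hd]
    refine (prod_close univ _ _ Q hQ1 (havQ p (hpM p hp hd).1) (fun i => hτQ i p)).trans ?_
    rw [card_univ, Fintype.card_fin]
    have h1 : ∑ i : Fin r, |av (fun u : Fin (n + 1) → ZMod p => Yb ℓ (m i) u) - tau ℓ (m i) p| ≤ r * (ε' / (Q ^ r * (r + 1))) := by
      refine (sum_le_card_nsmul _ _ (ε' / (Q ^ r * (r + 1))) fun i _ => ?_).trans (le_of_eq ?_)
      · apply hp₀ i p
        exact (single_le_sum (fun _ _ => Nat.zero_le _) (mem_univ i)).trans hpp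
      · rw [card_univ, Fintype.card_fin, nsmul_eq_mul]
    have hQr : 0 < Q ^ r := by positivity
    calc Q ^ r * ∑ i : Fin r, |av (fun u : Fin (n + 1) → ZMod p => Yb ℓ (m i) u) - tau ℓ (m i) p| ≤
        Q ^ r * (r * (ε' / (Q ^ r * (r + 1)))) := mul_le_mul_of_nonneg_left h1 hQr.le
      _ = (r / (r + 1)) * ε' := by field_simp
      _ ≤ 1 * ε' := by
          apply mul_le_mul_of_nonneg_right _ hε'.le
          rw [div_le_one (by positivity)]
          linarith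
      _ = ε' := one_mul _
  have hc : ∀ ε : ℝ, 0 < ε → ∃ X : ℕ, ∀ x : ℕ, X ≤ x →
      |∑ p ∈ GP M x, μ p - c * Nat.primeCounting x| ≤ ε * Nat.primeCounting x := by
    apply avg_lim M μ (fun p => ∏ i, tau ℓ (m i) p) c (B + Q ^ r) (by positivity)
    · intro p hp _
      refine (abs_sub _ _).trans ?_
      exact add_le_add (hμB p hp) (hτprod p)
    · exact hlim
    · rcases hm with ⟨h0, hc1⟩ | ⟨⟨i₀, hi₀⟩, hcm⟩
      · have h1 : ∀ p : ℕ, ∏ i, tau ℓ (m i) p = 1 := by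
          intro p
          apply prod_eq_one
          intro i _
          unfold tau
          rw [if_pos (h0 i)]
        intro ε' hε'
        obtain ⟨X2, hX24, hX2⟩ := small_ev (M.primeFactors.card : ℝ) ε' hε'
        refine ⟨X2, fun x hx => ?_⟩
        have h7 := hX2 x hx
        have h8 : 0 ≤ Real.log x := Real.log_nonneg (by exact_mod_cast (by omega : 1 ≤ x))
        have h2 := GP_card_le M x
        have h3 := GP_card_ge M hM0 x
        simp only [h1]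
        rw [sum_const, nsmul_eq_mul, mul_one, hc1, one_mul, abs_le]
        constructor <;> linarith
      · have h1 : ∀ p : ℕ, ∏ i, tau ℓ (m i) p = if ℓ ∣ p - 1 then (∏ i, G (m i)) * √((ℓ : ℝ) - 1) ^ (∑ i, m i) else 0 := by
          intro p
          split_ifs with hd
          · rw [← prod_pow_eq_pow_sum, ← prod_mul_distrib]
            apply prod_congr rfl
            intro i _
            unfold tau
            by_cases h2 : m i = 0
            · rw [if_pos h2, h2]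
              simp [G]
            · rw [if_neg h2, if_pos hd]
          · apply prod_eq_zero (mem_univ i₀)
            unfold tau
            rw [if_neg hi₀, if_neg hd]
        simp only [h1]
        rw [hcm]
        exact avg_class ℓ hℓ M hM0 _
  obtain ⟨C', X₀, hC', hX₀, H⟩ := absSum b W M C hC hW hM0 B hB0 μ c hc ε hε
  refine ⟨C', X₀, hC', hX₀, fun k X hX c₀ u hu => ?_⟩
  unfold PrV
  refine H k X hX (Fin (r * (n + 1)) → Fin k → ℕ) (Fintype.piFinset (fun _ : Fin (r * (n + 1)) => arrays b k))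
    (fun g => ∏ j, wt (u j) (g j)) (fun p g => YJ ℓ m p (fun j => c₀ j + κ j * (dval b (g j) : ℕ)))
    (fun p g => hYB p _) ?_ _ (filter_subset _ _) (fun g hg => (mem_filter.1 hg).2)
  have h1 := hSM M hbM k c₀ u hu (fun p a => (YJ ℓ m p a / B + 1) / 2) (fun p a => by
    have h2 := abs_le.1 (hYB p a)
    have h3 : -1 ≤ YJ ℓ m p a / B := by
      rw [le_div_iff₀ hB0]
      linarith
    have h4 : YJ ℓ m p a / B ≤ 1 := by
      rw [div_le_one hB0]
      exact h2.2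
    constructor <;> linarith) (fun p hp hd a a' haa => by
    have hF : Fact p.Prime := ⟨hp⟩
    have h2 : (fun j => ((a j : ℤ) : ZMod p)) = (fun j => ((a' j : ℤ) : ZMod p)) := by
      funext j
      exact ((ZMod.intCast_eq_intCast_iff_dvd_sub _ _ p).2 (by
        have := haa j
        rw [← neg_sub]
        exact (dvd_neg).2 this))
    simp only
    rw [hYJ p hd, hYJ p hd, h2])
  refine SM_congr (fun p hp hd => ?_) h1
  rw [meanV_lin (r * (n + 1)) p hp.one_le B, hμ]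

lemma goodsA_sum {ℓ r n : ℕ} (hr : 1 ≤ r) (m : Fin r → ℕ) (v : Fin (r * (n + 1)) → ℤ) (x : ℕ) :
    ∑ p ∈ (range (x + 1)).filter Nat.Prime, YJ ℓ m p v = ∑ p ∈ goodsA ℓ v x, ∏ i, a1 ℓ (part v i) p ^ m i := by
  classical
  have h1 : ∀ p, YJ ℓ m p v = if ∀ i : Fin r, GoodP ℓ (part v i) p then ∏ i, a1 ℓ (part v i) p ^ m i else 0 := by
    intro p
    unfold YJ Yi
    split_ifs with h
    · apply prod_congr rfl
      intro i _
      rw [if_pos (h i)]
    · push Not at h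
      obtain ⟨i, hi⟩ := h
      apply prod_eq_zero (mem_univ i)
      rw [if_neg hi]
  simp only [h1]
  unfold goodsA
  rw [← sum_filter, filter_filter]
  apply sum_congr _ fun _ _ => rfl
  apply filter_congr
  intro p _
  exact ⟨fun h => h.2, fun h => ⟨(h ⟨0, hr⟩).1, h⟩⟩

lemma PrV_unionA (b k : ℕ) {d : ℕ} (u : Fin d → ℕ → ℕ → ℝ) (hw : ∀ g : Fin d → Fin k → ℕ, 0 ≤ ∏ j, wt (u j) (g j))
    {α : Type} (S : Finset α) (E : (Fin d → Fin k → ℕ) → Prop) (F : α → (Fin d → Fin k → ℕ) → Prop)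
    (h : ∀ g, E g → ∃ m ∈ S, F m g) : PrV b k u E ≤ ∑ m ∈ S, PrV b k u (F m) := by
  classical
  have h0 : ∀ (g : Fin d → Fin k → ℕ) (m : α), 0 ≤ (if F m g then ∏ j, wt (u j) (g j) else 0) := by
    intro g m
    split_ifs
    · exact hw g
    · exact le_rfl
  unfold PrV
  calc ∑ g ∈ (Fintype.piFinset (fun _ : Fin d => arrays b k)).filter E, ∏ j, wt (u j) (g j) ≤
      ∑ g ∈ (Fintype.piFinset (fun _ : Fin d => arrays b k)).filter E, ∑ m ∈ S,
        (if F m g then ∏ j, wt (u j) (g j) else 0) := by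
        apply sum_le_sum
        intro g hg
        obtain ⟨m, hm, hF⟩ := h g (mem_filter.1 hg).2
        have h1 := single_le_sum (f := fun m => if F m g then ∏ j, wt (u j) (g j) else 0) (fun m _ => h0 g m) hm
        simp only [if_pos hF] at h1
        exact h1
    _ ≤ ∑ g ∈ (Fintype.piFinset (fun _ : Fin d => arrays b k)), ∑ m ∈ S,
        (if F m g then ∏ j, wt (u j) (g j) else 0) := by
        apply sum_le_sum_of_subset_of_nonneg (filter_subset _ _)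
        intro g _ _
        exact sum_nonneg fun m _ => h0 g m
    _ = ∑ m ∈ S, ∑ g ∈ (Fintype.piFinset (fun _ : Fin d => arrays b k)),
        (if F m g then ∏ j, wt (u j) (g j) else 0) := sum_comm
    _ = _ := by
        apply sum_congr rfl
        intro m _
        rw [sum_filter]

/-- all monomials -/
theorem all_vec (b : ℕ) (hb : 2 ≤ b) (η : ℝ) (hη : 0 < η) : ∃ W : ℕ, 1 ≤ W ∧
    ∀ (ℓ r n : ℕ), ℓ.Prime → 1 ≤ r → 1 ≤ n → ∀ κ : Fin (r * (n + 1)) → ℤ, (∀ j, κ j ≠ 0) → ∀ ε : ℝ, 0 < ε →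
    ∃ (C : ℝ) (X₀ : ℕ), ∀ k X : ℕ, X₀ ≤ X → ∀ (c : Fin (r * (n + 1)) → ℤ) (u : Fin (r * (n + 1)) → ℕ → ℕ → ℝ),
    (∀ j, Dist b k η (u j)) →
    PrV b k u (fun g => ¬ CloseJ ℓ r n ε X W (b ^ k) (fun j => c j + κ j * (dval b (g j) : ℕ))) ≤ C * (Real.log X / X) := by
  classical
  obtain ⟨W, hW, H⟩ := one_vec b hb (min η 1) (lt_min hη one_pos) (min_le_right _ _)
  refine ⟨W, hW, fun ℓ r n hℓ hr hn κ hκ ε hε => ?_⟩
  obtain ⟨R, hR⟩ : ∃ R, R = 2 * ((n + 1) / 2) := ⟨_, rfl⟩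
  obtain ⟨V, hV⟩ : ∃ V : Finset (Fin r → ℕ), V = Fintype.piFinset (fun _ => range R) := ⟨_, rfl⟩
  have hmV : ∀ m, m ∈ V ↔ ∀ i, m i < R := by
    intro m
    rw [hV, Fintype.mem_piFinset]
    simp only [mem_range]
  obtain ⟨S, hS⟩ : ∃ S : ℝ, S = ∑ m ∈ V, |cJ ℓ m| := ⟨_, rfl⟩
  have hS0 : 0 ≤ S := by rw [hS]; exact sum_nonneg fun _ _ => abs_nonneg _
  have hSm : ∀ m, m ∈ V → |cJ ℓ m| ≤ S := by
    intro m hm
    rw [hS]
    exact single_le_sum (f := fun m => |cJ ℓ m|) (fun _ _ => abs_nonneg _) hm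
  obtain ⟨ε₀, hε₀⟩ : ∃ ε₀ : ℝ, ε₀ = min (1 / 2) (min ε (ε / (4 * (S + 1)))) := ⟨_, rfl⟩
  have h0 : 0 < ε₀ := by rw [hε₀]; exact lt_min (by norm_num) (lt_min hε (by positivity))
  have h01 : ε₀ ≤ 1 / 2 := by rw [hε₀]; exact min_le_left _ _
  have h02 : ε₀ ≤ ε := by rw [hε₀]; exact (min_le_right _ _).trans (min_le_left _ _)
  have h03 : ε₀ ≤ ε / (4 * (S + 1)) := by rw [hε₀]; exact (min_le_right _ _).trans (min_le_right _ _)
  have h04 : (S + 1) * ε₀ ≤ ε / 4 := by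
    rw [le_div_iff₀ (by positivity)] at h03
    linarith
  have hex : ∀ m : Fin r → ℕ, ∃ (C : ℝ) (X₀ : ℕ), 0 < C ∧ (m ∈ V → ∀ k X : ℕ, X₀ ≤ X → ∀ (c : Fin (r * (n + 1)) → ℤ)
      (u : Fin (r * (n + 1)) → ℕ → ℕ → ℝ), (∀ j, Dist b k (min η 1) (u j)) →
      PrV b k u (fun g => ∃ x : ℕ, X ≤ x ∧ x ^ W ≤ b ^ k ∧ ε₀ * (Nat.primeCounting x : ℝ) <
      |∑ p ∈ (range (x + 1)).filter Nat.Prime, YJ ℓ m p (fun j => c j + κ j * (dval b (g j) : ℕ)) -
        (if ∀ i, m i = 0 then 1 else cJ ℓ m) * (Nat.primeCounting x : ℝ)|) ≤ C * (Real.log X / X)) := by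
    intro m
    by_cases hm : m ∈ V
    · obtain ⟨C, X₀, hC, _, h1⟩ := H ℓ r n hℓ hn κ hκ m (if ∀ i, m i = 0 then 1 else cJ ℓ m) (by
        rw [hmV, hR] at hm
        exact hm) (by
        by_cases h : ∀ i, m i = 0
        · left
          exact ⟨h, if_pos h⟩
        · right
          refine ⟨?_, if_neg h⟩
          push Not at h
          exact h) ε₀ h0
      exact ⟨C, X₀, hC, fun _ => h1⟩
    · exact ⟨1, 0, one_pos, fun h => absurd h hm⟩
  choose C X₀ hC hH using hex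
  refine ⟨∑ m ∈ V, C m, ∑ m ∈ V, X₀ m + 4, fun k X hX c u hu => ?_⟩
  have hX4 : 4 ≤ X := by omega
  obtain ⟨a, ha⟩ : ∃ a : (Fin (r * (n + 1)) → Fin k → ℕ) → Fin (r * (n + 1)) → ℤ,
    a = fun g j => c j + κ j * (dval b (g j) : ℕ) := ⟨_, rfl⟩
  have hw : ∀ g : Fin (r * (n + 1)) → Fin k → ℕ, 0 ≤ ∏ j, wt (u j) (g j) :=
    fun g => prod_nonneg fun j _ => wt_nonneg (hu j) _
  have hone : ∀ m ∈ V, PrV b k u (fun g => ∃ x : ℕ, X ≤ x ∧ x ^ W ≤ b ^ k ∧ ε₀ * (Nat.primeCounting x : ℝ) <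
      |∑ p ∈ (range (x + 1)).filter Nat.Prime, YJ ℓ m p (a g) -
        (if ∀ i, m i = 0 then 1 else cJ ℓ m) * (Nat.primeCounting x : ℝ)|) ≤ C m * (Real.log X / X) := by
    intro m hm
    rw [ha]
    apply hH m hm k X _ c u fun j => (hu j).min _ (min_le_left _ _)
    have : X₀ m ≤ ∑ m ∈ V, X₀ m := single_le_sum (fun _ _ => Nat.zero_le _) hm
    omega
  have hcover : ∀ g, ¬ CloseJ ℓ r n ε X W (b ^ k) (a g) → ∃ m ∈ V, ∃ x : ℕ, X ≤ x ∧ x ^ W ≤ b ^ k ∧
      ε₀ * (Nat.primeCounting x : ℝ) < |∑ p ∈ (range (x + 1)).filter Nat.Prime, YJ ℓ m p (a g) -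
        (if ∀ i, m i = 0 then 1 else cJ ℓ m) * (Nat.primeCounting x : ℝ)| := by
    intro g hg
    by_contra hcon
    push Not at hcon
    apply hg
    intro x hx hxW
    have hpi : 0 < (Nat.primeCounting x : ℝ) := (pi_lower' x (by omega)).1
    have hR2 : 2 ≤ R := by omega
    have h1 := hcon (fun _ => 0) ((hmV _).2 (fun _ => by omega)) x hx hxW
    rw [if_pos (fun _ => rfl), one_mul, goodsA_sum hr] at h1
    simp only [pow_zero, prod_const_one, sum_const, nsmul_eq_mul, mul_one] at h1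
    have h2 := (abs_le.1 h1).1
    have h3 := (abs_le.1 h1).2
    have h5 : (1 - ε₀) * (Nat.primeCounting x : ℝ) ≤ (goodsA ℓ (a g) x).card := by linarith
    constructor
    · refine le_trans ?_ h5
      apply mul_le_mul_of_nonneg_right _ hpi.le
      linarith
    intro m hm1 hm2
    have hmv : m ∈ V := (hmV m).2 (by rw [hR]; exact hm1)
    have h6 := hcon m hmv x hx hxW
    rw [if_neg (by push Not; exact hm2), goodsA_sum hr] at h6
    have h7 : |cJ ℓ m * (Nat.primeCounting x : ℝ) - cJ ℓ m * ((goodsA ℓ (a g) x).card : ℝ)| ≤ S * (ε₀ * Nat.primeCounting x) := by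
      rw [← mul_sub, abs_mul, abs_sub_comm]
      exact mul_le_mul (hSm m hmv) h1 (abs_nonneg _) hS0
    have h8 := abs_sub_le (∑ p ∈ goodsA ℓ (a g) x, ∏ i, a1 ℓ (part (a g) i) p ^ m i) (cJ ℓ m * (Nat.primeCounting x : ℝ))
      (cJ ℓ m * ((goodsA ℓ (a g) x).card : ℝ))
    have h9 : (S + 1) * ε₀ * (Nat.primeCounting x : ℝ) ≤ ε / 4 * Nat.primeCounting x :=
      mul_le_mul_of_nonneg_right h04 hpi.le
    have h10 : (1 / 2) * (Nat.primeCounting x : ℝ) ≤ (goodsA ℓ (a g) x).card := by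
      refine le_trans ?_ h5
      apply mul_le_mul_of_nonneg_right _ hpi.le
      linarith
    have h11 : ε / 2 * (Nat.primeCounting x : ℝ) ≤ ε * (goodsA ℓ (a g) x).card := by
      have := mul_le_mul_of_nonneg_left h10 hε.le
      linarith
    have h12 : 0 ≤ ε * (Nat.primeCounting x : ℝ) := by positivity
    have h13 : (S + 1) * ε₀ * (Nat.primeCounting x : ℝ) = ε₀ * Nat.primeCounting x + S * (ε₀ * Nat.primeCounting x) := by ring
    linarith
  calc PrV b k u (fun g => ¬ CloseJ ℓ r n ε X W (b ^ k) (fun j => c j + κ j * (dval b (g j) : ℕ))) =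
        PrV b k u (fun g => ¬ CloseJ ℓ r n ε X W (b ^ k) (a g)) := by rw [ha]
    _ ≤ ∑ m ∈ V, PrV b k u (fun g => ∃ x : ℕ, X ≤ x ∧ x ^ W ≤ b ^ k ∧ ε₀ * (Nat.primeCounting x : ℝ) <
      |∑ p ∈ (range (x + 1)).filter Nat.Prime, YJ ℓ m p (a g) -
        (if ∀ i, m i = 0 then 1 else cJ ℓ m) * (Nat.primeCounting x : ℝ)|) := by
          apply PrV_unionA b k u hw V
          exact hcover
    _ ≤ ∑ m ∈ V, C m * (Real.log X / X) := sum_le_sum hone
    _ = _ := by rw [sum_mul]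

end Pool.Agent.R318.ST
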