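import Pool.Agent.R318.ST.Dig

/-! # Vectors of independent random integers: the second moment -/

set_option autoImplicit false

namespace Pool.Agent.R318.ST

open Finset Filter Pool.Agent.R459.Eq Pool.Agent.R318.PR
open Pool.Agent.TH872.An (GG GG_pos)

/-- the mean of a function of `d` variables modulo `p` -/
noncomputable def meanV (d p : ℕ) (f : (Fin d → ℤ) → ℝ) : ℝ :=
  (∑ t ∈ Fintype.piFinset (fun _ : Fin d => range p), f (fun j => (t j : ℤ))) / (p : ℝ) ^ d

/-- the function has period `p` in every variable -/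
def PerV (d p : ℕ) (f : (Fin d → ℤ) → ℝ) : Prop := ∀ u v : Fin d → ℤ, (∀ j, (p : ℤ) ∣ u j - v j) → f u = f v

/-- the second moments for one coordinate -/
def MS1 (P : Finset ℕ) (K : ℝ) {ι : Type} (Ω : Finset ι) (w : ι → ℝ) (v : ι → ℤ) : Prop :=
  (∀ i ∈ Ω, 0 ≤ w i) ∧ ∑ i ∈ Ω, w i = 1 ∧ ∀ f : ℕ → ℤ → ℝ, (∀ p n, 0 ≤ f p n ∧ f p n ≤ 1) → (∀ p ∈ P, Per p (f p)) →
    ∑ i ∈ Ω, w i * (∑ p ∈ P, (f p (v i) - mean p (f p))) ^ 2 ≤ K

lemma sum_pi_succ {α : Type} {β : Type} [AddCommMonoid β] {d : ℕ} (Ω : Fin (d + 1) → Finset α) (G : (Fin (d + 1) → α) → β) :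
    ∑ i ∈ Fintype.piFinset Ω, G i =
      ∑ a ∈ Ω 0, ∑ i ∈ Fintype.piFinset (fun j : Fin d => Ω j.succ), G (Fin.cons a i) := by
  classical
  rw [← sum_product']
  apply sum_nbij' (fun i => (i 0, Fin.tail i)) (fun z => Fin.cons z.1 z.2)
  · intro i hi
    rw [Fintype.mem_piFinset] at hi
    rw [mem_product]
    refine ⟨hi 0, ?_⟩
    rw [Fintype.mem_piFinset]
    intro j
    exact hi j.succ
  · intro z hz
    rw [mem_product, Fintype.mem_piFinset] at hz
    rw [Fintype.mem_piFinset]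
    intro j
    refine Fin.cases ?_ (fun j => ?_) j
    · exact hz.1
    · exact hz.2 j
  · intro i _
    exact Fin.cons_self_tail i
  · intro z _
    simp [Fin.cons_zero, Fin.tail_cons]
  · intro i _
    rw [Fin.cons_self_tail]

lemma meanV_succ (d p : ℕ) (f : (Fin (d + 1) → ℤ) → ℝ) :
    meanV (d + 1) p f = meanV d p (fun u => mean p (fun t => f (Fin.cons t u))) := by
  unfold meanV mean
  rw [sum_pi_succ, sum_comm, ← sum_div, div_div, pow_succ']
  congr 1
  apply sum_congr rfl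
  intro i _
  apply sum_congr rfl
  intro a _
  congr 1
  ext j
  refine Fin.cases ?_ (fun j => ?_) j
  · simp
  · simp

lemma meanV_zero (p : ℕ) (f : (Fin 0 → ℤ) → ℝ) (u : Fin 0 → ℤ) : meanV 0 p f = f u := by
  unfold meanV
  rw [pow_zero, div_one]
  have : Fintype.piFinset (fun _ : Fin 0 => range p) = {Fin.elim0} := by
    ext t
    rw [Fintype.mem_piFinset, mem_singleton]
    constructor
    · intro _
      ext j
      exact j.elim0
    · intro _ j
      exact j.elim0
  rw [this, sum_singleton]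
  congr 1
  ext j
  exact j.elim0

theorem msV (P : Finset ℕ) (hP : ∀ p ∈ P, 1 ≤ p) (K : ℝ) : ∀ (d : ℕ) (ι : Type) (Ω : Fin d → Finset ι)
    (w : Fin d → ι → ℝ) (v : Fin d → ι → ℤ), (∀ j, MS1 P K (Ω j) (w j) (v j)) → ∀ f : ℕ → (Fin d → ℤ) → ℝ,
    (∀ p u, 0 ≤ f p u ∧ f p u ≤ 1) → (∀ p ∈ P, PerV d p (f p)) → 0 ≤ K →
    ∑ i ∈ Fintype.piFinset Ω, (∏ j, w j (i j)) * (∑ p ∈ P, (f p (fun j => v j (i j)) - meanV d p (f p))) ^ 2 ≤ 4 ^ d * K := by
  classical
  intro d
  induction d with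
  | zero =>
    intro ι Ω w v _ f _ _ hK
    have : ∀ i ∈ Fintype.piFinset Ω, (∏ j, w j (i j)) * (∑ p ∈ P, (f p (fun j => v j (i j)) - meanV 0 p (f p))) ^ 2 = 0 := by
      intro i _
      have h1 : ∑ p ∈ P, (f p (fun j => v j (i j)) - meanV 0 p (f p)) = 0 := by
        apply sum_eq_zero
        intro p _
        rw [meanV_zero p (f p) (fun j => v j (i j)), sub_self]
      rw [h1]
      ring
    rw [sum_eq_zero this]
    positivity
  | succ d ih =>
    intro ι Ω w v hms f hf hper hK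
    have hw0 : ∀ i ∈ Fintype.piFinset (fun j : Fin d => Ω j.succ), 0 ≤ ∏ j : Fin d, w j.succ (i j) := by
      intro i hi
      rw [Fintype.mem_piFinset] at hi
      exact prod_nonneg fun j _ => (hms j.succ).1 _ (hi j)
    have hwsum : ∑ i ∈ Fintype.piFinset (fun j : Fin d => Ω j.succ), ∏ j : Fin d, w j.succ (i j) = 1 := by
      rw [← Finset.prod_univ_sum (fun j : Fin d => Ω j.succ) (fun j a => w j.succ a)]
      apply prod_eq_one
      intro j _
      exact (hms j.succ).2.1
    obtain ⟨h, hh⟩ : ∃ h : ℕ → (Fin d → ℤ) → ℝ, h = fun p u => mean p (fun t => f p (Fin.cons t u)) := ⟨_, rfl⟩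
    have hvec : ∀ (a : ι) (i : Fin d → ι), (fun j : Fin (d + 1) => v j ((Fin.cons a i : Fin (d + 1) → ι) j)) =
        (Fin.cons (v 0 a) (fun j : Fin d => v j.succ (i j)) : Fin (d + 1) → ℤ) := by
      intro a i
      ext j
      refine Fin.cases ?_ (fun j => ?_) j
      · simp
      · simp
    have hprod : ∀ (a : ι) (i : Fin d → ι), ∏ j, w j ((Fin.cons a i : Fin (d + 1) → ι) j) =
        w 0 a * ∏ j : Fin d, w j.succ (i j) := by
      intro a i
      rw [Fin.prod_univ_succ]
      simp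
    rw [sum_pi_succ]
    have hmean : ∀ p ∈ P, meanV (d + 1) p (f p) = meanV d p (h p) := by
      intro p _
      rw [meanV_succ, hh]
    have hstep : ∀ a ∈ Ω 0, ∀ i ∈ Fintype.piFinset (fun j : Fin d => Ω j.succ),
        (∏ j, w j ((Fin.cons a i : Fin (d + 1) → ι) j)) *
          (∑ p ∈ P, (f p (fun j => v j ((Fin.cons a i : Fin (d + 1) → ι) j)) - meanV (d + 1) p (f p))) ^ 2 ≤
        2 * ((∏ j : Fin d, w j.succ (i j)) * (w 0 a * (∑ p ∈ P, (f p (Fin.cons (v 0 a) (fun j : Fin d => v j.succ (i j))) -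
          mean p (fun t => f p (Fin.cons t (fun j : Fin d => v j.succ (i j)))))) ^ 2)) +
        2 * (w 0 a * ((∏ j : Fin d, w j.succ (i j)) *
          (∑ p ∈ P, (h p (fun j : Fin d => v j.succ (i j)) - meanV d p (h p))) ^ 2)) := by
      intro a ha i hi
      rw [hprod, hvec]
      have h1 : ∑ p ∈ P, (f p (Fin.cons (v 0 a) (fun j : Fin d => v j.succ (i j))) - meanV (d + 1) p (f p)) =
          ∑ p ∈ P, (f p (Fin.cons (v 0 a) (fun j : Fin d => v j.succ (i j))) -
            mean p (fun t => f p (Fin.cons t (fun j : Fin d => v j.succ (i j))))) +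
          ∑ p ∈ P, (h p (fun j : Fin d => v j.succ (i j)) - meanV d p (h p)) := by
        rw [← sum_add_distrib]
        apply sum_congr rfl
        intro p hp
        rw [hmean p hp]
        rw [hh]
        ring
      rw [h1]
      have h2 : 0 ≤ w 0 a * ∏ j : Fin d, w j.succ (i j) := mul_nonneg ((hms 0).1 a ha) (hw0 i hi)
      have h3 : ∀ A B : ℝ, (A + B) ^ 2 ≤ 2 * A ^ 2 + 2 * B ^ 2 := fun A B => by nlinarith [sq_nonneg (A - B)]
      refine (mul_le_mul_of_nonneg_left (h3 _ _) h2).trans (le_of_eq ?_)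
      ring
    refine (sum_le_sum fun a ha => sum_le_sum fun i hi => hstep a ha i hi).trans ?_
    simp only [sum_add_distrib, ← mul_sum]
    have hA : ∑ a ∈ Ω 0, ∑ i ∈ Fintype.piFinset (fun j : Fin d => Ω j.succ),
        (∏ j : Fin d, w j.succ (i j)) * (w 0 a * (∑ p ∈ P, (f p (Fin.cons (v 0 a) (fun j : Fin d => v j.succ (i j))) -
          mean p (fun t => f p (Fin.cons t (fun j : Fin d => v j.succ (i j)))))) ^ 2) ≤ K := by
      rw [sum_comm]
      calc _ ≤ ∑ i ∈ Fintype.piFinset (fun j : Fin d => Ω j.succ), (∏ j : Fin d, w j.succ (i j)) * K := by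
            apply sum_le_sum
            intro i hi
            rw [← mul_sum]
            apply mul_le_mul_of_nonneg_left _ (hw0 i hi)
            apply (hms 0).2.2 (fun p t => f p (Fin.cons t (fun j : Fin d => v j.succ (i j))))
            · intro p n
              exact hf p _
            · intro p hp m n hmn
              apply hper p hp
              intro j
              refine Fin.cases ?_ (fun j => ?_) j
              · simpa using hmn
              · simp
        _ = K := by rw [← sum_mul, hwsum, one_mul]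
    have hB : ∑ a ∈ Ω 0, w 0 a * ∑ i ∈ Fintype.piFinset (fun j : Fin d => Ω j.succ), (∏ j : Fin d, w j.succ (i j)) *
          (∑ p ∈ P, (h p (fun j : Fin d => v j.succ (i j)) - meanV d p (h p))) ^ 2 ≤ 4 ^ d * K := by
      have h1 := ih ι (fun j => Ω j.succ) (fun j => w j.succ) (fun j => v j.succ) (fun j => hms j.succ) h (by
        intro p u
        rw [hh]
        rcases Nat.eq_zero_or_pos p with h0 | h0
        · subst h0
          unfold mean
          simp
        · exact mean_mem p h0 _ fun n => hf p _) (by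
        intro p hp u u' huu
        rw [hh]
        have e : (fun t : ℤ => f p (Fin.cons t u)) = (fun t : ℤ => f p (Fin.cons t u')) := by
          funext t
          apply hper p hp
          intro j
          refine Fin.cases ?_ (fun j => ?_) j
          · simp
          · simpa using huu j
        show mean p (fun t => f p (Fin.cons t u)) = mean p (fun t => f p (Fin.cons t u'))
        rw [e]) hK
      rw [← sum_mul, (hms 0).2.1, one_mul]
      exact h1
    have h4 : (4 : ℝ) ^ (d + 1) = 4 * 4 ^ d := pow_succ' _ _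
    have h5 : (1 : ℝ) ≤ 4 ^ d := one_le_pow₀ (by norm_num)
    rw [h4]
    nlinarith

/-- vectors of integers with independent digits -/
theorem digits_SM (b : ℕ) (hb : 2 ≤ b) (η : ℝ) (hη : 0 < η) (hη1 : η ≤ 1) : ∃ W : ℕ, 1 ≤ W ∧
    ∀ (d : ℕ) (κ : Fin d → ℤ), (∀ j, κ j ≠ 0) → ∃ C : ℝ, 0 < C ∧ ∀ M : ℕ, b ∣ M → ∀ (k : ℕ) (c : Fin d → ℤ) (u : Fin d → ℕ → ℕ → ℝ),
    (∀ j, Dist b k η (u j)) → ∀ f : ℕ → (Fin d → ℤ) → ℝ, (∀ p u, 0 ≤ f p u ∧ f p u ≤ 1) →
    (∀ p, p.Prime → ¬ p ∣ M → PerV d p (f p)) →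
    SM b k W M C (Fintype.piFinset (fun _ : Fin d => arrays b k)) (fun g => ∏ j, wt (u j) (g j))
      (fun p g => f p (fun j => c j + κ j * (dval b (g j) : ℕ))) (fun p => meanV d p (f p)) := by
  classical
  obtain ⟨γ, hγ0, hγ1, hdec⟩ := dig_decays b hb η hη hη1
  obtain ⟨W, hW, h⟩ := ms b hb 1 γ hγ0 hγ1
  refine ⟨W, hW, fun d κ hκ => ?_⟩
  choose C hC hCms using fun j => h (GG b) (κ j) (GG_pos b hb) (hκ j)
  refine ⟨4 ^ d * (1 + ∑ j, C j), by
    have : 0 ≤ ∑ j, C j := sum_nonneg fun j _ => (hC j).le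
    positivity, fun M hbM k c u hu f hf hper => ⟨?_, fun x hbx hxW => ?_⟩⟩
  · intro g _
    exact prod_nonneg fun j _ => wt_nonneg (hu j) _
  have hCj : ∀ j, C j ≤ ∑ j, C j := fun j => single_le_sum (fun j _ => (hC j).le) (mem_univ j)
  have hS0 : 0 ≤ ∑ j, C j := sum_nonneg fun j _ => (hC j).le
  have hGP : ∀ p ∈ GP M x, p.Prime ∧ p ≤ x ∧ ¬ p ∣ b := by
    intro p hp
    rw [mem_GP] at hp
    exact ⟨hp.2.1, hp.1, fun h => hp.2.2 (h.trans hbM)⟩
  have hK : ((GP M x).card : ℝ) + (∑ j, C j) * √x ≤ (1 + ∑ j, C j) * ((GP M x).card + √x) := by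
    have h1 : (0 : ℝ) ≤ (GP M x).card := Nat.cast_nonneg _
    have h2 : 0 ≤ √(x : ℝ) := Real.sqrt_nonneg _
    nlinarith [mul_nonneg hS0 h1]
  have hmain := msV (GP M x) (fun p hp => (hGP p hp).1.one_le) ((GP M x).card + (∑ j, C j) * √x) d (Fin k → ℕ)
    (fun _ => arrays b k) (fun j => wt (u j)) (fun j g => c j + κ j * (dval b g : ℕ)) (fun j => by
      have hd := hdec k (u j) (hu j) (c j) (κ j)
      refine ⟨hd.nonneg, hd.sum, fun f' hf' hper' => ?_⟩
      refine (hCms j k x hbx hxW (Fin k → ℕ) (arrays b k) (wt (u j)) _ hd (GP M x) hGP f' hf' hper').trans ?_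
      have := mul_le_mul_of_nonneg_right (hCj j) (Real.sqrt_nonneg (x : ℝ))
      linarith) f hf (fun p hp => by
      rw [mem_GP] at hp
      exact hper p hp.2.1 hp.2.2) (by positivity)
  refine hmain.trans ?_
  rw [mul_assoc]
  exact mul_le_mul_of_nonneg_left hK (by positivity)

end Pool.Agent.R318.ST
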