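import Pool.Agent.R318.ST.Sup
import Pool.Agent.R318.ST.Vec
import Pool.Agent.R318.PR.FinB

/-! # Mean values of the moments, and their averages over the primes -/

set_option autoImplicit false

namespace Pool.Agent.R318.ST

open Finset Polynomial Filter Pool.Agent.R318.PR Pool.Agent.R459.Eq Pool.Agent.H730R2.AA

/-- `1` on the squarefree polynomials of degree `n` -/
def Gu {K : Type} [Field K] {n : ℕ} (u : Fin (n + 1) → K) : Prop := u (Fin.last n) ≠ 0 ∧ Squarefree (evp u)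

open Classical in
/-- the `m`-th power of the normalised sum, for squarefree polynomials of degree `n` -/
noncomputable def Yb (ℓ m : ℕ) {p n : ℕ} [Fact p.Prime] (u : Fin (n + 1) → ZMod p) : ℝ :=
  if Gu u then ((∑ x : ZMod p, psi ℓ ((evp u).eval x)) / √(p : ℝ)) ^ m else 0

open Classical in
lemma bad_av (n p : ℕ) [Fact p.Prime] :
    av (fun u : Fin (n + 1) → ZMod p => if Gu u then (0 : ℝ) else 1) ≤ ((n : ℝ) + 1) / p := by
  have hp0 : (0 : ℝ) < p := by exact_mod_cast (Fact.out (p := p.Prime)).pos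
  have h1 := bad_count (K := ZMod p) n
  have h2 : ∑ u : Fin (n + 1) → ZMod p, (if Gu u then (0 : ℝ) else 1) =
      (((univ : Finset (Fin (n + 1) → ZMod p)).filter (fun u => ¬ (u (Fin.last n) ≠ 0 ∧ Squarefree (evp u)))).card : ℝ) := by
    rw [card_eq_sum_ones, sum_filter]
    push_cast
    apply sum_congr rfl
    intro u _
    unfold Gu
    by_cases h : (u (Fin.last n) ≠ 0 ∧ Squarefree (evp u))
    · rw [if_pos h, if_neg (not_not.2 h)]
    · rw [if_neg h, if_pos h]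
  unfold av
  rw [h2, Fintype.card_fun, Fintype.card_fin, ZMod.card]
  rw [ZMod.card] at h1
  rw [Nat.cast_pow, div_le_div_iff₀ (pow_pos hp0 _) hp0]
  refine (mul_le_mul_of_nonneg_right h1 hp0.le).trans (le_of_eq ?_)
  ring

lemma Yb_zero (ℓ n : ℕ) (p : ℕ) [Fact p.Prime] :
    |av (fun u : Fin (n + 1) → ZMod p => Yb ℓ 0 u) - 1| ≤ ((n : ℝ) + 1) / p := by
  classical
  have h1 : (fun u : Fin (n + 1) → ZMod p => Yb ℓ 0 u) = fun u => 1 - (if Gu u then (0 : ℝ) else 1) := by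
    funext u
    unfold Yb
    split_ifs <;> simp
  rw [h1, av_sub, av_one, sub_sub_cancel_left, abs_neg, abs_of_nonneg]
  · exact bad_av n p
  · apply av_nonneg
    intro u
    split_ifs <;> norm_num

lemma Yb_bound (ℓ m n : ℕ) (hℓ : 1 ≤ ℓ) (hn : 1 ≤ n) (p : ℕ) [Fact p.Prime] (hp : 3 ≤ p) (u : Fin (n + 1) → ZMod p) :
    |Yb ℓ m u| ≤ ((ℓ : ℝ) * n) ^ m := by
  classical
  have hp0 : (0 : ℝ) < p := by exact_mod_cast (Fact.out (p := p.Prime)).pos
  have hs : 0 < √(p : ℝ) := Real.sqrt_pos.2 hp0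
  unfold Yb
  split_ifs with h
  · rw [abs_pow]
    apply pow_le_pow_left₀ (abs_nonneg _)
    rw [abs_div, abs_of_pos hs, div_le_iff₀ hs]
    have hcoef : (evp u).coeff n ≠ 0 := by
      have := coeff_evp u (Fin.last n)
      rw [Fin.val_last] at this
      rw [this]
      exact h.1
    have hd : (evp u).natDegree = n := by
      apply le_antisymm
      · unfold evp
        apply natDegree_sum_le_of_forall_le
        intro j _
        refine (natDegree_C_mul_X_pow_le _ _).trans ?_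
        have := j.2
        omega
      · exact le_natDegree_of_ne_zero hcoef
    have h1 := points_bound ℓ hℓ hp (evp u) h.2 (by omega)
    rw [hd] at h1
    linarith
  · rw [abs_zero]
    positivity

/-- the mean values of the moments -/
theorem Yb_mean (ℓ n m r : ℕ) (hℓ : ℓ.Prime) (hm : 1 ≤ m) (hmr : m < 2 * r) (hr : 2 * r ≤ n + 1) (ε : ℝ) (hε : 0 < ε) :
    ∃ p₀ : ℕ, ∀ (p : ℕ) [Fact p.Prime], p₀ ≤ p →
      |av (fun u : Fin (n + 1) → ZMod p => Yb ℓ m u) - (if ℓ ∣ p - 1 then G m * √((ℓ : ℝ) - 1) ^ m else 0)| ≤ ε := by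
  classical
  have hℓ1 : (1 : ℝ) ≤ ℓ := by exact_mod_cast hℓ.one_le
  have hℓ0 : (0 : ℝ) ≤ (ℓ : ℝ) - 1 := by linarith
  obtain ⟨C, hC, H⟩ := mom (ℓ : ℝ) hℓ1 (2 * r)
  obtain ⟨D, hD⟩ : ∃ D : ℝ, D = |G (2 * r)| * (ℓ : ℝ) ^ (2 * r) + C * (2 * r : ℕ) := ⟨_, rfl⟩
  have hD0 : 0 ≤ D := by rw [hD]; positivity
  obtain ⟨K, hK⟩ : ∃ K : ℝ, K = max 1 (4 * D / ε) := ⟨_, rfl⟩
  have hK1 : 1 ≤ K := by rw [hK]; exact le_max_left _ _
  have hK0 : 0 < K := by linarith
  have hDK : D / K ≤ ε / 4 := by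
    rw [div_le_iff₀ hK0]
    have : 4 * D / ε ≤ K := by rw [hK]; exact le_max_right _ _
    rw [div_le_iff₀ hε] at this
    linarith
  obtain ⟨E, hE⟩ : ∃ E : ℝ, E = C * m + K ^ m * ((n : ℝ) + 1) + |G m| * (ℓ : ℝ) ^ m * m := ⟨_, rfl⟩
  have hE0 : 0 ≤ E := by rw [hE]; positivity
  obtain ⟨p₀, hp₀⟩ := exists_nat_ge ((2 * E / ε) ^ 2)
  refine ⟨p₀ + 3, fun p hpF hp => ?_⟩
  have hp0 : (0 : ℝ) < p := by exact_mod_cast hpF.out.pos
  have hp1 : (1 : ℝ) ≤ p := by exact_mod_cast hpF.out.one_le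
  obtain ⟨s, hs⟩ : ∃ s, s = √(p : ℝ) := ⟨_, rfl⟩
  have hs0 : 0 < s := by rw [hs]; exact Real.sqrt_pos.2 hp0
  have hs1 : 1 ≤ s := by rw [hs, Real.one_le_sqrt]; exact hp1
  have hs2 : s ^ 2 = p := by rw [hs]; exact Real.sq_sqrt hp0.le
  have hEs : E / s ≤ ε / 2 := by
    rw [div_le_iff₀ hs0]
    have h1 : 2 * E / ε ≤ s := by
      apply le_of_sq_le_sq _ hs0.le
      rw [hs2]
      refine hp₀.trans ?_
      exact_mod_cast (by omega : p₀ ≤ p)
    rw [div_le_iff₀ hε] at h1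
    linarith
  have hps : (1 : ℝ) / p ≤ 1 / s := by
    apply one_div_le_one_div_of_le hs0
    rw [← hs2]
    nlinarith
  obtain ⟨S, hS⟩ : ∃ S : (Fin (n + 1) → ZMod p) → ℝ, S = fun u => ∑ x : ZMod p, psi ℓ ((evp u).eval x) := ⟨_, rfl⟩
  obtain ⟨μ, hμ⟩ : ∃ μ : ℕ → ℝ, μ = fun j => (∑ y : ZMod p, psi ℓ y ^ j) / Fintype.card (ZMod p) := ⟨_, rfl⟩
  have hkw : KWise (fun (t : ZMod p) (u : Fin (n + 1) → ZMod p) => psi ℓ ((evp u).eval t)) (n + 1) μ := by
    rw [hμ]
    exact kwise (n + 1) (psi ℓ)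
  have hμ1 : μ 1 = 0 := by
    rw [hμ]
    simp only [pow_one]
    rw [psi_sum, zero_div]
  have hμ2 : μ 2 = ((p : ℝ) - 1) * ((rt ℓ (1 : ZMod p) : ℝ) - 1) / p := by
    rw [hμ]
    simp only
    rw [psi_sq ℓ hℓ.pos, ZMod.card]
  have hrt1 : (1 : ℝ) ≤ rt ℓ (1 : ZMod p) := by
    rw [rt_one ℓ hℓ]
    split_ifs
    · exact_mod_cast hℓ.one_le
    · norm_num
  have hμ20 : 0 ≤ μ 2 := by
    rw [hμ2]
    exact div_nonneg (mul_nonneg (by linarith) (by linarith)) hp0.le
  have hμL : ∀ j, |μ j| ≤ (ℓ : ℝ) ^ j := by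
    intro j
    rw [hμ]
    simp only
    rw [abs_div, ZMod.card, abs_of_pos hp0, div_le_iff₀ hp0]
    refine (abs_sum_le_sum_abs _ _).trans ?_
    refine (sum_le_card_nsmul _ _ ((ℓ : ℝ) ^ j) fun y _ => ?_).trans (le_of_eq ?_)
    · rw [abs_pow]
      exact pow_le_pow_left₀ (abs_nonneg _) (psi_abs ℓ hℓ.one_le y) j
    · rw [card_univ, ZMod.card, nsmul_eq_mul, mul_comm]
  have hH : ∀ m', m' ≤ 2 * r → |av (fun u => (S u) ^ m') - G m' * √(μ 2) ^ m' * s ^ m'| ≤ C * m' * s ^ (m' - 1) := by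
    intro m' hm'
    have h1 := H m' hm' (Fin (n + 1) → ZMod p) (ZMod p) (fun t u => psi ℓ ((evp u).eval t)) (n + 1) μ hkw
      (by omega) hμ1 hμ20 hμL univ
    rw [card_univ, ZMod.card, ← hs] at h1
    rw [hS]
    exact h1
  have hav : ∀ m', av (fun u => (S u / s) ^ m') = av (fun u => (S u) ^ m') / s ^ m' := by
    intro m'
    have : (fun u => (S u / s) ^ m') = fun u => (1 / s ^ m') * (S u) ^ m' := by
      funext u
      rw [div_pow]
      ring
    rw [this, av_mul]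
    ring
  have hσL : √(μ 2) ≤ ℓ := by
    rw [Real.sqrt_le_left (by linarith)]
    exact (le_abs_self _).trans (hμL 2)
  have hσ0 : 0 ≤ √(μ 2) := Real.sqrt_nonneg _
  -- the main moment
  have hA : |av (fun u => (S u / s) ^ m) - G m * √(μ 2) ^ m| ≤ C * m / s := by
    rw [hav]
    have h1 := hH m hmr.le
    have h2 : av (fun u => (S u) ^ m) / s ^ m - G m * √(μ 2) ^ m =
        (av (fun u => (S u) ^ m) - G m * √(μ 2) ^ m * s ^ m) / s ^ m := by
      field_simp
    rw [h2, abs_div, abs_of_pos (pow_pos hs0 m), div_le_div_iff₀ (pow_pos hs0 m) hs0]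
    have h3 : s ^ m = s ^ (m - 1) * s := by rw [← pow_succ, Nat.sub_add_cancel hm]
    calc |av (fun u => (S u) ^ m) - G m * √(μ 2) ^ m * s ^ m| * s ≤ C * m * s ^ (m - 1) * s :=
          mul_le_mul_of_nonneg_right h1 hs0.le
      _ = C * m * s ^ m := by rw [h3]; ring
  -- the higher moment
  have hB : av (fun u => (S u / s) ^ (2 * r)) ≤ D := by
    rw [hav, div_le_iff₀ (pow_pos hs0 _)]
    have h1 := hH (2 * r) le_rfl
    have h2 := (le_abs_self _).trans h1
    have h3 : G (2 * r) * √(μ 2) ^ (2 * r) * s ^ (2 * r) ≤ |G (2 * r)| * (ℓ : ℝ) ^ (2 * r) * s ^ (2 * r) := by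
      apply mul_le_mul_of_nonneg_right _ (pow_nonneg hs0.le _)
      apply mul_le_mul (le_abs_self _) (pow_le_pow_left₀ hσ0 hσL _) (pow_nonneg hσ0 _) (abs_nonneg _)
    have h4 : C * (2 * r : ℕ) * s ^ (2 * r - 1) ≤ C * (2 * r : ℕ) * s ^ (2 * r) := by
      apply mul_le_mul_of_nonneg_left _ (by positivity)
      exact pow_le_pow_right₀ hs1 (by omega)
    rw [hD]
    linarith
  -- the polynomials with a square factor
  have hpt : ∀ u : Fin (n + 1) → ZMod p, |(S u / s) ^ m - Yb ℓ m u| ≤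
      K ^ m * (if Gu u then (0 : ℝ) else 1) + 1 / K * (S u / s) ^ (2 * r) := by
    intro u
    have h5 : 0 ≤ 1 / K * (S u / s) ^ (2 * r) := by
      apply mul_nonneg (by positivity)
      rw [pow_mul]
      positivity
    unfold Yb
    by_cases h : Gu u
    · have h6 : (∑ x : ZMod p, psi ℓ ((evp u).eval x)) / √(p : ℝ) = S u / s := by rw [hS, hs]
      rw [if_pos h, if_pos h, h6, sub_self, abs_zero, mul_zero, zero_add]
      exact h5
    · rw [if_neg h, if_neg h, sub_zero, mul_one, abs_pow]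
      rcases le_or_gt |S u / s| K with h6 | h6
      · have := pow_le_pow_left₀ (abs_nonneg _) h6 m
        linarith
      · have h7 : |S u / s| ^ m ≤ 1 / K * (S u / s) ^ (2 * r) := by
          have h8 : (S u / s) ^ (2 * r) = |S u / s| ^ m * |S u / s| ^ (2 * r - m) := by
            rw [← pow_add, Nat.add_sub_cancel' hmr.le]
            rw [pow_mul, pow_mul, sq_abs]
          have h9 : K ≤ |S u / s| ^ (2 * r - m) := by
            refine h6.le.trans ?_
            exact le_self_pow₀ (hK1.trans h6.le) (by omega)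
          rw [h8]
          have h10 : 0 ≤ |S u / s| ^ m := by positivity
          calc |S u / s| ^ m = 1 / K * (|S u / s| ^ m * K) := by field_simp
            _ ≤ 1 / K * (|S u / s| ^ m * |S u / s| ^ (2 * r - m)) := by
                apply mul_le_mul_of_nonneg_left _ (by positivity)
                exact mul_le_mul_of_nonneg_left h9 h10
        have : 0 ≤ K ^ m := by positivity
        linarith
  have hdiff : |av (fun u => (S u / s) ^ m) - av (fun u : Fin (n + 1) → ZMod p => Yb ℓ m u)| ≤ K ^ m * (((n : ℝ) + 1) / p) + 1 / K * D := by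
    rw [← av_sub]
    have h1 : |av (fun u => (S u / s) ^ m - Yb ℓ m u)| ≤ av (fun u => |(S u / s) ^ m - Yb ℓ m u|) := by
      unfold av
      rw [abs_div, abs_of_nonneg (Nat.cast_nonneg _ : (0 : ℝ) ≤ (Fintype.card (Fin (n + 1) → ZMod p) : ℝ))]
      exact div_le_div_of_nonneg_right (abs_sum_le_sum_abs _ _) (Nat.cast_nonneg _)
    refine h1.trans ((av_mono _ _ hpt).trans ?_)
    rw [av_add, av_mul, av_mul]
    apply add_le_add
    · exact mul_le_mul_of_nonneg_left (bad_av n p) (by positivity)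
    · exact mul_le_mul_of_nonneg_left hB (by positivity)
  -- the variance
  have hσ : |G m * √(μ 2) ^ m - (if ℓ ∣ p - 1 then G m * √((ℓ : ℝ) - 1) ^ m else 0)| ≤ |G m| * (ℓ : ℝ) ^ m * m / p := by
    rw [hμ2, rt_one ℓ hℓ]
    split_ifs with hd
    · have h1 : ((p : ℝ) - 1) * ((ℓ : ℝ) - 1) / p = ((ℓ : ℝ) - 1) * (1 - 1 / p) := by
        field_simp
      rw [h1, Real.sqrt_mul hℓ0, mul_pow, ← mul_assoc]
      have h2 : G m * √((ℓ : ℝ) - 1) ^ m * √(1 - 1 / (p : ℝ)) ^ m - G m * √((ℓ : ℝ) - 1) ^ m =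
          -(G m * √((ℓ : ℝ) - 1) ^ m * (1 - √(1 - 1 / (p : ℝ)) ^ m)) := by ring
      have h3 : (1 : ℝ) / p ≤ 1 := by
        rw [div_le_one hp0]
        exact hp1
      have h4 : 1 - 1 / (p : ℝ) ≤ √(1 - 1 / (p : ℝ)) := by
        apply Real.le_sqrt_of_sq_le
        have : 0 < (1 : ℝ) / p := by positivity
        nlinarith
      have h5 : √(1 - 1 / (p : ℝ)) ≤ 1 := by
        rw [Real.sqrt_le_left zero_le_one]
        have : 0 < (1 : ℝ) / p := by positivity
        linarith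
      have h6 : 1 - (m : ℝ) / p ≤ √(1 - 1 / (p : ℝ)) ^ m := by
        have h7 := one_add_mul_le_pow (a := -(1 / (p : ℝ))) (by linarith) m
        have h8 : (1 - 1 / (p : ℝ)) ^ m ≤ √(1 - 1 / (p : ℝ)) ^ m := pow_le_pow_left₀ (by linarith) h4 m
        have h9 : 1 + (m : ℝ) * -(1 / (p : ℝ)) = 1 - (m : ℝ) / p := by ring
        rw [h9, ← sub_eq_add_neg] at h7
        linarith
      have h7 : √(1 - 1 / (p : ℝ)) ^ m ≤ 1 := pow_le_one₀ (Real.sqrt_nonneg _) h5
      rw [h2, abs_neg, abs_mul, abs_mul, abs_of_nonneg (pow_nonneg (Real.sqrt_nonneg _) m),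
        abs_of_nonneg (by linarith : 0 ≤ 1 - √(1 - 1 / (p : ℝ)) ^ m), mul_div_assoc]
      apply mul_le_mul _ (by linarith) (by linarith) (by positivity)
      apply mul_le_mul_of_nonneg_left _ (abs_nonneg _)
      apply pow_le_pow_left₀ (Real.sqrt_nonneg _)
      rw [Real.sqrt_le_left (by linarith)]
      nlinarith
    · have h1 : ((p : ℝ) - 1) * (((1 : ℕ) : ℝ) - 1) / p = 0 := by
        push_cast
        ring
      rw [h1, Real.sqrt_zero, zero_pow (by omega), mul_zero, sub_zero, abs_zero]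
      positivity
  have hEsum : C * m / s + K ^ m * (((n : ℝ) + 1) / p) + |G m| * (ℓ : ℝ) ^ m * m / p ≤ E / s := by
    have h1 : K ^ m * (((n : ℝ) + 1) / p) ≤ K ^ m * ((n : ℝ) + 1) / s := by
      have : K ^ m * (((n : ℝ) + 1) / p) = K ^ m * ((n : ℝ) + 1) * (1 / p) := by ring
      rw [this, div_eq_mul_one_div (K ^ m * ((n : ℝ) + 1)) s]
      exact mul_le_mul_of_nonneg_left hps (by positivity)
    have h2 : |G m| * (ℓ : ℝ) ^ m * m / p ≤ |G m| * (ℓ : ℝ) ^ m * m / s := by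
      rw [div_eq_mul_one_div _ (p : ℝ), div_eq_mul_one_div _ s]
      exact mul_le_mul_of_nonneg_left hps (by positivity)
    have h3 : E / s = C * m / s + K ^ m * ((n : ℝ) + 1) / s + |G m| * (ℓ : ℝ) ^ m * m / s := by rw [hE]; ring
    rw [h3]
    linarith
  have h1K : 1 / K * D = D / K := by ring
  rw [h1K] at hdiff
  rw [abs_sub_comm] at hdiff
  have htri : |av (fun u : Fin (n + 1) → ZMod p => Yb ℓ m u) - (if ℓ ∣ p - 1 then G m * √((ℓ : ℝ) - 1) ^ m else 0)| ≤
      |av (fun u : Fin (n + 1) → ZMod p => Yb ℓ m u) - av (fun u => (S u / s) ^ m)| +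
      |av (fun u => (S u / s) ^ m) - G m * √(μ 2) ^ m| +
      |G m * √(μ 2) ^ m - (if ℓ ∣ p - 1 then G m * √((ℓ : ℝ) - 1) ^ m else 0)| := by
    have e : av (fun u : Fin (n + 1) → ZMod p => Yb ℓ m u) - (if ℓ ∣ p - 1 then G m * √((ℓ : ℝ) - 1) ^ m else 0) =
      (av (fun u : Fin (n + 1) → ZMod p => Yb ℓ m u) - av (fun u => (S u / s) ^ m)) +
      (av (fun u => (S u / s) ^ m) - G m * √(μ 2) ^ m) +
      (G m * √(μ 2) ^ m - (if ℓ ∣ p - 1 then G m * √((ℓ : ℝ) - 1) ^ m else 0)) := by ring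
    rw [e]
    exact abs_add_three _ _ _
  linarith

/-- averages over the primes of functions that are close to each other at the large primes -/
lemma avg_lim (M : ℕ) (μ τ : ℕ → ℝ) (c D : ℝ) (hD0 : 0 ≤ D) (hD : ∀ p, p.Prime → ¬ p ∣ M → |μ p - τ p| ≤ D)
    (h : ∀ ε : ℝ, 0 < ε → ∃ p₀ : ℕ, ∀ p, p.Prime → ¬ p ∣ M → p₀ ≤ p → |μ p - τ p| ≤ ε)
    (hτ : ∀ ε : ℝ, 0 < ε → ∃ X : ℕ, ∀ x : ℕ, X ≤ x →
      |∑ p ∈ GP M x, τ p - c * Nat.primeCounting x| ≤ ε * Nat.primeCounting x) :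
    ∀ ε : ℝ, 0 < ε → ∃ X : ℕ, ∀ x : ℕ, X ≤ x →
      |∑ p ∈ GP M x, μ p - c * Nat.primeCounting x| ≤ ε * Nat.primeCounting x := by
  classical
  intro ε hε
  obtain ⟨p₀, hp₀⟩ := h (ε / 3) (by positivity)
  obtain ⟨X1, hX1⟩ := hτ (ε / 3) (by positivity)
  obtain ⟨X2, hX24, hX2⟩ := small_ev (D * p₀) (ε / 3) (by positivity)
  refine ⟨max X1 X2, fun x hx => ?_⟩
  have h1 := hX1 x ((le_max_left _ _).trans hx)
  have h2 := hX2 x ((le_max_right _ _).trans hx)
  have hx4 : 4 ≤ x := hX24.trans ((le_max_right _ _).trans hx)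
  have hl : 0 ≤ Real.log x := Real.log_nonneg (by exact_mod_cast (by omega : 1 ≤ x))
  have h3 : |∑ p ∈ GP M x, μ p - ∑ p ∈ GP M x, τ p| ≤ D * p₀ + ε / 3 * Nat.primeCounting x := by
    rw [← sum_sub_distrib]
    refine (abs_sum_le_sum_abs _ _).trans ?_
    rw [← sum_filter_add_sum_filter_not (GP M x) (fun p => p < p₀)]
    apply add_le_add
    · refine (sum_le_card_nsmul _ _ D fun p hp => ?_).trans ?_
      · rw [mem_filter, mem_GP] at hp
        exact hD p hp.1.2.1 hp.1.2.2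
      · rw [nsmul_eq_mul, mul_comm]
        apply mul_le_mul_of_nonneg_left _ hD0
        have : ((GP M x).filter (fun p => p < p₀)).card ≤ p₀ := by
          calc _ ≤ (range p₀).card := by
                apply card_le_card
                intro p hp
                rw [mem_filter] at hp
                exact mem_range.2 hp.2
            _ = p₀ := card_range _
        exact_mod_cast this
    · refine (sum_le_card_nsmul _ _ (ε / 3) fun p hp => ?_).trans ?_
      · rw [mem_filter, mem_GP] at hp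
        exact hp₀ p hp.1.2.1 hp.1.2.2 (by omega)
      · rw [nsmul_eq_mul, mul_comm]
        apply mul_le_mul_of_nonneg_left _ (by positivity)
        refine le_trans ?_ (GP_card_le M x)
        exact_mod_cast card_filter_le _ _
  have h4 := abs_sub_le (∑ p ∈ GP M x, μ p) (∑ p ∈ GP M x, τ p) (c * Nat.primeCounting x)
  linarith

/-- the prime number theorem for `p ≡ 1 mod ℓ` -/
lemma avg_class (ℓ : ℕ) (hℓ : ℓ.Prime) (M : ℕ) (hM : M ≠ 0) (g : ℝ) :
    ∀ ε : ℝ, 0 < ε → ∃ X : ℕ, ∀ x : ℕ, X ≤ x →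
      |∑ p ∈ GP M x, (if ℓ ∣ p - 1 then g else 0) - g / ((ℓ : ℝ) - 1) * Nat.primeCounting x| ≤ ε * Nat.primeCounting x := by
  classical
  have : NeZero ℓ := ⟨hℓ.ne_zero⟩
  intro ε hε
  have hct := cls_tendsto ℓ (1 : (ZMod ℓ)ˣ)
  rw [Metric.tendsto_atTop] at hct
  obtain ⟨X1, hX1⟩ := hct (ε / (2 * (|g| + 1))) (by positivity)
  obtain ⟨X2, hX24, hX2⟩ := small_ev (|g| * (M.primeFactors.card : ℝ)) (ε / 2) (by positivity)
  refine ⟨max X1 X2, fun x hx => ?_⟩
  have hx1 := (le_max_left _ _).trans hx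
  have hx2 := (le_max_right _ _).trans hx
  have hx4 : 4 ≤ x := by omega
  have hpos := (pi_lower' x hx4).1
  have h2 := hX1 x hx1
  rw [Real.dist_eq, Nat.totient_prime hℓ, Nat.cast_sub hℓ.one_le, Nat.cast_one] at h2
  obtain ⟨A, hA⟩ : ∃ A, A = clsP ℓ ((1 : (ZMod ℓ)ˣ) : ZMod ℓ) x := ⟨_, rfl⟩
  rw [← hA] at h2
  have hmemA : ∀ p, p ∈ A ↔ p ≤ x ∧ p.Prime ∧ ℓ ∣ p - 1 := by
    intro p
    rw [hA]
    unfold clsP
    rw [mem_filter, mem_Icc, Units.val_one]
    constructor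
    · rintro ⟨h3, h4, h5⟩
      refine ⟨h3.2, h4, ?_⟩
      rw [← ZMod.natCast_eq_zero_iff, Nat.cast_sub h3.1, h5, Nat.cast_one, sub_self]
    · rintro ⟨h3, h4, h5⟩
      refine ⟨⟨h4.one_le, h3⟩, h4, ?_⟩
      rw [← ZMod.natCast_eq_zero_iff, Nat.cast_sub h4.one_le, Nat.cast_one, sub_eq_zero] at h5
      exact h5
  obtain ⟨B, hB⟩ : ∃ B, B = (GP M x).filter (fun p => ℓ ∣ p - 1) := ⟨_, rfl⟩
  have hsum : ∑ p ∈ GP M x, (if ℓ ∣ p - 1 then g else 0) = B.card * g := by
    rw [← sum_filter, sum_const, nsmul_eq_mul, hB]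
  have hBA : (B.card : ℝ) ≤ A.card := by
    have : B ⊆ A := by
      intro p hp
      rw [hB, mem_filter, mem_GP] at hp
      exact (hmemA p).2 ⟨hp.1.1, hp.1.2.1, hp.2⟩
    exact_mod_cast card_le_card this
  have hAB : (A.card : ℝ) ≤ B.card + M.primeFactors.card := by
    have : A ⊆ B ∪ M.primeFactors := by
      intro p hp
      rw [hmemA] at hp
      rw [mem_union]
      by_cases h : p ∣ M
      · exact Or.inr (Nat.mem_primeFactors.2 ⟨hp.2.1, h, hM⟩)
      · left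
        rw [hB, mem_filter, mem_GP]
        exact ⟨⟨hp.1, hp.2.1, h⟩, hp.2.2⟩
    exact_mod_cast (card_le_card this).trans (card_union_le _ _)
  have h3 := hX2 x hx2
  have hl : 0 ≤ Real.log x := Real.log_nonneg (by exact_mod_cast (by omega : 1 ≤ x))
  rw [hsum]
  have h4 : |(A.card : ℝ) - ((ℓ : ℝ) - 1)⁻¹ * Nat.primeCounting x| ≤ ε / (2 * (|g| + 1)) * Nat.primeCounting x := by
    have e : (A.card : ℝ) - ((ℓ : ℝ) - 1)⁻¹ * Nat.primeCounting x =
        ((A.card : ℝ) / Nat.primeCounting x - ((ℓ : ℝ) - 1)⁻¹) * Nat.primeCounting x := by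
      field_simp
    rw [e, abs_mul, abs_of_pos hpos]
    exact mul_le_mul_of_nonneg_right h2.le hpos.le
  have e2 : (B.card : ℝ) * g - g / ((ℓ : ℝ) - 1) * Nat.primeCounting x =
      g * ((A.card : ℝ) - ((ℓ : ℝ) - 1)⁻¹ * Nat.primeCounting x) - g * ((A.card : ℝ) - B.card) := by ring
  rw [e2]
  refine (abs_sub _ _).trans ?_
  rw [abs_mul, abs_mul, abs_of_nonneg (by linarith : 0 ≤ (A.card : ℝ) - B.card)]
  have h5 : |g| * |(A.card : ℝ) - ((ℓ : ℝ) - 1)⁻¹ * Nat.primeCounting x| ≤ ε / 2 * Nat.primeCounting x := by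
    calc _ ≤ |g| * (ε / (2 * (|g| + 1)) * Nat.primeCounting x) := mul_le_mul_of_nonneg_left h4 (abs_nonneg _)
      _ = (|g| / (|g| + 1)) * (ε / 2 * Nat.primeCounting x) := by
          field_simp
      _ ≤ 1 * (ε / 2 * Nat.primeCounting x) := by
          apply mul_le_mul_of_nonneg_right _ (by positivity)
          rw [div_le_one (by positivity)]
          linarith
      _ = _ := one_mul _
  have h6 : |g| * ((A.card : ℝ) - B.card) ≤ |g| * M.primeFactors.card :=
    mul_le_mul_of_nonneg_left (by linarith) (abs_nonneg _)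
  linarith

/-- means over residues and averages over the finite field -/
lemma meanV_av (d p : ℕ) [Fact p.Prime] (f : (Fin d → ℤ) → ℝ) (g : (Fin d → ZMod p) → ℝ)
    (h : ∀ a, f a = g (fun j => (a j : ZMod p))) : meanV d p f = av g := by
  classical
  unfold meanV av
  rw [Fintype.card_fun, Fintype.card_fin, ZMod.card]
  push_cast
  congr 1
  apply sum_nbij' (fun t => (fun j => ((t j : ℕ) : ZMod p))) (fun u => fun j => (u j).val)
  · intro t _
    exact mem_univ _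
  · intro u _
    rw [Fintype.mem_piFinset]
    intro j
    exact mem_range.2 (ZMod.val_lt _)
  · intro t ht
    rw [Fintype.mem_piFinset] at ht
    funext j
    exact ZMod.val_cast_of_lt (mem_range.1 (ht j))
  · intro u _
    funext j
    exact ZMod.natCast_zmod_val _
  · intro t _
    rw [h]
    congr 1
    funext j
    push_cast
    rfl

end Pool.Agent.R318.ST
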