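import Pool.Agent.R318.ST.GenV
import Pool.Agent.R459.Eq6

/-! # Integers with independent digits, and vectors of such integers -/

set_option autoImplicit false

namespace Pool.Agent.R318.ST

open Finset Filter Pool.Agent.R459.Eq Pool.Agent.R318.PR
open Pool.Agent.H807R2.Dav
open Pool.Agent.TH872.Mir (Far farCount)
open Pool.Agent.TH872.An (GG GG_pos)

/-- two values of a digit -/
lemma two_bound (b : ℕ) (v : ℕ → ℝ) (hv0 : ∀ a, 0 ≤ v a) (hsum : ∑ a ∈ range b, v a = 1) (a₁ a₂ : ℕ)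
    (h₁ : a₁ ∈ range b) (h₂ : a₂ ∈ range b) (hne : a₂ ≠ a₁) (ρ : ℝ) (hρ0 : 0 ≤ ρ) (hρ₁ : ρ ≤ v a₁) (hρ₂ : ρ ≤ v a₂)
    (t δ : ℝ) (hδ : 0 ≤ δ) (hfar : ∀ n : ℤ, δ ≤ |(((a₂ : ℤ) - a₁ : ℤ) : ℝ) * t - n|) :
    ‖∑ a ∈ range b, ((v a : ℝ) : ℂ) * ee (a * t)‖ ≤ 1 - 4 * ρ * δ ^ 2 := by
  have h₂' : a₂ ∈ (range b).erase a₁ := mem_erase.2 ⟨hne, h₂⟩
  have hsplit : ∀ f : ℕ → ℂ, ∑ a ∈ range b, f a = f a₁ + (f a₂ + ∑ a ∈ ((range b).erase a₁).erase a₂, f a) := by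
    intro f
    rw [add_sum_erase _ f h₂', add_sum_erase _ f h₁]
  have hsplitr : ∑ a ∈ range b, v a = v a₁ + (v a₂ + ∑ a ∈ ((range b).erase a₁).erase a₂, v a) := by
    rw [add_sum_erase _ v h₂', add_sum_erase _ v h₁]
  have hrest : ‖∑ a ∈ ((range b).erase a₁).erase a₂, ((v a : ℝ) : ℂ) * ee (a * t)‖ ≤ 1 - v a₁ - v a₂ := by
    refine (norm_sum_le _ _).trans ?_
    have : ∀ a ∈ ((range b).erase a₁).erase a₂, ‖((v a : ℝ) : ℂ) * ee (a * t)‖ = v a := by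
      intro a _
      rw [norm_mul, norm_ee, mul_one, Complex.norm_real, Real.norm_of_nonneg (hv0 a)]
    rw [sum_congr rfl this]
    linarith
  have hpair : ‖ee (a₁ * t) + ee (a₂ * t)‖ ≤ 2 - 4 * δ ^ 2 := by
    have e1 : ee (a₁ * t) + ee (a₂ * t) = ee (a₁ * t) * (1 + ee ((((a₂ : ℤ) - a₁ : ℤ) : ℝ) * t)) := by
      rw [mul_add, mul_one, ← ee_add]
      congr 2
      push_cast
      ring
    rw [e1, norm_mul, norm_ee, one_mul]
    exact Pool.Agent.W93.RD.cos_dist _ _ hδ hfar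
  rw [hsplit]
  have h1 : ((v a₁ : ℝ) : ℂ) * ee (a₁ * t) + (((v a₂ : ℝ) : ℂ) * ee (a₂ * t) +
      ∑ a ∈ ((range b).erase a₁).erase a₂, ((v a : ℝ) : ℂ) * ee (a * t)) =
      ((ρ : ℝ) : ℂ) * (ee (a₁ * t) + ee (a₂ * t)) +
      (((v a₁ - ρ : ℝ) : ℂ) * ee (a₁ * t) + (((v a₂ - ρ : ℝ) : ℂ) * ee (a₂ * t) +
      ∑ a ∈ ((range b).erase a₁).erase a₂, ((v a : ℝ) : ℂ) * ee (a * t))) := by
    push_cast
    ring
  rw [h1]
  have t1 : ‖((ρ : ℝ) : ℂ) * (ee (a₁ * t) + ee (a₂ * t))‖ ≤ ρ * (2 - 4 * δ ^ 2) := by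
    rw [norm_mul, Complex.norm_real, Real.norm_of_nonneg hρ0]
    exact mul_le_mul_of_nonneg_left hpair hρ0
  have t2 : ‖((v a₁ - ρ : ℝ) : ℂ) * ee (a₁ * t)‖ = v a₁ - ρ := by
    rw [norm_mul, norm_ee, mul_one, Complex.norm_real, Real.norm_of_nonneg (by linarith)]
  have t3 : ‖((v a₂ - ρ : ℝ) : ℂ) * ee (a₂ * t)‖ = v a₂ - ρ := by
    rw [norm_mul, norm_ee, mul_one, Complex.norm_real, Real.norm_of_nonneg (by linarith)]
  refine (norm_add_le _ _).trans ?_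
  have t4 := norm_add_le (((v a₁ - ρ : ℝ) : ℂ) * ee (a₁ * t)) (((v a₂ - ρ : ℝ) : ℂ) * ee (a₂ * t) +
      ∑ a ∈ ((range b).erase a₁).erase a₂, ((v a : ℝ) : ℂ) * ee (a * t))
  have t5 := norm_add_le (((v a₂ - ρ : ℝ) : ℂ) * ee (a₂ * t))
      (∑ a ∈ ((range b).erase a₁).erase a₂, ((v a : ℝ) : ℂ) * ee (a * t))
  have t6 : ρ * (2 - 4 * δ ^ 2) = 2 * ρ - 4 * ρ * δ ^ 2 := by ring
  linarith

/-- a digit that is not almost constant -/
lemma single_bound (b : ℕ) (v : ℕ → ℝ) (hv0 : ∀ a, 0 ≤ v a) (hsum : ∑ a ∈ range b, v a = 1) (η : ℝ) (hη : 0 < η)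
    (hcol : ∑ a ∈ range b, v a ^ 2 ≤ 1 - η) (t δ : ℝ) (hδ : 0 ≤ δ)
    (hfar : ∀ D : ℤ, D ≠ 0 → |D| < b → ∀ n : ℤ, δ ≤ |(D : ℝ) * t - n|) :
    ‖∑ a ∈ range b, ((v a : ℝ) : ℂ) * ee (a * t)‖ ≤ 1 - 4 * (η / (b : ℝ) ^ 2) * δ ^ 2 := by
  classical
  have hb0 : 0 < b := by
    rcases Nat.eq_zero_or_pos b with h | h
    · subst h
      simp at hsum
    · exact h
  have hbr : (0 : ℝ) < b := by exact_mod_cast hb0
  have hρ : 0 < η / (b : ℝ) ^ 2 := by positivity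
  obtain ⟨a₁, h₁, a₂, h₂, hne, hprod⟩ : ∃ a₁ ∈ range b, ∃ a₂ ∈ range b, a₂ ≠ a₁ ∧ η / (b : ℝ) ^ 2 ≤ v a₁ * v a₂ := by
    by_contra hcon
    push Not at hcon
    have h1 : (∑ a ∈ range b, v a) ^ 2 ≤ ∑ a ∈ range b, ∑ a' ∈ range b, ((if a' = a then v a ^ 2 else 0) +
        (if a' = a then 0 else η / (b : ℝ) ^ 2)) := by
      rw [sq, sum_mul_sum]
      apply sum_le_sum
      intro a ha
      apply sum_le_sum
      intro a' ha'
      by_cases h : a' = a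
      · rw [if_pos h, if_pos h, h, sq, add_zero]
      · rw [if_neg h, if_neg h, zero_add]
        exact (hcon a ha a' ha' h).le
    simp only [sum_add_distrib] at h1
    have h2 : ∑ a ∈ range b, ∑ a' ∈ range b, (if a' = a then v a ^ 2 else 0) = ∑ a ∈ range b, v a ^ 2 := by
      apply sum_congr rfl
      intro a ha
      rw [sum_ite_eq', if_pos ha]
    have h3 : ∑ a ∈ range b, ∑ a' ∈ range b, (if a' = a then 0 else η / (b : ℝ) ^ 2) =
        ((b : ℝ) ^ 2 - b) * (η / (b : ℝ) ^ 2) := by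
      have h4 : ∀ a ∈ range b, ∑ a' ∈ range b, (if a' = a then 0 else η / (b : ℝ) ^ 2) = ((b : ℝ) - 1) * (η / (b : ℝ) ^ 2) := by
        intro a ha
        have h5 : ∀ a' ∈ range b, (if a' = a then (0 : ℝ) else η / (b : ℝ) ^ 2) =
            η / (b : ℝ) ^ 2 - (if a' = a then η / (b : ℝ) ^ 2 else 0) := by
          intro a' _
          split_ifs <;> ring
        rw [sum_congr rfl h5, sum_sub_distrib, sum_const, card_range, nsmul_eq_mul, sum_ite_eq', if_pos ha]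
        ring
      rw [sum_congr rfl h4, sum_const, card_range, nsmul_eq_mul]
      ring
    rw [h2, h3, hsum] at h1
    have h6 : ((b : ℝ) ^ 2 - b) * (η / (b : ℝ) ^ 2) = η - η / b := by
      field_simp
    have h7 : 0 < η / b := by positivity
    linarith
  have hle : ∀ a ∈ range b, v a ≤ 1 := by
    intro a ha
    rw [← hsum]
    exact single_le_sum (fun a _ => hv0 a) ha
  have hρ₁ : η / (b : ℝ) ^ 2 ≤ v a₁ := hprod.trans (mul_le_of_le_one_right (hv0 _) (hle _ h₂))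
  have hρ₂ : η / (b : ℝ) ^ 2 ≤ v a₂ := hprod.trans (mul_le_of_le_one_left (hv0 _) (hle _ h₁))
  refine two_bound b v hv0 hsum a₁ a₂ h₁ h₂ hne _ hρ.le hρ₁ hρ₂ t δ hδ fun n => ?_
  apply hfar
  · intro h
    apply hne
    omega
  · rw [mem_range] at h₁ h₂
    rw [abs_lt]
    constructor <;> omega

/-- the arrays of `k` digits -/
def arrays (b k : ℕ) : Finset (Fin k → ℕ) := Fintype.piFinset (fun _ => range b)

/-- the probability of an array of independent digits with the distributions `u i` -/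
noncomputable def wt {k : ℕ} (u : ℕ → ℕ → ℝ) (g : Fin k → ℕ) : ℝ := ∏ i : Fin k, u i (g i)

/-- the integer with the digits `g` -/
def dval (b : ℕ) {k : ℕ} (g : Fin k → ℕ) : ℕ := ∑ i : Fin k, g i * b ^ (i : ℕ)

/-- the distributions of `k` digits in base `b`; two independent copies of a digit differ with probability at least `η` -/
structure Dist (b k : ℕ) (η : ℝ) (u : ℕ → ℕ → ℝ) : Prop where
  nonneg : ∀ i a, 0 ≤ u i a
  sum : ∀ i < k, ∑ a ∈ range b, u i a = 1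
  col : ∀ i < k, ∑ a ∈ range b, u i a ^ 2 ≤ 1 - η

lemma wt_nonneg {b k : ℕ} {η : ℝ} {u : ℕ → ℕ → ℝ} (h : Dist b k η u) (g : Fin k → ℕ) : 0 ≤ wt u g :=
  prod_nonneg fun i _ => h.nonneg _ _

lemma wt_sum {b k : ℕ} {η : ℝ} {u : ℕ → ℕ → ℝ} (h : Dist b k η u) : ∑ g ∈ arrays b k, wt u g = 1 := by
  unfold arrays wt
  rw [← Finset.prod_univ_sum (fun _ : Fin k => range b) (fun i a => u i a)]
  apply prod_eq_one
  intro i _
  exact h.sum i i.2

lemma char_dig (b k : ℕ) (u : ℕ → ℕ → ℝ) (θ : ℝ) :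
    ∑ g ∈ arrays b k, ((wt u g : ℝ) : ℂ) * ee ((dval b g : ℝ) * θ) =
      ∏ i : Fin k, ∑ a ∈ range b, ((u i a : ℝ) : ℂ) * ee ((a : ℝ) * ((b : ℝ) ^ (i : ℕ) * θ)) := by
  rw [Finset.prod_univ_sum (fun _ : Fin k => range b) (fun i a => ((u i a : ℝ) : ℂ) * ee ((a : ℝ) * ((b : ℝ) ^ (i : ℕ) * θ)))]
  unfold arrays
  apply sum_congr rfl
  intro g _
  rw [prod_mul_distrib]
  unfold wt
  rw [Complex.ofReal_prod]
  congr 1
  have : ∀ (s : Finset (Fin k)) (f : Fin k → ℝ), ee (∑ i ∈ s, f i) = ∏ i ∈ s, ee (f i) := by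
    intro s f
    induction s using Finset.induction_on with
    | empty => simp [ee_zero]
    | insert a s ha ih => rw [sum_insert ha, prod_insert ha, ee_add, ih]
  rw [← this]
  congr 1
  unfold dval
  push_cast
  rw [sum_mul]
  apply sum_congr rfl
  intro i _
  ring

/-- independent digits -/
theorem dig_decays (b : ℕ) (hb : 2 ≤ b) (η : ℝ) (hη : 0 < η) (hη1 : η ≤ 1) : ∃ γ : ℝ, 0 < γ ∧ γ < 1 ∧
    ∀ (k : ℕ) (u : ℕ → ℕ → ℝ), Dist b k η u → ∀ c κ : ℤ,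
    Decays b (GG b) 1 k γ κ (arrays b k) (wt u) (fun g => c + κ * (dval b g : ℕ)) := by
  classical
  have hbr : (2 : ℝ) ≤ b := by exact_mod_cast hb
  have hb0 : (0 : ℝ) < b := by linarith
  have hG0 : (0 : ℝ) < GG b := by exact_mod_cast GG_pos b hb
  have hG1 : (1 : ℝ) ≤ GG b := by exact_mod_cast GG_pos b hb
  obtain ⟨δ, hδ⟩ : ∃ δ, δ = 1 / ((b : ℝ) ^ 2 * GG b) := ⟨_, rfl⟩
  have hδ0 : 0 < δ := by rw [hδ]; positivity
  have hδ1 : δ ≤ 1 / 2 := by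
    rw [hδ]
    apply div_le_div_of_nonneg_left (by norm_num) (by norm_num)
    nlinarith
  obtain ⟨γ, hγ⟩ : ∃ γ, γ = 1 - 4 * (η / (b : ℝ) ^ 2) * δ ^ 2 := ⟨_, rfl⟩
  have hγ1 : γ < 1 := by
    rw [hγ]
    have : 0 < 4 * (η / (b : ℝ) ^ 2) * δ ^ 2 := by positivity
    linarith
  have hγ0 : 0 < γ := by
    rw [hγ]
    have h1 : δ ^ 2 ≤ (1 / 2) ^ 2 := pow_le_pow_left₀ hδ0.le hδ1 2
    have h2 : η / (b : ℝ) ^ 2 ≤ 1 / 4 := by
      rw [div_le_div_iff₀ (by positivity) (by norm_num)]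
      nlinarith
    have h3 : 0 ≤ η / (b : ℝ) ^ 2 := by positivity
    nlinarith [sq_nonneg δ]
  refine ⟨γ, hγ0, hγ1, fun k u hu c κ => ⟨fun g _ => wt_nonneg hu g, wt_sum hu, fun θ' N hfar _ => ?_⟩⟩
  rw [shift_sum (arrays b k) (wt u) (fun g => dval b g) c κ θ']
  obtain ⟨θ, hθ⟩ : ∃ θ : ℝ, θ = κ * θ' := ⟨_, rfl⟩
  rw [← hθ] at hfar ⊢
  rw [char_dig, norm_prod]
  have hone : ∀ i : Fin k, ‖∑ a ∈ range b, ((u i a : ℝ) : ℂ) * ee ((a : ℝ) * ((b : ℝ) ^ (i : ℕ) * θ))‖ ≤ 1 := by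
    intro i
    rw [← hu.sum i i.2]
    refine (norm_sum_le _ _).trans (sum_le_sum fun a _ => ?_)
    rw [norm_mul, norm_ee, mul_one, Complex.norm_real, Real.norm_of_nonneg (hu.nonneg _ _)]
  have hfarb : ∀ i : Fin k, Far (1 / (b : ℝ) ^ 2) ((GG b : ℝ) * ((b : ℝ) ^ (i : ℕ) * θ)) →
      ‖∑ a ∈ range b, ((u i a : ℝ) : ℂ) * ee ((a : ℝ) * ((b : ℝ) ^ (i : ℕ) * θ))‖ ≤ γ := by
    intro i hi
    rw [hγ]
    apply single_bound b (u i) (hu.nonneg i) (hu.sum i i.2) η hη (hu.col i i.2) _ δ hδ0.le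
    intro D hD0 hD n
    obtain ⟨m', hm'⟩ : D.natAbs ∣ GG b := by
      have h1 : D.natAbs ∣ b.factorial := by
        apply Nat.dvd_factorial (Int.natAbs_pos.2 hD0)
        have : (D.natAbs : ℤ) < b := by rwa [Int.natCast_natAbs]
        omega
      exact h1.trans (Dvd.intro_left _ rfl)
    obtain ⟨m, hm1, hm2⟩ : ∃ m : ℤ, D * m = GG b ∧ |m| = m' := by
      rcases le_or_gt 0 D with h0 | h0
      · refine ⟨m', ?_, abs_of_nonneg (by positivity)⟩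
        rw [hm']
        push_cast
        rw [abs_of_nonneg h0]
      · refine ⟨-m', ?_, by rw [abs_neg, abs_of_nonneg (by positivity)]⟩
        rw [hm']
        push_cast
        rw [abs_of_neg h0]
        ring
    have h1 := hi (m * n)
    have e1 : (GG b : ℝ) * ((b : ℝ) ^ (i : ℕ) * θ) - ((m * n : ℤ) : ℝ) = m * ((D : ℝ) * ((b : ℝ) ^ (i : ℕ) * θ) - n) := by
      have e3 : ((D * m : ℤ) : ℝ) = (GG b : ℝ) := by rw [hm1]; push_cast; rfl
      push_cast at e3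
      rw [← e3]
      push_cast
      ring
    rw [e1, abs_mul] at h1
    have h2 : |(m : ℝ)| ≤ GG b := by
      have : |m| ≤ (GG b : ℤ) := by
        rw [hm2]
        have h3 : m' ≤ GG b := by
          rw [hm']
          exact Nat.le_mul_of_pos_left _ (Int.natAbs_pos.2 hD0)
        exact_mod_cast h3
      exact_mod_cast this
    have h5 : 1 / (b : ℝ) ^ 2 ≤ GG b * |(D : ℝ) * ((b : ℝ) ^ (i : ℕ) * θ) - n| :=
      h1.trans (mul_le_mul_of_nonneg_right h2 (abs_nonneg _))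
    rw [div_le_iff₀ (by positivity)] at h5
    rw [hδ, div_le_iff₀ (by positivity)]
    linarith
  have h1 : ∏ i : Fin k, ‖∑ a ∈ range b, ((u i a : ℝ) : ℂ) * ee ((a : ℝ) * ((b : ℝ) ^ (i : ℕ) * θ))‖ ≤
      ∏ i : Fin k, (if Far (1 / (b : ℝ) ^ 2) ((GG b : ℝ) * ((b : ℝ) ^ (i : ℕ) * θ)) then γ else 1) := by
    apply prod_le_prod (fun i _ => norm_nonneg _)
    intro i _
    split_ifs with h
    · exact hfarb i h
    · exact hone i
  refine h1.trans ?_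
  rw [prod_ite, prod_const, prod_const_one, mul_one]
  apply pow_le_pow_of_le_one hγ0.le hγ1.le
  have h2 : farCount b (GG b) k θ = (univ.filter (fun i : Fin k => Far (1 / (b : ℝ) ^ 2) ((GG b : ℝ) * ((b : ℝ) ^ (i : ℕ) * θ)))).card := by
    unfold farCount
    symm
    apply card_bij (fun (i : Fin k) _ => (i : ℕ))
    · intro i hi
      rw [mem_filter] at hi ⊢
      exact ⟨mem_range.2 i.2, hi.2⟩
    · intro i _ j _ h
      exact Fin.ext h
    · intro j hj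
      rw [mem_filter, mem_range] at hj
      exact ⟨⟨j, hj.1⟩, by rw [mem_filter]; exact ⟨mem_univ _, hj.2⟩, rfl⟩
  rw [← h2]
  omega

end Pool.Agent.R318.ST
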