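import Pool.Agent.R318.ST.Avg

/-! # Moments of the first Frobenius coefficient for the curves `y ^ ℓ = f(x)` with random coefficients -/

set_option autoImplicit false

namespace Pool.Agent.R318.ST

open Finset Polynomial Filter Pool.Agent.R318.PR Pool.Agent.R459.Eq Pool.Agent.H730R2.AA

/-- the number of the pairs `(x, y)` modulo `p` with `y ^ ℓ = f(x)`, where `f` is the polynomial with the coefficients `a` -/
def points (ℓ : ℕ) {n : ℕ} (a : Fin (n + 1) → ℤ) (p : ℕ) : ℕ :=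
  ((range p ×ˢ range p).filter (fun z => (p : ℤ) ∣ (z.2 : ℤ) ^ ℓ - ∑ j, a j * (z.1 : ℤ) ^ (j : ℕ))).card

/-- the number `(points - p) / √p` -/
noncomputable def a1 (ℓ : ℕ) {n : ℕ} (a : Fin (n + 1) → ℤ) (p : ℕ) : ℝ := ((points ℓ a p : ℝ) - p) / √(p : ℝ)

/-- `p` is a prime, `p ≠ ℓ`, and `f` modulo `p` is squarefree of degree `n` -/
def GoodP (ℓ : ℕ) {n : ℕ} (a : Fin (n + 1) → ℤ) (p : ℕ) : Prop :=
  p.Prime ∧ p ≠ ℓ ∧ ¬ (p : ℤ) ∣ a (Fin.last n) ∧
    Squarefree (∑ j : Fin (n + 1), C ((a j : ℤ) : ZMod p) * X ^ (j : ℕ) : (ZMod p)[X])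

open Classical in
/-- the good primes up to `x` -/
noncomputable def goods (ℓ : ℕ) {n : ℕ} (a : Fin (n + 1) → ℤ) (x : ℕ) : Finset ℕ := (range (x + 1)).filter (GoodP ℓ a)

/-- the limiting moments: `(m - 1)!! (ℓ - 1) ^ (m / 2 - 1)` for even `m ≥ 2`, and `0` for odd `m` -/
noncomputable def cM (ℓ m : ℕ) : ℝ := G m * √((ℓ : ℝ) - 1) ^ m / ((ℓ : ℝ) - 1)

/-- at every `x ≥ X` with `x ^ W ≤ N`: almost all primes are good, and the averages of the powers of `a1` with exponents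
`m` in the range are `cM ℓ m` up to `ε` -/
def Close (ℓ : ℕ) {n : ℕ} (ε : ℝ) (X W N : ℕ) (a : Fin (n + 1) → ℤ) : Prop :=
  ∀ x : ℕ, X ≤ x → x ^ W ≤ N → (1 - ε) * (Nat.primeCounting x : ℝ) ≤ (goods ℓ a x).card ∧
    ∀ m : ℕ, 1 ≤ m → m < 2 * ((n + 1) / 2) →
      |∑ p ∈ goods ℓ a x, a1 ℓ a p ^ m - cM ℓ m * (goods ℓ a x).card| ≤ ε * (goods ℓ a x).card

open Classical in
/-- the probability of an event for `d` integers with `k` independent digits in base `b` -/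
noncomputable def PrV (b k : ℕ) {d : ℕ} (u : Fin d → ℕ → ℕ → ℝ) (E : (Fin d → Fin k → ℕ) → Prop) : ℝ :=
  ∑ g ∈ (Fintype.piFinset (fun _ : Fin d => arrays b k)).filter E, ∏ j, wt (u j) (g j)

lemma sum_rangeZ (p : ℕ) [Fact p.Prime] {β : Type} [AddCommMonoid β] (F : ZMod p → β) :
    ∑ t ∈ range p, F ((t : ℕ) : ZMod p) = ∑ a : ZMod p, F a := by
  apply sum_nbij' (fun t => ((t : ℕ) : ZMod p)) (fun a => a.val)
  · intro t _; exact mem_univ _
  · intro a _; exact mem_range.2 (ZMod.val_lt a)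
  · intro t ht; exact ZMod.val_cast_of_lt (mem_range.1 ht)
  · intro a _; exact ZMod.natCast_zmod_val a
  · intro t _; rfl

lemma points_eq (ℓ n p : ℕ) [Fact p.Prime] (a : Fin (n + 1) → ℤ) :
    (points ℓ a p : ℝ) - p = ∑ x : ZMod p, psi ℓ ((evp (fun j => ((a j : ℤ) : ZMod p))).eval x) := by
  classical
  have h1 : points ℓ a p = ∑ x : ZMod p, rt ℓ ((evp (fun j => ((a j : ℤ) : ZMod p))).eval x) := by
    unfold points rt
    rw [card_filter, sum_product, ← sum_rangeZ p]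
    apply sum_congr rfl
    intro x _
    rw [card_filter, ← sum_rangeZ p]
    apply sum_congr rfl
    intro y _
    have h2 : (p : ℤ) ∣ (y : ℤ) ^ ℓ - ∑ j, a j * (x : ℤ) ^ (j : ℕ) ↔
        ((y : ℕ) : ZMod p) ^ ℓ = (evp (fun j => ((a j : ℤ) : ZMod p))).eval ((x : ℕ) : ZMod p) := by
      rw [← ZMod.intCast_zmod_eq_zero_iff_dvd, ← sub_eq_zero (a := ((y : ℕ) : ZMod p) ^ ℓ)]
      have : (((y : ℤ) ^ ℓ - ∑ j, a j * (x : ℤ) ^ (j : ℕ) : ℤ) : ZMod p) =
          ((y : ℕ) : ZMod p) ^ ℓ - (evp (fun j => ((a j : ℤ) : ZMod p))).eval ((x : ℕ) : ZMod p) := by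
        unfold evp
        rw [eval_finsetSum]
        push_cast
        congr 1
        apply sum_congr rfl
        intro j _
        rw [eval_mul, eval_C, eval_pow, eval_X]
      rw [this]
    by_cases h : (p : ℤ) ∣ (y : ℤ) ^ ℓ - ∑ j, a j * (x : ℤ) ^ (j : ℕ)
    · rw [if_pos h, if_pos (h2.1 h)]
    · rw [if_neg h, if_neg (fun h' => h (h2.2 h'))]
  rw [h1]
  unfold psi
  rw [sum_sub_distrib, sum_const, card_univ, ZMod.card, nsmul_eq_mul, mul_one]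
  push_cast
  rfl

open Classical in
/-- the term of the prime `p` -/
noncomputable def Yi (ℓ m : ℕ) {n : ℕ} (p : ℕ) (a : Fin (n + 1) → ℤ) : ℝ := if GoodP ℓ a p then a1 ℓ a p ^ m else 0

lemma Yi_eq (ℓ m n p : ℕ) [hp : Fact p.Prime] (hpℓ : p ≠ ℓ) (a : Fin (n + 1) → ℤ) :
    Yi ℓ m p a = Yb ℓ m (fun j => ((a j : ℤ) : ZMod p)) := by
  classical
  have h1 : GoodP ℓ a p ↔ Gu (fun j => ((a j : ℤ) : ZMod p)) := by
    unfold GoodP Gu
    constructor
    · rintro ⟨_, _, h3, h4⟩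
      refine ⟨fun h => h3 ((ZMod.intCast_zmod_eq_zero_iff_dvd _ p).1 h), h4⟩
    · rintro ⟨h3, h4⟩
      exact ⟨hp.out, hpℓ, fun h => h3 ((ZMod.intCast_zmod_eq_zero_iff_dvd _ p).2 h), h4⟩
  unfold Yi Yb a1
  by_cases h : GoodP ℓ a p
  · rw [if_pos h, if_pos (h1.1 h), points_eq]
  · rw [if_neg h, if_neg (fun h' => h (h1.2 h'))]

lemma Yi_bound (ℓ m n : ℕ) (hℓ : 1 ≤ ℓ) (hn : 1 ≤ n) (p : ℕ) (a : Fin (n + 1) → ℤ) :
    |Yi ℓ m p a| ≤ (2 * (ℓ : ℝ) * n) ^ m := by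
  classical
  have hℓr : (1 : ℝ) ≤ ℓ := by exact_mod_cast hℓ
  have hnr : (1 : ℝ) ≤ n := by exact_mod_cast hn
  by_cases hg : GoodP ℓ a p
  · have hF : Fact p.Prime := ⟨hg.1⟩
    rcases Nat.lt_or_ge p 3 with hp | hp
    · have hp2 : p = 2 := by
        have := hg.1.two_le
        omega
      unfold Yi
      rw [if_pos hg, abs_pow]
      apply pow_le_pow_left₀ (abs_nonneg _)
      unfold a1
      have hp0 : (0 : ℝ) < p := by exact_mod_cast hg.1.pos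
      have hs : 0 < √(p : ℝ) := Real.sqrt_pos.2 hp0
      have hs1 : 1 ≤ √(p : ℝ) := by
        rw [Real.one_le_sqrt]
        exact_mod_cast hg.1.one_le
      rw [points_eq, abs_div, abs_of_pos hs, div_le_iff₀ hs]
      have h1 : |∑ x : ZMod p, psi ℓ ((evp (fun j => ((a j : ℤ) : ZMod p))).eval x)| ≤ 2 * ℓ := by
        refine (abs_sum_le_sum_abs _ _).trans ?_
        refine (sum_le_card_nsmul _ _ (ℓ : ℝ) fun x _ => psi_abs ℓ hℓ _).trans ?_
        rw [card_univ, ZMod.card, nsmul_eq_mul, hp2]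
        norm_num
      refine h1.trans ?_
      have h2 : 2 * (ℓ : ℝ) * 1 * 1 ≤ 2 * (ℓ : ℝ) * n * √(p : ℝ) := by
        apply mul_le_mul _ hs1 zero_le_one (by positivity)
        exact mul_le_mul_of_nonneg_left hnr (by positivity)
      linarith
    · rw [Yi_eq ℓ m n p hg.2.1]
      refine (Yb_bound ℓ m n hℓ hn p hp _).trans ?_
      apply pow_le_pow_left₀ (by positivity)
      nlinarith
  · unfold Yi
    rw [if_neg hg, abs_zero]
    positivity

lemma SM_congr {b k W M : ℕ} {C : ℝ} {ι : Type} {Ω : Finset ι} {w : ι → ℝ} {f : ℕ → ι → ℝ} {m m' : ℕ → ℝ}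
    (h : ∀ p, p.Prime → ¬ p ∣ M → m p = m' p) (hs : SM b k W M C Ω w f m) : SM b k W M C Ω w f m' := by
  refine ⟨hs.1, fun x h1 h2 => ?_⟩
  refine le_trans (le_of_eq ?_) (hs.2 x h1 h2)
  apply sum_congr rfl
  intro i _
  congr 2
  apply sum_congr rfl
  intro p hp
  rw [mem_GP] at hp
  rw [h p hp.2.1 hp.2.2]

lemma meanV_lin (d p : ℕ) (hp : 1 ≤ p) (B : ℝ) (f : (Fin d → ℤ) → ℝ) :
    meanV d p (fun a => (f a / B + 1) / 2) = (meanV d p f / B + 1) / 2 := by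
  have hp0 : (p : ℝ) ≠ 0 := by exact_mod_cast (by omega : p ≠ 0)
  unfold meanV
  rw [← sum_div, sum_add_distrib, ← sum_div, sum_const, Fintype.card_piFinset, prod_const, card_univ, Fintype.card_fin,
    card_range, nsmul_eq_mul]
  push_cast
  field_simp

/-- one exponent -/
theorem one_exp (b : ℕ) (hb : 2 ≤ b) (η : ℝ) (hη : 0 < η) (hη1 : η ≤ 1) : ∃ W : ℕ, 1 ≤ W ∧
    ∀ (ℓ n : ℕ), ℓ.Prime → 1 ≤ n → ∀ κ : Fin (n + 1) → ℤ, (∀ j, κ j ≠ 0) → ∀ (m : ℕ) (c : ℝ),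
    ((m = 0 ∧ c = 1) ∨ (1 ≤ m ∧ m < 2 * ((n + 1) / 2) ∧ c = cM ℓ m)) → ∀ ε : ℝ, 0 < ε →
    ∃ (C : ℝ) (X₀ : ℕ), 0 < C ∧ 2 ≤ X₀ ∧ ∀ k X : ℕ, X₀ ≤ X → ∀ (c₀ : Fin (n + 1) → ℤ) (u : Fin (n + 1) → ℕ → ℕ → ℝ),
    (∀ j, Dist b k η (u j)) →
    PrV b k u (fun g => ∃ x : ℕ, X ≤ x ∧ x ^ W ≤ b ^ k ∧ ε * (Nat.primeCounting x : ℝ) <
      |∑ p ∈ (range (x + 1)).filter Nat.Prime, Yi ℓ m p (fun j => c₀ j + κ j * (dval b (g j) : ℕ)) -
        c * (Nat.primeCounting x : ℝ)|) ≤ C * (Real.log X / X) := by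
  classical
  obtain ⟨W, hW, h⟩ := digits_SM b hb η hη hη1
  refine ⟨2 * W, by omega, fun ℓ n hℓ hn κ hκ m c hm ε hε => ?_⟩
  obtain ⟨C, hC, hSM⟩ := h (n + 1) κ hκ
  have hℓ1 : (1 : ℝ) ≤ ℓ := by exact_mod_cast hℓ.one_le
  have hn1 : (1 : ℝ) ≤ n := by exact_mod_cast hn
  obtain ⟨B, hB⟩ : ∃ B : ℝ, B = (2 * (ℓ : ℝ) * n) ^ m := ⟨_, rfl⟩
  have hB0 : 0 < B := by rw [hB]; positivity
  obtain ⟨M, hM⟩ : ∃ M, M = b * (2 * ℓ) := ⟨_, rfl⟩
  have hM0 : M ≠ 0 := by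
    rw [hM]
    have := hℓ.pos
    positivity
  have hbM : b ∣ M := ⟨2 * ℓ, hM⟩
  have hpM : ∀ p : ℕ, p.Prime → ¬ p ∣ M → 3 ≤ p ∧ p ≠ ℓ := by
    intro p hp hd
    constructor
    · have h2 := hp.two_le
      rcases Nat.lt_or_ge 2 p with h3 | h3
      · omega
      · exfalso
        apply hd
        have : p = 2 := by omega
        rw [this, hM]
        exact ⟨b * ℓ, by ring⟩
    · rintro rfl
      apply hd
      rw [hM]
      exact ⟨b * 2, by ring⟩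
  obtain ⟨μ, hμ⟩ : ∃ μ : ℕ → ℝ, μ = fun p => meanV (n + 1) p (Yi ℓ m p) := ⟨_, rfl⟩
  have hμav : ∀ (p : ℕ) [Fact p.Prime], ¬ p ∣ M → μ p = av (fun u : Fin (n + 1) → ZMod p => Yb ℓ m u) := by
    intro p hF hd
    rw [hμ]
    exact meanV_av (n + 1) p _ _ fun a => Yi_eq ℓ m n p (hpM p hF.out hd).2 a
  have hμB : ∀ (p : ℕ), p.Prime → |μ p| ≤ B := by
    intro p hp
    have hp0 : (0 : ℝ) < p := by exact_mod_cast hp.pos
    rw [hμ]
    simp only
    unfold meanV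
    rw [abs_div, abs_of_pos (pow_pos hp0 _), div_le_iff₀ (pow_pos hp0 _)]
    refine (abs_sum_le_sum_abs _ _).trans ?_
    refine (sum_le_card_nsmul _ _ B fun t _ => by rw [hB]; exact Yi_bound ℓ m n hℓ.one_le hn p _).trans (le_of_eq ?_)
    rw [Fintype.card_piFinset, prod_const, card_univ, Fintype.card_fin, card_range, nsmul_eq_mul]
    push_cast
    ring
  have hc : ∀ ε : ℝ, 0 < ε → ∃ X : ℕ, ∀ x : ℕ, X ≤ x →
      |∑ p ∈ GP M x, μ p - c * Nat.primeCounting x| ≤ ε * Nat.primeCounting x := by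
    rcases hm with ⟨h0, hc1⟩ | ⟨h1, h2, hcm⟩
    · subst h0
      rw [hc1]
      apply avg_lim M μ (fun _ => 1) 1 (B + 1) (by linarith)
      · intro p hp _
        refine (abs_sub _ _).trans ?_
        rw [abs_one]
        linarith [hμB p hp]
      · intro ε' hε'
        obtain ⟨p₀, hp₀⟩ := exists_nat_ge (((n : ℝ) + 1) / ε')
        refine ⟨p₀, fun p hp hd hpp => ?_⟩
        have hF : Fact p.Prime := ⟨hp⟩
        have hp0 : (0 : ℝ) < p := by exact_mod_cast hp.pos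
        rw [hμav p hd]
        refine (Yb_zero ℓ n p).trans ?_
        rw [div_le_iff₀ hp0]
        have h3 : ((n : ℝ) + 1) / ε' ≤ p := hp₀.trans (by exact_mod_cast hpp)
        rw [div_le_iff₀ hε'] at h3
        linarith
      · intro ε' hε'
        obtain ⟨X2, hX24, hX2⟩ := small_ev (M.primeFactors.card : ℝ) ε' hε'
        refine ⟨X2, fun x hx => ?_⟩
        have h7 := hX2 x hx
        have h8 : 0 ≤ Real.log x := Real.log_nonneg (by exact_mod_cast (by omega : 1 ≤ x))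
        have h1 := GP_card_le M x
        have h2 := GP_card_ge M hM0 x
        rw [sum_const, nsmul_eq_mul, mul_one, one_mul, abs_le]
        constructor <;> linarith
    · rw [hcm]
      apply avg_lim M μ (fun p => if ℓ ∣ p - 1 then G m * √((ℓ : ℝ) - 1) ^ m else 0) (cM ℓ m)
        (B + |G m * √((ℓ : ℝ) - 1) ^ m|) (by positivity)
      · intro p hp _
        refine (abs_sub _ _).trans ?_
        have h3 : |(if ℓ ∣ p - 1 then G m * √((ℓ : ℝ) - 1) ^ m else 0)| ≤ |G m * √((ℓ : ℝ) - 1) ^ m| := by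
          split_ifs
          · exact le_rfl
          · rw [abs_zero]
            exact abs_nonneg _
        linarith [hμB p hp]
      · intro ε' hε'
        obtain ⟨p₀, hp₀⟩ := Yb_mean ℓ n m ((n + 1) / 2) hℓ h1 h2 (Nat.mul_div_le _ _) ε' hε'
        refine ⟨p₀, fun p hp hd hpp => ?_⟩
        have hF : Fact p.Prime := ⟨hp⟩
        rw [hμav p hd]
        exact hp₀ p hpp
      · exact avg_class ℓ hℓ M hM0 _
  obtain ⟨C', X₀, hC', hX₀, H⟩ := absSum b W M C hC hW hM0 B hB0 μ c hc ε hε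
  refine ⟨C', X₀, hC', hX₀, fun k X hX c₀ u hu => ?_⟩
  unfold PrV
  refine H k X hX (Fin (n + 1) → Fin k → ℕ) (Fintype.piFinset (fun _ : Fin (n + 1) => arrays b k))
    (fun g => ∏ j, wt (u j) (g j)) (fun p g => Yi ℓ m p (fun j => c₀ j + κ j * (dval b (g j) : ℕ)))
    (fun p g => by rw [hB]; exact Yi_bound ℓ m n hℓ.one_le hn p _) ?_ _ (filter_subset _ _)
    (fun g hg => (mem_filter.1 hg).2)
  have h1 := hSM M hbM k c₀ u hu (fun p a => (Yi ℓ m p a / B + 1) / 2) (fun p a => by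
    have h2 := abs_le.1 (Yi_bound ℓ m n hℓ.one_le hn p a)
    rw [← hB] at h2
    have h3 : -1 ≤ Yi ℓ m p a / B := by
      rw [le_div_iff₀ hB0]
      linarith
    have h4 : Yi ℓ m p a / B ≤ 1 := by
      rw [div_le_one hB0]
      exact h2.2
    constructor <;> linarith) (fun p hp hd a a' haa => by
    have hF : Fact p.Prime := ⟨hp⟩
    have h2 : (fun j => ((a j : ℤ) : ZMod p)) = (fun j => ((a' j : ℤ) : ZMod p)) := by
      funext j
      exact ((ZMod.intCast_eq_intCast_iff_dvd_sub _ _ p).2 (by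
        have := haa j
        rw [← neg_sub]
        exact (dvd_neg).2 this))
    simp only
    rw [Yi_eq ℓ m n p (hpM p hp hd).2, Yi_eq ℓ m n p (hpM p hp hd).2, h2])
  refine SM_congr (fun p hp hd => ?_) h1
  rw [meanV_lin (n + 1) p hp.one_le B, hμ]

lemma Dist.min {b k : ℕ} {η : ℝ} {u : ℕ → ℕ → ℝ} (h : Dist b k η u) (η' : ℝ) (hη : η' ≤ η) : Dist b k η' u :=
  ⟨h.nonneg, h.sum, fun i hi => (h.col i hi).trans (by linarith)⟩

lemma goods_card {ℓ n : ℕ} (a : Fin (n + 1) → ℤ) (x : ℕ) :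
    ∑ p ∈ (range (x + 1)).filter Nat.Prime, Yi ℓ 0 p a = (goods ℓ a x).card := by
  classical
  unfold Yi goods
  rw [← sum_filter, filter_filter]
  simp only [pow_zero, sum_const, nsmul_eq_mul, mul_one]
  congr 2
  apply filter_congr
  intro p _
  exact ⟨fun h => h.2, fun h => ⟨h.1, h⟩⟩

lemma goods_sum {ℓ n : ℕ} (m : ℕ) (a : Fin (n + 1) → ℤ) (x : ℕ) :
    ∑ p ∈ (range (x + 1)).filter Nat.Prime, Yi ℓ m p a = ∑ p ∈ goods ℓ a x, a1 ℓ a p ^ m := by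
  classical
  unfold Yi goods
  rw [← sum_filter, filter_filter]
  apply sum_congr _ fun _ _ => rfl
  apply filter_congr
  intro p _
  exact ⟨fun h => h.2, fun h => ⟨h.1, h⟩⟩

lemma PrV_union (b k : ℕ) {d : ℕ} (u : Fin d → ℕ → ℕ → ℝ) (hw : ∀ g : Fin d → Fin k → ℕ, 0 ≤ ∏ j, wt (u j) (g j))
    (S : Finset ℕ) (E : (Fin d → Fin k → ℕ) → Prop) (F : ℕ → (Fin d → Fin k → ℕ) → Prop)
    (h : ∀ g, E g → ∃ m ∈ S, F m g) : PrV b k u E ≤ ∑ m ∈ S, PrV b k u (F m) := by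
  classical
  have h0 : ∀ (g : Fin d → Fin k → ℕ) (m : ℕ), 0 ≤ (if F m g then ∏ j, wt (u j) (g j) else 0) := by
    intro g m
    split_ifs
    · exact hw g
    · exact le_rfl
  unfold PrV
  calc ∑ g ∈ (Fintype.piFinset (fun _ : Fin d => arrays b k)).filter E, ∏ j, wt (u j) (g j) ≤
      ∑ g ∈ (Fintype.piFinset (fun _ : Fin d => arrays b k)).filter E, ∑ m ∈ S,
        (if F m g then ∏ j, wt (u j) (g j) else 0) := by
        apply sum_le_sum
        intro g hg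
        obtain ⟨m, hm, hF⟩ := h g (mem_filter.1 hg).2
        have h1 := single_le_sum (f := fun m => if F m g then ∏ j, wt (u j) (g j) else 0) (fun m _ => h0 g m) hm
        simp only [if_pos hF] at h1
        exact h1
    _ ≤ ∑ g ∈ (Fintype.piFinset (fun _ : Fin d => arrays b k)), ∑ m ∈ S,
        (if F m g then ∏ j, wt (u j) (g j) else 0) := by
        apply sum_le_sum_of_subset_of_nonneg (filter_subset _ _)
        intro g _ _
        exact sum_nonneg fun m _ => h0 g m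
    _ = ∑ m ∈ S, ∑ g ∈ (Fintype.piFinset (fun _ : Fin d => arrays b k)),
        (if F m g then ∏ j, wt (u j) (g j) else 0) := sum_comm
    _ = _ := by
        apply sum_congr rfl
        intro m _
        rw [sum_filter]

/-- all exponents -/
theorem all_exp (b : ℕ) (hb : 2 ≤ b) (η : ℝ) (hη : 0 < η) : ∃ W : ℕ, 1 ≤ W ∧
    ∀ (ℓ n : ℕ), ℓ.Prime → 1 ≤ n → ∀ κ : Fin (n + 1) → ℤ, (∀ j, κ j ≠ 0) → ∀ ε : ℝ, 0 < ε →
    ∃ (C : ℝ) (X₀ : ℕ), ∀ k X : ℕ, X₀ ≤ X → ∀ (c : Fin (n + 1) → ℤ) (u : Fin (n + 1) → ℕ → ℕ → ℝ),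
    (∀ j, Dist b k η (u j)) →
    PrV b k u (fun g => ¬ Close ℓ ε X W (b ^ k) (fun j => c j + κ j * (dval b (g j) : ℕ))) ≤ C * (Real.log X / X) := by
  classical
  obtain ⟨W, hW, H⟩ := one_exp b hb (min η 1) (lt_min hη one_pos) (min_le_right _ _)
  refine ⟨W, hW, fun ℓ n hℓ hn κ hκ ε hε => ?_⟩
  obtain ⟨R, hR⟩ : ∃ R, R = 2 * ((n + 1) / 2) := ⟨_, rfl⟩
  obtain ⟨S, hS⟩ : ∃ S : ℝ, S = ∑ m ∈ range R, |cM ℓ m| := ⟨_, rfl⟩
  have hS0 : 0 ≤ S := by rw [hS]; exact sum_nonneg fun _ _ => abs_nonneg _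
  have hSm : ∀ m, m < R → |cM ℓ m| ≤ S := by
    intro m hm
    rw [hS]
    exact single_le_sum (f := fun m => |cM ℓ m|) (fun _ _ => abs_nonneg _) (mem_range.2 hm)
  obtain ⟨ε₀, hε₀⟩ : ∃ ε₀ : ℝ, ε₀ = min (1 / 2) (min ε (ε / (4 * (S + 1)))) := ⟨_, rfl⟩
  have h0 : 0 < ε₀ := by rw [hε₀]; exact lt_min (by norm_num) (lt_min hε (by positivity))
  have h01 : ε₀ ≤ 1 / 2 := by rw [hε₀]; exact min_le_left _ _
  have h02 : ε₀ ≤ ε := by rw [hε₀]; exact (min_le_right _ _).trans (min_le_left _ _)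
  have h03 : ε₀ ≤ ε / (4 * (S + 1)) := by rw [hε₀]; exact (min_le_right _ _).trans (min_le_right _ _)
  have h04 : (S + 1) * ε₀ ≤ ε / 4 := by
    rw [le_div_iff₀ (by positivity)] at h03
    linarith
  have hex : ∀ m : ℕ, ∃ (C : ℝ) (X₀ : ℕ), 0 < C ∧ (m < R → ∀ k X : ℕ, X₀ ≤ X → ∀ (c : Fin (n + 1) → ℤ)
      (u : Fin (n + 1) → ℕ → ℕ → ℝ), (∀ j, Dist b k (min η 1) (u j)) →
      PrV b k u (fun g => ∃ x : ℕ, X ≤ x ∧ x ^ W ≤ b ^ k ∧ ε₀ * (Nat.primeCounting x : ℝ) <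
      |∑ p ∈ (range (x + 1)).filter Nat.Prime, Yi ℓ m p (fun j => c j + κ j * (dval b (g j) : ℕ)) -
        (if m = 0 then 1 else cM ℓ m) * (Nat.primeCounting x : ℝ)|) ≤ C * (Real.log X / X)) := by
    intro m
    by_cases hm : m < R
    · obtain ⟨C, X₀, hC, _, h1⟩ := H ℓ n hℓ hn κ hκ m (if m = 0 then 1 else cM ℓ m) (by
        by_cases h : m = 0
        · left
          exact ⟨h, if_pos h⟩
        · right
          exact ⟨by omega, by omega, if_neg h⟩) ε₀ h0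
      exact ⟨C, X₀, hC, fun _ => h1⟩
    · exact ⟨1, 0, one_pos, fun h => absurd h hm⟩
  choose C X₀ hC hH using hex
  refine ⟨∑ m ∈ range R, C m, ∑ m ∈ range R, X₀ m + 4, fun k X hX c u hu => ?_⟩
  have hX4 : 4 ≤ X := by omega
  have hlog : 0 ≤ Real.log X / X :=
    div_nonneg (Real.log_nonneg (by exact_mod_cast (by omega : 1 ≤ X))) (Nat.cast_nonneg _)
  obtain ⟨a, ha⟩ : ∃ a : (Fin (n + 1) → Fin k → ℕ) → Fin (n + 1) → ℤ, a = fun g j => c j + κ j * (dval b (g j) : ℕ) := ⟨_, rfl⟩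
  have hw : ∀ g : Fin (n + 1) → Fin k → ℕ, 0 ≤ ∏ j, wt (u j) (g j) := fun g => prod_nonneg fun j _ => wt_nonneg (hu j) _
  have hone : ∀ m ∈ range R, PrV b k u (fun g => ∃ x : ℕ, X ≤ x ∧ x ^ W ≤ b ^ k ∧ ε₀ * (Nat.primeCounting x : ℝ) <
      |∑ p ∈ (range (x + 1)).filter Nat.Prime, Yi ℓ m p (a g) -
        (if m = 0 then 1 else cM ℓ m) * (Nat.primeCounting x : ℝ)|) ≤ C m * (Real.log X / X) := by
    intro m hm
    rw [ha]
    apply hH m (mem_range.1 hm) k X _ c u fun j => (hu j).min _ (min_le_left _ _)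
    have : X₀ m ≤ ∑ m ∈ range R, X₀ m := single_le_sum (fun _ _ => Nat.zero_le _) hm
    omega
  have hcover : ∀ g, ¬ Close ℓ ε X W (b ^ k) (a g) → ∃ m ∈ range R, ∃ x : ℕ, X ≤ x ∧ x ^ W ≤ b ^ k ∧
      ε₀ * (Nat.primeCounting x : ℝ) < |∑ p ∈ (range (x + 1)).filter Nat.Prime, Yi ℓ m p (a g) -
        (if m = 0 then 1 else cM ℓ m) * (Nat.primeCounting x : ℝ)| := by
    intro g hg
    by_contra hcon
    push Not at hcon
    apply hg
    intro x hx hxW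
    have hpi : 0 < (Nat.primeCounting x : ℝ) := (pi_lower' x (by omega)).1
    have hR2 : 2 ≤ R := by omega
    have h1 := hcon 0 (mem_range.2 (by omega)) x hx hxW
    rw [if_pos rfl, one_mul, goods_card] at h1
    have h2 := (abs_le.1 h1).1
    have h3 := (abs_le.1 h1).2
    have h5 : (1 - ε₀) * (Nat.primeCounting x : ℝ) ≤ (goods ℓ (a g) x).card := by linarith
    constructor
    · refine le_trans ?_ h5
      apply mul_le_mul_of_nonneg_right _ hpi.le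
      linarith
    intro m hm1 hm2
    have h6 := hcon m (mem_range.2 (by omega)) x hx hxW
    rw [if_neg (by omega), goods_sum] at h6
    have h7 : |cM ℓ m * (Nat.primeCounting x : ℝ) - cM ℓ m * ((goods ℓ (a g) x).card : ℝ)| ≤ S * (ε₀ * Nat.primeCounting x) := by
      rw [← mul_sub, abs_mul, abs_sub_comm]
      exact mul_le_mul (hSm m (by omega)) h1 (abs_nonneg _) hS0
    have h8 := abs_sub_le (∑ p ∈ goods ℓ (a g) x, a1 ℓ (a g) p ^ m) (cM ℓ m * (Nat.primeCounting x : ℝ))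
      (cM ℓ m * ((goods ℓ (a g) x).card : ℝ))
    have h9 : (S + 1) * ε₀ * (Nat.primeCounting x : ℝ) ≤ ε / 4 * Nat.primeCounting x :=
      mul_le_mul_of_nonneg_right h04 hpi.le
    have h10 : (1 / 2) * (Nat.primeCounting x : ℝ) ≤ (goods ℓ (a g) x).card := by
      refine le_trans ?_ h5
      apply mul_le_mul_of_nonneg_right _ hpi.le
      linarith
    have h11 : ε / 2 * (Nat.primeCounting x : ℝ) ≤ ε * (goods ℓ (a g) x).card := by
      have := mul_le_mul_of_nonneg_left h10 hε.le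
      linarith
    have h12 : 0 ≤ ε * (Nat.primeCounting x : ℝ) := by positivity
    have h13 : (S + 1) * ε₀ * (Nat.primeCounting x : ℝ) = ε₀ * Nat.primeCounting x + S * (ε₀ * Nat.primeCounting x) := by ring
    linarith
  calc PrV b k u (fun g => ¬ Close ℓ ε X W (b ^ k) (fun j => c j + κ j * (dval b (g j) : ℕ))) =
        PrV b k u (fun g => ¬ Close ℓ ε X W (b ^ k) (a g)) := by rw [ha]
    _ ≤ ∑ m ∈ range R, PrV b k u (fun g => ∃ x : ℕ, X ≤ x ∧ x ^ W ≤ b ^ k ∧ ε₀ * (Nat.primeCounting x : ℝ) <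
      |∑ p ∈ (range (x + 1)).filter Nat.Prime, Yi ℓ m p (a g) -
        (if m = 0 then 1 else cM ℓ m) * (Nat.primeCounting x : ℝ)|) := by
          apply PrV_union b k u hw (range R)
          exact hcover
    _ ≤ ∑ m ∈ range R, C m * (Real.log X / X) := sum_le_sum hone
    _ = _ := by rw [sum_mul]

end Pool.Agent.R318.ST
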