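import Pool.Agent.R318.ST.Mom
import Pool.Agent.R318.PR.Weil2

/-! # Polynomials of bounded degree over a finite field: their values, and the polynomials that are not squarefree -/

set_option autoImplicit false

namespace Pool.Agent.R318.ST

open Finset Polynomial

variable {K : Type} [Field K] [Fintype K] [DecidableEq K]

/-- the polynomial with given coefficients -/
noncomputable def evp {d : ℕ} (u : Fin d → K) : K[X] := ∑ j : Fin d, C (u j) * X ^ (j : ℕ)

lemma coeff_evp {d : ℕ} (u : Fin d → K) (i : Fin d) : (evp u).coeff i = u i := by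
  unfold evp
  rw [finsetSum_coeff]
  simp only [coeff_C_mul, coeff_X_pow]
  rw [sum_eq_single i]
  · simp
  · intro j _ hj
    rw [if_neg, mul_zero]
    intro h
    exact hj (Fin.ext h.symm)
  · intro h
    exact absurd (mem_univ i) h

lemma evp_coeff {d : ℕ} (P : K[X]) (h : P.natDegree < d) : evp (fun j : Fin d => P.coeff j) = P := by
  unfold evp
  conv_rhs => rw [as_sum_range' P d h]
  rw [← Fin.sum_univ_eq_sum_range (fun j => monomial j (P.coeff j))]
  apply sum_congr rfl
  intro j _
  rw [C_mul_X_pow_eq_monomial]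

lemma eval_evp_add {d : ℕ} (u e : Fin d → K) (y x : K) :
    (evp (fun j => u j + y * e j)).eval x = (evp u).eval x + y * (evp e).eval x := by
  unfold evp
  simp only [eval_finsetSum, eval_mul, eval_C, eval_pow, eval_X]
  rw [mul_sum, ← sum_add_distrib]
  apply sum_congr rfl
  intro j _
  ring

/-- the value at `t` is independent of functions invariant under a direction `e` with value `1` at `t` -/
lemma shift_avg {d : ℕ} (F : K → ℝ) (H : (Fin d → K) → ℝ) (e : Fin d → K) (t : K) (he : (evp e).eval t = 1)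
    (hH : ∀ u y, H (fun j => u j + y * e j) = H u) :
    (Fintype.card K : ℝ) * ∑ u : Fin d → K, F ((evp u).eval t) * H u = (∑ y, F y) * ∑ u, H u := by
  have h1 : ∀ y : K, ∑ u : Fin d → K, F ((evp u).eval t) * H u = ∑ u : Fin d → K, F ((evp u).eval t + y) * H u := by
    intro y
    rw [← Equiv.sum_comp (Equiv.addRight (fun j => y * e j)) (fun u : Fin d → K => F ((evp u).eval t) * H u)]
    apply sum_congr rfl
    intro u _
    have e1 : (Equiv.addRight (fun j => y * e j)) u = fun j => u j + y * e j := by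
      funext j
      rfl
    rw [e1, eval_evp_add, he, mul_one, hH]
  calc (Fintype.card K : ℝ) * ∑ u : Fin d → K, F ((evp u).eval t) * H u =
      ∑ _y : K, ∑ u : Fin d → K, F ((evp u).eval t) * H u := by rw [sum_const, card_univ, nsmul_eq_mul]
    _ = ∑ y : K, ∑ u : Fin d → K, F ((evp u).eval t + y) * H u := sum_congr rfl fun y _ => h1 y
    _ = ∑ u : Fin d → K, (∑ y : K, F ((evp u).eval t + y)) * H u := by
        rw [sum_comm]
        apply sum_congr rfl
        intro u _
        rw [sum_mul]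
    _ = ∑ u : Fin d → K, (∑ y : K, F y) * H u := by
        apply sum_congr rfl
        intro u _
        rw [← Equiv.sum_comp (Equiv.addLeft ((evp u).eval t)) F]
        rfl
    _ = _ := by rw [mul_sum]

/-- interpolation -/
lemma dir {d : ℕ} (S : Finset K) (t : K) (ht : t ∉ S) (hS : S.card + 1 ≤ d) :
    ∃ e : Fin d → K, (evp e).eval t = 1 ∧ ∀ s ∈ S, (evp e).eval s = 0 := by
  obtain ⟨h, hh⟩ : ∃ h : K[X], h = C (∏ s ∈ S, (t - s))⁻¹ * ∏ s ∈ S, (X - C s) := ⟨_, rfl⟩
  have hc : ∏ s ∈ S, (t - s) ≠ 0 := by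
    rw [prod_ne_zero_iff]
    intro s hs h0
    apply ht
    rw [sub_eq_zero.1 h0]
    exact hs
  have hdeg : h.natDegree < d := by
    have h1 : (∏ s ∈ S, (X - C s)).natDegree = S.card := by
      rw [natDegree_prod_of_monic _ _ (fun s _ => monic_X_sub_C s)]
      simp
    have h2 : h.natDegree ≤ S.card := by
      rw [hh, ← h1]
      exact natDegree_C_mul_le _ _
    omega
  refine ⟨fun j => h.coeff j, ?_, fun s hs => ?_⟩
  · rw [evp_coeff h hdeg, hh, eval_mul, eval_C, eval_prod]
    simp only [eval_sub, eval_X, eval_C]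
    exact inv_mul_cancel₀ hc
  · rw [evp_coeff h hdeg, hh, eval_mul, eval_C, eval_prod]
    simp only [eval_sub, eval_X, eval_C]
    rw [prod_eq_zero hs (sub_self s), mul_zero]

/-- the values of a random polynomial with `d` coefficients are independent, `d` by `d` -/
theorem kwise (d : ℕ) (ψ : K → ℝ) :
    KWise (fun (t : K) (u : Fin d → K) => ψ ((evp u).eval t)) d (fun j => (∑ y, ψ y ^ j) / Fintype.card K) := by
  intro T t ht j r hr
  have hq : (Fintype.card K : ℝ) ≠ 0 := by exact_mod_cast Fintype.card_ne_zero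
  have hexp : ∀ u : Fin d → K, (∑ s ∈ T, ψ ((evp u).eval s)) ^ r =
      ∑ σ ∈ Fintype.piFinset (fun _ : Fin r => T), ∏ i, ψ ((evp u).eval (σ i)) := by
    intro u
    rw [← Finset.prod_univ_sum (fun _ : Fin r => T) (fun _ s => ψ ((evp u).eval s)), prod_const, card_univ,
      Fintype.card_fin]
  have key : ∀ σ ∈ Fintype.piFinset (fun _ : Fin r => T),
      (Fintype.card K : ℝ) * ∑ u : Fin d → K, ψ ((evp u).eval t) ^ j * ∏ i, ψ ((evp u).eval (σ i)) =
        (∑ y, ψ y ^ j) * ∑ u : Fin d → K, ∏ i, ψ ((evp u).eval (σ i)) := by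
    intro σ hσ
    rw [Fintype.mem_piFinset] at hσ
    obtain ⟨e, he1, he2⟩ := dir (d := d) (univ.image σ) t (by
      intro h
      rw [mem_image] at h
      obtain ⟨i, _, hi⟩ := h
      exact ht (hi ▸ hσ i)) (by
      have : (univ.image σ).card ≤ r := by
        refine card_image_le.trans ?_
        rw [card_univ, Fintype.card_fin]
      omega)
    apply shift_avg (fun y => ψ y ^ j) (fun u => ∏ i, ψ ((evp u).eval (σ i))) e t he1
    intro u y
    apply prod_congr rfl
    intro i _
    rw [eval_evp_add, he2 (σ i) (mem_image_of_mem σ (mem_univ i)), mul_zero, add_zero]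
  unfold av
  have h1 : (Fintype.card K : ℝ) * ∑ u : Fin d → K, ψ ((evp u).eval t) ^ j * (∑ s ∈ T, ψ ((evp u).eval s)) ^ r =
      (∑ y, ψ y ^ j) * ∑ u : Fin d → K, (∑ s ∈ T, ψ ((evp u).eval s)) ^ r := by
    simp only [hexp, mul_sum]
    rw [sum_comm]
    conv_rhs => rw [sum_comm]
    apply sum_congr rfl
    intro σ hσ
    have := key σ hσ
    simp only [mul_sum] at this
    exact this
  rw [div_mul_div_comm, ← h1]
  field_simp

/-- the number of the polynomials of degree less than `n`, or with a square factor -/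
theorem bad_count (n : ℕ) [DecidablePred (fun u : Fin (n + 1) → K => ¬ (u (Fin.last n) ≠ 0 ∧ Squarefree (evp u)))] :
    (((univ : Finset (Fin (n + 1) → K)).filter (fun u => ¬ (u (Fin.last n) ≠ 0 ∧ Squarefree (evp u)))).card : ℝ) ≤
      ((n : ℝ) + 1) * (Fintype.card K : ℝ) ^ n := by
  classical
  have hq1 : 1 ≤ Fintype.card K := Fintype.card_pos
  obtain ⟨φ, hφ⟩ : ∃ φ : (j : ℕ) → (Fin j → K) × (Fin (n + 1 - 2 * j) → K) → (Fin (n + 1) → K),
      φ = fun j z i => (((X : K[X]) ^ j + evp z.1) ^ 2 * evp z.2).coeff i := ⟨_, rfl⟩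
  have hsub : (univ : Finset (Fin (n + 1) → K)).filter (fun u => ¬ (u (Fin.last n) ≠ 0 ∧ Squarefree (evp u))) ⊆
      (univ.image (fun v : Fin n → K => (Fin.snoc v 0 : Fin (n + 1) → K))) ∪
      (Icc 1 (n / 2)).biUnion (fun j => (univ : Finset ((Fin j → K) × (Fin (n + 1 - 2 * j) → K))).image (φ j)) := by
    intro u hu
    rw [mem_filter] at hu
    rw [mem_union]
    by_cases hlast : u (Fin.last n) = 0
    · left
      rw [mem_image]
      refine ⟨fun i => u i.castSucc, mem_univ _, ?_⟩
      funext i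
      refine Fin.lastCases ?_ (fun i => ?_) i
      · simp [hlast]
      · simp
    right
    have hns : ¬ Squarefree (evp u) := fun h => hu.2 ⟨hlast, h⟩
    obtain ⟨P, hP⟩ : ∃ P, P = evp u := ⟨_, rfl⟩
    rw [← hP] at hns
    have hcoef : P.coeff n ≠ 0 := by
      rw [hP]
      have := coeff_evp u (Fin.last n)
      rw [Fin.val_last] at this
      rw [this]
      exact hlast
    have hP0 : P ≠ 0 := by
      rintro rfl
      simp at hcoef
    have hdP : P.natDegree = n := by
      apply le_antisymm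
      · rw [hP]
        unfold evp
        apply natDegree_sum_le_of_forall_le
        intro j _
        refine (natDegree_C_mul_X_pow_le _ _).trans ?_
        have := j.2
        omega
      · exact le_natDegree_of_ne_zero hcoef
    rw [squarefree_iff_no_irreducibles hP0] at hns
    push Not at hns
    obtain ⟨x, hx, hxP⟩ := hns
    have hx0 : x ≠ 0 := hx.ne_zero
    obtain ⟨x', hx'⟩ : ∃ x', x' = x * C (x.leadingCoeff⁻¹) := ⟨_, rfl⟩
    have hmon : x'.Monic := by rw [hx']; exact monic_mul_leadingCoeff_inv hx0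
    have hlc : x.leadingCoeff⁻¹ ≠ 0 := inv_ne_zero (leadingCoeff_ne_zero.2 hx0)
    have hdx' : x'.natDegree = x.natDegree := by
      rw [hx']
      exact natDegree_mul_C hlc
    have hdx : 1 ≤ x.natDegree := by
      have := hx.natDegree_pos
      omega
    have hdvd : x' ^ 2 ∣ P := by
      obtain ⟨Q, hQ⟩ := hxP
      refine ⟨C (x.leadingCoeff ^ 2) * Q, ?_⟩
      rw [hQ, hx', mul_pow, ← C_pow]
      have : C (x.leadingCoeff⁻¹ ^ 2) * C (x.leadingCoeff ^ 2) = (1 : K[X]) := by
        rw [← C_mul, ← mul_pow, inv_mul_cancel₀ (leadingCoeff_ne_zero.2 hx0), one_pow, C_1]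
      linear_combination (-(x ^ 2 * Q)) * this
    obtain ⟨Q, hQ⟩ := hdvd
    have hQ0 : Q ≠ 0 := by
      rintro rfl
      rw [mul_zero] at hQ
      exact hP0 hQ
    have hdeg : n = 2 * x.natDegree + Q.natDegree := by
      rw [← hdP, hQ, natDegree_mul (pow_ne_zero 2 hmon.ne_zero) hQ0, natDegree_pow, hdx']
    rw [mem_biUnion]
    refine ⟨x.natDegree, ?_, ?_⟩
    · rw [mem_Icc]
      omega
    rw [mem_image]
    refine ⟨(fun i => x'.coeff i, fun i => Q.coeff i), mem_univ _, ?_⟩
    rw [hφ]
    funext i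
    have e1 : evp (fun i : Fin (n + 1 - 2 * x.natDegree) => Q.coeff i) = Q := evp_coeff Q (by omega)
    have e2 : (X : K[X]) ^ x.natDegree + evp (fun i : Fin x.natDegree => x'.coeff i) = x' := by
      conv_rhs => rw [hmon.as_sum]
      rw [hdx']
      congr 1
      unfold evp
      rw [← Fin.sum_univ_eq_sum_range (fun i => C (x'.coeff i) * X ^ i)]
    show (((X : K[X]) ^ x.natDegree + evp (fun i : Fin x.natDegree => x'.coeff i)) ^ 2 *
      evp (fun i : Fin (n + 1 - 2 * x.natDegree) => Q.coeff i)).coeff i = u i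
    rw [e1, e2, ← hQ, hP, coeff_evp]
  have hcard := card_le_card hsub
  have h1 : ((univ.image (fun v : Fin n → K => (Fin.snoc v 0 : Fin (n + 1) → K))) ∪
      (Icc 1 (n / 2)).biUnion (fun j => (univ : Finset ((Fin j → K) × (Fin (n + 1 - 2 * j) → K))).image (φ j))).card ≤
      Fintype.card K ^ n + n * Fintype.card K ^ n := by
    refine (card_union_le _ _).trans (add_le_add ?_ ?_)
    · refine card_image_le.trans ?_
      rw [card_univ, Fintype.card_fun, Fintype.card_fin]
    · refine card_biUnion_le.trans ?_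
      refine (sum_le_card_nsmul _ _ (Fintype.card K ^ n) fun j hj => ?_).trans ?_
      · rw [mem_Icc] at hj
        refine card_image_le.trans ?_
        rw [card_univ, Fintype.card_prod, Fintype.card_fun, Fintype.card_fun, Fintype.card_fin, Fintype.card_fin,
          ← pow_add]
        apply Nat.pow_le_pow_right hq1
        omega
      · rw [Nat.card_Icc, smul_eq_mul]
        apply Nat.mul_le_mul_right
        omega
  have h2 := hcard.trans h1
  have h3 : ((((univ : Finset (Fin (n + 1) → K)).filter (fun u => ¬ (u (Fin.last n) ≠ 0 ∧ Squarefree (evp u)))).card : ℕ) : ℝ) ≤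
      ((Fintype.card K ^ n + n * Fintype.card K ^ n : ℕ) : ℝ) := by exact_mod_cast h2
  push_cast at h3
  linarith

/-- Weil's bound for squarefree polynomials -/
theorem weil_sf (hq : 3 ≤ Fintype.card K) (χ : MulChar K ℂ) (hχ : χ ≠ 1) (P : K[X]) (hP : Squarefree P)
    (hd : 1 ≤ P.natDegree) : ‖∑ x : K, χ (P.eval x)‖ ≤ P.natDegree * Real.sqrt (Fintype.card K) := by
  classical
  have hP0 : P ≠ 0 := by
    rintro rfl
    simp at hd
  have hlc : P.leadingCoeff ≠ 0 := leadingCoeff_ne_zero.2 hP0
  obtain ⟨P', hP'⟩ : ∃ P', P' = P * C (P.leadingCoeff⁻¹) := ⟨_, rfl⟩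
  have hmon : P'.Monic := by rw [hP']; exact monic_mul_leadingCoeff_inv hP0
  have hdeg : P'.natDegree = P.natDegree := by
    rw [hP']
    exact natDegree_mul_C (inv_ne_zero hlc)
  have hdvd : P' ∣ P := by
    refine ⟨C P.leadingCoeff, ?_⟩
    rw [hP', mul_assoc, ← C_mul, inv_mul_cancel₀ hlc, C_1, mul_one]
  have hsf : Squarefree P' := hP.squarefree_of_dvd hdvd
  obtain ⟨Q, hQ, hQP⟩ : ∃ Q : K[X], Irreducible Q ∧ Q ∣ P' := by
    apply WfDvdMonoid.exists_irreducible_factor
    · intro hu
      have := natDegree_eq_zero_of_isUnit hu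
      omega
    · exact hmon.ne_zero
  have hQ2 : ¬ Q ^ 2 ∣ P' := by
    intro h
    rw [sq] at h
    exact hQ.not_isUnit (hsf Q h)
  have hpow : χ ^ (Fintype.card K - 1) = 1 := by
    ext a
    rw [MulChar.pow_apply_coe, MulChar.one_apply_coe, ← map_pow]
    have : ((a : K) ^ (Fintype.card K - 1)) = 1 := by
      exact FiniteField.pow_card_sub_one_eq_one (a : K) a.ne_zero
    rw [this, map_one]
  have h1 := Pool.Agent.R318.PR.weil2 (Fintype.card K - 1) (by omega) dvd_rfl χ hχ hpow P' Q hmon hQ hQP hQ2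
  rw [hdeg] at h1
  have h2 : ∀ x : K, χ (P.eval x) = χ P.leadingCoeff * χ (P'.eval x) := by
    intro x
    rw [← map_mul]
    congr 1
    rw [hP', eval_mul, eval_C]
    field_simp
  simp only [h2]
  rw [← mul_sum, norm_mul]
  have h3 : ‖χ P.leadingCoeff‖ ≤ 1 := by
    apply le_of_eq
    refine Complex.norm_eq_one_of_pow_eq_one (n := Fintype.card K - 1) ?_ (by omega)
    rw [← map_pow, FiniteField.pow_card_sub_one_eq_one _ hlc, map_one]
  calc _ ≤ 1 * ‖∑ x : K, χ (P'.eval x)‖ := mul_le_mul_of_nonneg_right h3 (norm_nonneg _)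
    _ ≤ _ := by rw [one_mul]; exact h1

end Pool.Agent.R318.ST
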