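import Pool.Agent.R318.PR.Gen

/-! # From second moments to all `x` at once -/

set_option autoImplicit false

namespace Pool.Agent.R318.ST

open Finset Filter Pool.Agent.R459.Eq Pool.Agent.H730R2.AA Pool.Agent.H730R2.AA.Grid Pool.Agent.R318.PR

/-- the second moments of the sums over the primes, at all scales with `x ^ W ≤ b ^ k` -/
def SM (b k W M : ℕ) (C : ℝ) {ι : Type} (Ω : Finset ι) (w : ι → ℝ) (f : ℕ → ι → ℝ) (m : ℕ → ℝ) : Prop :=
  (∀ i ∈ Ω, 0 ≤ w i) ∧ ∀ x : ℕ, b ≤ x → x ^ W ≤ b ^ k →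
    ∑ i ∈ Ω, w i * (∑ p ∈ GP M x, (f p i - m p)) ^ 2 ≤ C * ((GP M x).card + √x)

/-- one `x` -/
theorem absOne (b W M : ℕ) (C : ℝ) (hC : 0 < C) (m : ℕ → ℝ) (δ : ℝ)
    (hδ : ∀ ε : ℝ, 0 < ε → ∃ X : ℕ, ∀ x : ℕ, X ≤ x →
      |∑ p ∈ GP M x, m p - δ * Nat.primeCounting x| ≤ ε * Nat.primeCounting x) (ε : ℝ) (hε : 0 < ε) :
    ∃ (C' : ℝ) (X₀ : ℕ), 0 < C' ∧ 4 ≤ X₀ ∧ ∀ (k x : ℕ), X₀ ≤ x → x ^ W ≤ b ^ k →
    ∀ (ι : Type) (Ω : Finset ι) (w : ι → ℝ) (f : ℕ → ι → ℝ), SM b k W M C Ω w f m → ∀ E : Finset ι, E ⊆ Ω →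
      (∀ i ∈ E, ε * (Nat.primeCounting x : ℝ) < |∑ p ∈ GP M x, f p i - δ * Nat.primeCounting x|) →
      ∑ i ∈ E, w i ≤ C' * (Real.log x / x) := by
  classical
  obtain ⟨X, hX⟩ := hδ (ε / 2) (by positivity)
  refine ⟨16 * (9 * C) / ε ^ 2, X + b + 4, by positivity, by omega,
    fun k x hx hxW ι Ω w f hsm E hE hbig => ?_⟩
  have hx4 : 4 ≤ x := by omega
  have hxb : b ≤ x := by omega
  obtain ⟨hpi, hsq, hinv⟩ := pi_lower' x hx4
  have h2 := hsm.2 x hxb hxW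
  have hS : ∀ i ∈ E, (ε / 2 * (Nat.primeCounting x : ℝ)) ^ 2 ≤
      (∑ p ∈ GP M x, (f p i - m p)) ^ 2 := by
    intro i hi
    rw [← sq_abs (∑ p ∈ GP M x, (f p i - m p))]
    apply pow_le_pow_left₀ (by positivity)
    have h3 := hbig i hi
    have h5 := hX x (by omega)
    rw [sum_sub_distrib]
    have h7 := abs_sub_le (∑ p ∈ GP M x, f p i) (∑ p ∈ GP M x, m p)
      (δ * Nat.primeCounting x)
    linarith
  have hcheb : (∑ i ∈ E, w i) * (ε / 2 * (Nat.primeCounting x : ℝ)) ^ 2 ≤ C * ((GP M x).card + √x) := by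
    refine le_trans ?_ h2
    rw [sum_mul]
    refine (sum_le_sum fun i hi => mul_le_mul_of_nonneg_left (hS i hi) (hsm.1 i (hE hi))).trans ?_
    apply sum_le_sum_of_subset_of_nonneg hE
    intro i hi _
    exact mul_nonneg (hsm.1 i hi) (sq_nonneg _)
  have hcard := GP_card_le M x
  have h3 : (∑ i ∈ E, w i) * (ε / 2 * (Nat.primeCounting x : ℝ)) ^ 2 ≤ (9 * C) * Nat.primeCounting x := by
    refine hcheb.trans ?_
    have : C * ((GP M x).card + √x) ≤ C * (Nat.primeCounting x + 8 * Nat.primeCounting x) :=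
      mul_le_mul_of_nonneg_left (add_le_add hcard hsq) hC.le
    linarith
  have h4 : (∑ i ∈ E, w i) ≤ 4 * (9 * C) / ε ^ 2 * (1 / (Nat.primeCounting x : ℝ)) := by
    have e1 : 4 * (9 * C) / ε ^ 2 * (1 / (Nat.primeCounting x : ℝ)) =
        ((9 * C) * Nat.primeCounting x) / (ε / 2 * (Nat.primeCounting x : ℝ)) ^ 2 := by
      field_simp
      ring
    rw [e1, le_div_iff₀ (by positivity)]
    exact h3
  refine h4.trans ?_
  calc 4 * (9 * C) / ε ^ 2 * (1 / (Nat.primeCounting x : ℝ)) ≤ 4 * (9 * C) / ε ^ 2 * (4 * Real.log x / x) :=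
        mul_le_mul_of_nonneg_left hinv (by positivity)
    _ = _ := by ring

/-- a monotone function at all `x` is controlled by its values at the points of the grid -/
lemma coreR (N : ℕ → ℝ) (hN : Monotone N) (δ : ℝ) {ε ε₁ ρ : ℝ} (hε₁ : 0 < ε₁) (hε₁1 : ε₁ ≤ 1)
    (hε : (|δ| + 3) * ε₁ ≤ ε) (hρ : 1 < ρ) (hρ2 : ρ ≤ 2) {X J0 : ℕ}
    (hpi : ∀ x y : ℕ, X ≤ x → x ≤ y → (y : ℝ) ≤ ρ ^ 2 * x →
      (Nat.primeCounting y : ℝ) ≤ (1 + ε₁) * Nat.primeCounting x)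
    (hJ0 : X ≤ g ρ J0) (hJ1 : 1 ≤ (ρ ^ 2 - ρ) * g ρ J0) (x : ℕ) (hxX : g ρ J0 ≤ x)
    (hx : ε * (Nat.primeCounting x : ℝ) < |N x - δ * (Nat.primeCounting x : ℝ)|) :
    ∃ j : ℕ, J0 ≤ j ∧ g ρ j ≤ 4 * x ∧
      ε₁ * (Nat.primeCounting (g ρ j) : ℝ) < |N (g ρ j) - δ * Nat.primeCounting (g ρ j)| := by
  classical
  have hρ0 : 0 < ρ := by linarith
  have hg1 := g_one_le hρ J0
  have hx1 : (1 : ℝ) ≤ x := hg1.trans (by exact_mod_cast hxX)
  obtain ⟨j, hj1, hj2⟩ := exists_nat_pow_near hx1 hρ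
  have hJj : J0 ≤ j := by
    have h1 : ρ ^ J0 < ρ ^ (j + 1) := (g_ge J0).trans_lt (lt_of_le_of_lt (by exact_mod_cast hxX) hj2)
    have := (pow_lt_pow_iff_right₀ hρ).1 h1
    omega
  have hgx : g ρ j ≤ x := Nat.ceil_le.2 hj1
  have hxg : x ≤ g ρ (j + 1) := by
    have : (x : ℝ) ≤ g ρ (j + 1) := hj2.le.trans (g_ge _)
    exact_mod_cast this
  have hgg : g ρ J0 ≤ g ρ j := g_mono hρ hJj
  have hρρ : 0 < ρ ^ 2 - ρ := by nlinarith
  have hstep : (g ρ (j + 1) : ℝ) ≤ ρ ^ 2 * g ρ j := by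
    refine g_step (hJ1.trans ?_) hρ
    have : (g ρ J0 : ℝ) ≤ g ρ j := by exact_mod_cast hgg
    gcongr
  have hgx' : (g ρ j : ℝ) ≤ x := by exact_mod_cast hgx
  have hgY1 : (g ρ (j + 1) : ℝ) ≤ 4 * x := by
    refine hstep.trans ?_
    have h4 : ρ ^ 2 ≤ 4 := by nlinarith
    exact mul_le_mul h4 hgx' (Nat.cast_nonneg _) (by norm_num)
  by_contra hcon
  push Not at hcon
  have ha0 := hcon j hJj (by omega)
  have ha1 := hcon (j + 1) (by omega) (by exact_mod_cast hgY1)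
  have hpij : (Nat.primeCounting (g ρ (j + 1)) : ℝ) ≤ (1 + ε₁) * Nat.primeCounting (g ρ j) :=
    hpi _ _ (hJ0.trans hgg) (hgx.trans hxg) hstep
  have hfin := interp (δ := δ) (e := ε₁) (P0 := (Nat.primeCounting (g ρ j) : ℝ))
    (P := (Nat.primeCounting x : ℝ)) (P1 := (Nat.primeCounting (g ρ (j + 1)) : ℝ))
    (A0 := N (g ρ j)) (A := N x)
    (A1 := N (g ρ (j + 1))) hε₁ hε₁1 (Nat.cast_nonneg _)
    (by exact_mod_cast Nat.monotone_primeCounting hgx)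
    (by exact_mod_cast Nat.monotone_primeCounting hxg) hpij
    (hN hgx) (hN hxg) ha0 ha1
  have hlast : (|δ| + 3) * ε₁ * (Nat.primeCounting x : ℝ) ≤ ε * (Nat.primeCounting x : ℝ) := by
    gcongr
  linarith

/-- all `x` -/
theorem absAll (b W M : ℕ) (C : ℝ) (hC : 0 < C) (hW : 1 ≤ W) (m : ℕ → ℝ) (δ : ℝ)
    (hδ : ∀ ε : ℝ, 0 < ε → ∃ X : ℕ, ∀ x : ℕ, X ≤ x →
      |∑ p ∈ GP M x, m p - δ * Nat.primeCounting x| ≤ ε * Nat.primeCounting x) (ε : ℝ) (hε : 0 < ε) :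
    ∃ (C' : ℝ) (X₀ : ℕ), 0 < C' ∧ 2 ≤ X₀ ∧ ∀ (k X : ℕ), X₀ ≤ X →
    ∀ (ι : Type) (Ω : Finset ι) (w : ι → ℝ) (f : ℕ → ι → ℝ), SM b k W M C Ω w f m →
      (∀ p i, 0 ≤ f p i) → ∀ E : Finset ι, E ⊆ Ω →
      (∀ i ∈ E, ∃ x : ℕ, X ≤ x ∧ x ^ (2 * W) ≤ b ^ k ∧ ε * (Nat.primeCounting x : ℝ) <
        |∑ p ∈ GP M x, f p i - δ * (Nat.primeCounting x : ℝ)|) →
      ∑ i ∈ E, w i ≤ C' * (Real.log X / X) := by
  classical
  have hd := abs_nonneg δ
  obtain ⟨ε₁, hε₁def⟩ : ∃ ε₁ : ℝ, ε₁ = min 1 (ε / (|δ| + 3)) := ⟨_, rfl⟩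
  have hε₁ : 0 < ε₁ := by rw [hε₁def]; exact lt_min one_pos (by positivity)
  have hε₁1 : ε₁ ≤ 1 := by rw [hε₁def]; exact min_le_left _ _
  have hεε : (|δ| + 3) * ε₁ ≤ ε := by
    have : ε₁ ≤ ε / (|δ| + 3) := by rw [hε₁def]; exact min_le_right _ _
    rw [le_div_iff₀ (by positivity)] at this
    linarith
  obtain ⟨C₁, X1, hC₁, hX1, h1⟩ := absOne b W M C hC m δ hδ ε₁ hε₁
  obtain ⟨ρ, hρ, hρ2, X2, hX2, hpi⟩ := pi_ratio ε₁ hε₁
  have hρ0 : 0 < ρ := by linarith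
  have hρρ : 0 < ρ ^ 2 - ρ := by nlinarith
  have hlρ : 0 < Real.log ρ := Real.log_pos hρ
  obtain ⟨X, hX⟩ : ∃ X, X = max X1 X2 := ⟨_, rfl⟩
  have hXX1 : X1 ≤ X := by rw [hX]; exact le_max_left _ _
  have hXX2 : X2 ≤ X := by rw [hX]; exact le_max_right _ _
  obtain ⟨S, hS, hgrid⟩ := grid_sum ρ hρ hρ2
  obtain ⟨Q, hQ⟩ := exists_nat_ge (1 / (ρ ^ 2 - ρ))
  refine ⟨C₁ * (S * ((1 / Real.log ρ + 1) * 2)), 2 * (X + Q) + 4, by positivity, by omega, ?_⟩
  intro k Y hY ι Ω w f hsm hf0 E hE hbad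
  have hNmono : ∀ i, Monotone (fun x => ∑ p ∈ GP M x, f p i) := by
    intro i x y hxy
    apply sum_le_sum_of_subset_of_nonneg
    · intro p hp
      rw [mem_GP] at hp ⊢
      exact ⟨hp.1.trans hxy, hp.2⟩
    · intro p _ _
      exact hf0 p i
  have hY4 : 4 ≤ Y := by omega
  have hY1 : (1 : ℝ) ≤ Y := by exact_mod_cast (by omega : 1 ≤ Y)
  have hY0 : (0 : ℝ) < Y := by linarith
  obtain ⟨J0, hJ1, hJ2⟩ := exists_nat_pow_near hY1 hρ
  have hlogY : 1 ≤ Real.log Y := by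
    rw [Real.le_log_iff_exp_le hY0]
    have : (4 : ℝ) ≤ Y := by exact_mod_cast hY4
    linarith [Real.exp_one_lt_d9]
  have hhalf : (Y : ℝ) / 2 ≤ ρ ^ J0 := by
    rw [pow_succ] at hJ2
    have h2 : ρ ^ J0 * ρ ≤ ρ ^ J0 * 2 := mul_le_mul_of_nonneg_left hρ2 (by positivity)
    linarith
  have hYr : 2 * ((X : ℝ) + Q) + 4 ≤ Y := by exact_mod_cast hY
  have hXQ : (X : ℝ) + Q ≤ g ρ J0 := by
    have := g_ge (ρ := ρ) J0
    linarith
  have hgJ0X : X ≤ g ρ J0 := by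
    have h2 : (X : ℝ) ≤ g ρ J0 := by
      have : (0 : ℝ) ≤ Q := Nat.cast_nonneg _
      linarith
    exact_mod_cast h2
  have hgJ01 : 1 ≤ (ρ ^ 2 - ρ) * g ρ J0 := by
    have h2 : 1 / (ρ ^ 2 - ρ) ≤ g ρ J0 := by
      have : (0 : ℝ) ≤ X := Nat.cast_nonneg _
      linarith
    rw [div_le_iff₀ hρρ] at h2
    linarith
  have hgY : g ρ J0 ≤ Y := Nat.ceil_le.2 hJ1
  obtain ⟨L, hL⟩ := pow_unbounded_of_one_lt ((b : ℝ) ^ k) hρ
  obtain ⟨I, hI⟩ : ∃ I : Finset ℕ, I = (range L).filter (fun j => J0 ≤ j ∧ (g ρ j) ^ W ≤ b ^ k) := ⟨_, rfl⟩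
  obtain ⟨EE, hEE⟩ : ∃ EE : ℕ → Finset ι, EE = fun j => E.filter (fun i =>
    ε₁ * (Nat.primeCounting (g ρ j) : ℝ) <
      |∑ p ∈ GP M (g ρ j), f p i - δ * Nat.primeCounting (g ρ j)|) := ⟨_, rfl⟩
  have hcover : E ⊆ I.biUnion EE := by
    intro i hi
    obtain ⟨x, hx1, hx2, hx3⟩ := hbad i hi
    obtain ⟨j, hj1, hj2, hj3⟩ := coreR (fun x => ∑ p ∈ GP M x, f p i) (hNmono _) δ hε₁ hε₁1 hεε hρ hρ2
      (fun x y hx => hpi x y (hXX2.trans hx)) hgJ0X hgJ01 x (hgY.trans hx1) hx3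
    rw [mem_biUnion]
    have hgW : (g ρ j) ^ W ≤ b ^ k := by
      calc (g ρ j) ^ W ≤ (x * x) ^ W := by
            apply Nat.pow_le_pow_left
            exact hj2.trans (Nat.mul_le_mul_right _ (by omega))
        _ = x ^ (2 * W) := by rw [← sq, ← pow_mul]
        _ ≤ b ^ k := hx2
    refine ⟨j, ?_, ?_⟩
    · rw [hI, mem_filter, mem_range]
      refine ⟨?_, hj1, hgW⟩
      by_contra hcon
      push Not at hcon
      have h2 : ρ ^ L ≤ ρ ^ j := pow_le_pow_right₀ hρ.le hcon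
      have h3 := g_ge (ρ := ρ) j
      have h4 : g ρ j ≤ (g ρ j) ^ W := Nat.le_self_pow (by omega) _
      have h5 : (g ρ j : ℝ) ≤ (b : ℝ) ^ k := by exact_mod_cast h4.trans hgW
      linarith
    · rw [hEE, mem_filter]
      exact ⟨hi, hj3⟩
  have hw0 : ∀ i ∈ E, 0 ≤ w i := fun i hi => hsm.1 i (hE hi)
  have h2 : ∑ i ∈ E, w i ≤ ∑ j ∈ I, ∑ i ∈ EE j, w i := by
    calc ∑ i ∈ E, w i ≤ ∑ i ∈ I.biUnion EE, w i := by
          apply sum_le_sum_of_subset_of_nonneg hcover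
          intro i hi _
          rw [mem_biUnion] at hi
          obtain ⟨j, _, hj⟩ := hi
          rw [hEE, mem_filter] at hj
          exact hw0 i hj.1
      _ ≤ _ := by
          have h3 : ∀ (s : Finset ℕ), ∑ i ∈ s.biUnion EE, w i ≤ ∑ j ∈ s, ∑ i ∈ EE j, w i := by
            intro s
            induction s using Finset.induction_on with
            | empty => simp
            | insert a s ha ih =>
              rw [biUnion_insert, sum_insert ha]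
              have h4 := sum_union_inter (s₁ := EE a) (s₂ := s.biUnion EE) (f := w)
              have h5 : 0 ≤ ∑ i ∈ EE a ∩ s.biUnion EE, w i := by
                apply sum_nonneg
                intro i hi
                rw [mem_inter] at hi
                have := hi.1
                rw [hEE, mem_filter] at this
                exact hw0 i this.1
              linarith
          exact h3 I
  have h3 : ∀ j ∈ I, ∑ i ∈ EE j, w i ≤ C₁ * (Real.log (g ρ j) / (g ρ j)) := by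
    intro j hj
    rw [hI, mem_filter] at hj
    have hgX : X ≤ g ρ j := hgJ0X.trans (g_mono hρ hj.2.1)
    have hgj : X1 ≤ g ρ j := hXX1.trans hgX
    apply h1 k (g ρ j) hgj hj.2.2 ι Ω w f hsm (EE j)
    · rw [hEE]
      exact (filter_subset _ _).trans hE
    · intro i hi
      rw [hEE, mem_filter] at hi
      exact hi.2
  refine h2.trans ((sum_le_sum h3).trans ?_)
  rw [← mul_sum, mul_assoc]
  apply mul_le_mul_of_nonneg_left _ hC₁.le
  refine (hgrid J0 I (fun j hj => by rw [hI, mem_filter] at hj; exact hj.2.1)).trans ?_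
  rw [mul_assoc]
  apply mul_le_mul_of_nonneg_left _ hS.le
  have h4 : (1 / ρ) ^ J0 ≤ 2 / Y := by
    rw [div_pow, one_pow, div_le_div_iff₀ (by positivity) hY0]
    linarith
  have h5 : (1 : ℝ) + J0 ≤ (1 / Real.log ρ + 1) * Real.log Y := by
    have h6 : (J0 : ℝ) * Real.log ρ ≤ Real.log Y := by
      rw [← Real.log_pow]
      exact Real.log_le_log (by positivity) hJ1
    have h7 : (J0 : ℝ) ≤ Real.log Y / Real.log ρ := by
      rw [le_div_iff₀ hlρ]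
      exact h6
    have h8 : (1 / Real.log ρ + 1) * Real.log Y = Real.log Y / Real.log ρ + Real.log Y := by ring
    rw [h8]
    linarith
  calc (1 + (J0 : ℝ)) * (1 / ρ) ^ J0 ≤ ((1 / Real.log ρ + 1) * Real.log Y) * (2 / Y) :=
        mul_le_mul h5 h4 (by positivity) (by positivity)
    _ = _ := by ring

/-- sums of bounded terms: the form used below. `Y p i` has absolute value at most `B`, and its mean over the family is
close to `μ p`, whose average over the primes is `c`. -/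
theorem absSum (b W M : ℕ) (C : ℝ) (hC : 0 < C) (hW : 1 ≤ W) (hM : M ≠ 0) (B : ℝ) (hB : 0 < B) (μ : ℕ → ℝ) (c : ℝ)
    (hc : ∀ ε : ℝ, 0 < ε → ∃ X : ℕ, ∀ x : ℕ, X ≤ x →
      |∑ p ∈ GP M x, μ p - c * Nat.primeCounting x| ≤ ε * Nat.primeCounting x) (ε : ℝ) (hε : 0 < ε) :
    ∃ (C' : ℝ) (X₀ : ℕ), 0 < C' ∧ 2 ≤ X₀ ∧ ∀ (k X : ℕ), X₀ ≤ X →
    ∀ (ι : Type) (Ω : Finset ι) (w : ι → ℝ) (Y : ℕ → ι → ℝ), (∀ p i, |Y p i| ≤ B) →
      SM b k W M C Ω w (fun p i => (Y p i / B + 1) / 2) (fun p => (μ p / B + 1) / 2) →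
      ∀ E : Finset ι, E ⊆ Ω →
      (∀ i ∈ E, ∃ x : ℕ, X ≤ x ∧ x ^ (2 * W) ≤ b ^ k ∧ ε * (Nat.primeCounting x : ℝ) <
        |∑ p ∈ (range (x + 1)).filter Nat.Prime, Y p i - c * (Nat.primeCounting x : ℝ)|) →
      ∑ i ∈ E, w i ≤ C' * (Real.log X / X) := by
  classical
  obtain ⟨X3, hX3⟩ := small_ev (3 * B * (M.primeFactors.card : ℝ)) (ε / 2) (by positivity)
  have hcard : ∀ x : ℕ, X3 ≤ x → B * ((Nat.primeCounting x : ℝ) - (GP M x).card) ≤ ε / 6 * Nat.primeCounting x ∧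
      3 * B * (M.primeFactors.card : ℝ) ≤ ε / 2 * Nat.primeCounting x := by
    intro x hx
    have h1 := hX3.2 x hx
    have h2 := GP_card_ge M hM x
    have hl : 0 ≤ Real.log x := Real.log_nonneg (by exact_mod_cast (by omega : 1 ≤ x))
    refine ⟨?_, by linarith⟩
    have h3 : B * ((Nat.primeCounting x : ℝ) - (GP M x).card) ≤ B * M.primeFactors.card :=
      mul_le_mul_of_nonneg_left (by linarith) hB.le
    linarith
  have hδ : ∀ ε' : ℝ, 0 < ε' → ∃ X : ℕ, ∀ x : ℕ, X ≤ x →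
      |∑ p ∈ GP M x, (μ p / B + 1) / 2 - (c / B + 1) / 2 * Nat.primeCounting x| ≤ ε' * Nat.primeCounting x := by
    intro ε' hε'
    obtain ⟨X1, hX1⟩ := hc (ε' * B) (by positivity)
    obtain ⟨X4, hX4⟩ := small_ev (M.primeFactors.card : ℝ) ε' (by positivity)
    refine ⟨max X1 X4, fun x hx => ?_⟩
    have h1 := hX1 x ((le_max_left _ _).trans hx)
    have h2 := hX4.2 x ((le_max_right _ _).trans hx)
    have hl : 0 ≤ Real.log x := Real.log_nonneg (by exact_mod_cast (by omega : 1 ≤ x))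
    have h3 := GP_card_ge M hM x
    have h4 := GP_card_le M x
    have h5 : ∑ p ∈ GP M x, (μ p / B + 1) / 2 - (c / B + 1) / 2 * Nat.primeCounting x =
        (∑ p ∈ GP M x, μ p - c * Nat.primeCounting x) / (2 * B) + ((GP M x).card - (Nat.primeCounting x : ℝ)) / 2 := by
      rw [← sum_div, sum_add_distrib, ← sum_div, sum_const, nsmul_eq_mul, mul_one]
      field_simp
      ring
    rw [h5]
    refine (abs_add_le _ _).trans ?_
    rw [abs_div, abs_div, abs_of_pos (by positivity : 0 < 2 * B), abs_of_pos (by norm_num : (0:ℝ) < 2)]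
    have h6 : |∑ p ∈ GP M x, μ p - c * Nat.primeCounting x| / (2 * B) ≤ ε' * Nat.primeCounting x / 2 := by
      rw [div_le_div_iff₀ (by positivity) (by norm_num)]
      calc |∑ p ∈ GP M x, μ p - c * Nat.primeCounting x| * 2 ≤ (ε' * B * Nat.primeCounting x) * 2 :=
            mul_le_mul_of_nonneg_right h1 (by norm_num)
        _ = _ := by ring
    have h7 : |((GP M x).card : ℝ) - (Nat.primeCounting x : ℝ)| / 2 ≤ ε' * Nat.primeCounting x / 2 := by
      apply div_le_div_of_nonneg_right _ (by norm_num)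
      rw [abs_sub_comm, abs_of_nonneg (by linarith)]
      linarith
    linarith
  obtain ⟨C', X₀, hC', hX₀, H⟩ := absAll b W M C hC hW (fun p => (μ p / B + 1) / 2) ((c / B + 1) / 2) hδ (ε / (8 * B))
    (by positivity)
  refine ⟨C', max X₀ X3, hC', hX₀.trans (le_max_left _ _), fun k X hX ι Ω w Y hY hsm E hE hbad => ?_⟩
  refine H k X ((le_max_left _ _).trans hX) ι Ω w _ hsm (fun p i => ?_) E hE fun i hi => ?_
  · have h1 := (abs_le.1 (hY p i)).1
    have h2 : -1 ≤ Y p i / B := by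
      rw [le_div_iff₀ hB]
      linarith
    linarith
  obtain ⟨x, hx1, hx2, hx3⟩ := hbad i hi
  refine ⟨x, hx1, hx2, ?_⟩
  obtain ⟨h1, h2⟩ := hcard x ((le_max_right _ _).trans (hX.trans hx1))
  have hsplit : |∑ p ∈ (range (x + 1)).filter Nat.Prime, Y p i - ∑ p ∈ GP M x, Y p i| ≤ B * (M.primeFactors.card : ℝ) := by
    have e1 : ∑ p ∈ (range (x + 1)).filter Nat.Prime, Y p i =
        ∑ p ∈ GP M x, Y p i + ∑ p ∈ ((range (x + 1)).filter Nat.Prime).filter (fun p => p ∣ M), Y p i := by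
      rw [← sum_filter_add_sum_filter_not ((range (x + 1)).filter Nat.Prime) (fun p => p ∣ M), add_comm (∑ p ∈ GP M x, Y p i)]
      congr 1
      unfold GP
      rw [filter_filter]
    rw [e1, add_sub_cancel_left]
    refine (abs_sum_le_sum_abs _ _).trans ?_
    refine (sum_le_card_nsmul _ _ B fun p _ => hY p i).trans ?_
    rw [nsmul_eq_mul, mul_comm]
    apply mul_le_mul_of_nonneg_left _ hB.le
    have : (((range (x + 1)).filter Nat.Prime).filter (fun p => p ∣ M)).card ≤ M.primeFactors.card := by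
      apply card_le_card
      intro p hp
      rw [mem_filter, mem_filter] at hp
      exact Nat.mem_primeFactors.2 ⟨hp.1.2, hp.2, hM⟩
    exact_mod_cast this
  have h5 : ∑ p ∈ GP M x, (Y p i / B + 1) / 2 - (c / B + 1) / 2 * Nat.primeCounting x =
      ((∑ p ∈ GP M x, Y p i - c * Nat.primeCounting x) - B * ((Nat.primeCounting x : ℝ) - (GP M x).card)) / (2 * B) := by
    rw [← sum_div, sum_add_distrib, ← sum_div, sum_const, nsmul_eq_mul, mul_one]
    field_simp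
    ring
  rw [h5, abs_div, abs_of_pos (by positivity : 0 < 2 * B), lt_div_iff₀ (by positivity)]
  have h6 : ε / (8 * B) * (Nat.primeCounting x : ℝ) * (2 * B) = ε / 4 * Nat.primeCounting x := by
    field_simp
    ring
  rw [h6]
  have hg : 0 ≤ (Nat.primeCounting x : ℝ) - (GP M x).card := by linarith [GP_card_le M x]
  obtain ⟨t, ht⟩ : ∃ t, t = ∑ p ∈ (range (x + 1)).filter Nat.Prime, Y p i := ⟨_, rfl⟩
  obtain ⟨s, hs⟩ : ∃ s, s = ∑ p ∈ GP M x, Y p i := ⟨_, rfl⟩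
  obtain ⟨u, hu⟩ : ∃ u, u = B * ((Nat.primeCounting x : ℝ) - (GP M x).card) := ⟨_, rfl⟩
  rw [← ht] at hx3 hsplit
  rw [← hs] at hsplit ⊢
  rw [← hu] at h1 ⊢
  have hu0 : 0 ≤ u := by rw [hu]; exact mul_nonneg hB.le hg
  have h8 : |t - c * (Nat.primeCounting x : ℝ)| ≤ |t - s| + |s - c * Nat.primeCounting x - u| + |u| := by
    have : t - c * (Nat.primeCounting x : ℝ) = (t - s) + (s - c * Nat.primeCounting x - u) + u := by ring
    rw [this]
    exact abs_add_three _ _ _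
  rw [abs_of_nonneg hu0] at h8
  have hpi : 0 < (Nat.primeCounting x : ℝ) := by
    apply (pi_lower' x _).1
    exact hX3.1.trans ((le_max_right _ _).trans (hX.trans hx1))
  have h9 : 0 < ε * (Nat.primeCounting x : ℝ) := mul_pos hε hpi
  linarith

end Pool.Agent.R318.ST
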