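import Mathlib

/-! # Moments of sums of random variables of which any `d` are independent -/

set_option autoImplicit false

namespace Pool.Agent.R318.ST

open Finset

/-- the moments of the standard normal law: `1, 0, 1, 0, 3, 0, 15, ...` -/
noncomputable def G : ℕ → ℝ
  | 0 => 1
  | 1 => 0
  | (m + 2) => (m + 1) * G m

/-- the average over a finite set -/
noncomputable def av {V : Type} [Fintype V] (Φ : V → ℝ) : ℝ := (∑ u, Φ u) / Fintype.card V

lemma av_sum {V α : Type} [Fintype V] (T : Finset α) (Φ : α → V → ℝ) :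
    av (fun u => ∑ t ∈ T, Φ t u) = ∑ t ∈ T, av (Φ t) := by
  unfold av
  rw [sum_comm, sum_div]

lemma av_mul {V : Type} [Fintype V] (c : ℝ) (Φ : V → ℝ) : av (fun u => c * Φ u) = c * av Φ := by
  unfold av
  rw [← mul_sum, mul_div_assoc]

lemma av_add {V : Type} [Fintype V] (Φ Ψ : V → ℝ) : av (fun u => Φ u + Ψ u) = av Φ + av Ψ := by
  unfold av
  rw [sum_add_distrib, add_div]

lemma av_sub {V : Type} [Fintype V] (Φ Ψ : V → ℝ) : av (fun u => Φ u - Ψ u) = av Φ - av Ψ := by
  unfold av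
  rw [sum_sub_distrib, sub_div]

lemma av_one {V : Type} [Fintype V] [Nonempty V] : av (fun _ : V => (1 : ℝ)) = 1 := by
  unfold av
  rw [sum_const, card_univ, nsmul_eq_mul, mul_one, div_self]
  exact_mod_cast Fintype.card_ne_zero

lemma av_mono {V : Type} [Fintype V] (Φ Ψ : V → ℝ) (h : ∀ u, Φ u ≤ Ψ u) : av Φ ≤ av Ψ := by
  unfold av
  exact div_le_div_of_nonneg_right (sum_le_sum fun u _ => h u) (Nat.cast_nonneg _)

lemma av_nonneg {V : Type} [Fintype V] (Φ : V → ℝ) (h : ∀ u, 0 ≤ Φ u) : 0 ≤ av Φ :=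
  div_nonneg (sum_nonneg fun u _ => h u) (Nat.cast_nonneg _)

/-- a variable is independent of the powers (of exponent less than `d`) of sums of other variables; `μ` are its moments -/
def KWise {V α : Type} [Fintype V] (X : α → V → ℝ) (d : ℕ) (μ : ℕ → ℝ) : Prop :=
  ∀ (T : Finset α) (t : α), t ∉ T → ∀ j r : ℕ, r + 1 ≤ d →
    av (fun u => X t u ^ j * (∑ s ∈ T, X s u) ^ r) = μ j * av (fun u => (∑ s ∈ T, X s u) ^ r)

lemma pow_step (s s' : ℝ) (h0 : 0 ≤ s') (h1 : s' ≤ s) (h2 : s - s' ≤ 1) (n : ℕ) :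
    0 ≤ s ^ n - s' ^ n ∧ s ^ n - s' ^ n ≤ n * s ^ (n - 1) := by
  have hs : 0 ≤ s := h0.trans h1
  refine ⟨sub_nonneg.2 (pow_le_pow_left₀ h0 h1 n), ?_⟩
  induction n with
  | zero => simp
  | succ n ih =>
    have h3 : s ^ (n + 1) - s' ^ (n + 1) = s * (s ^ n - s' ^ n) + (s - s') * s' ^ n := by ring
    have h4 : s' ^ n ≤ s ^ n := pow_le_pow_left₀ h0 h1 n
    have h5 : (s - s') * s' ^ n ≤ s ^ n := by
      calc (s - s') * s' ^ n ≤ 1 * s ^ n := mul_le_mul h2 h4 (pow_nonneg h0 _) zero_le_one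
        _ = s ^ n := one_mul _
    have h6 : s * (s ^ n - s' ^ n) ≤ n * s ^ n := by
      refine (mul_le_mul_of_nonneg_left ih hs).trans ?_
      rcases Nat.eq_zero_or_pos n with h | h
      · subst h; simp
      · have : s ^ n = s * s ^ (n - 1) := by rw [← pow_succ', Nat.sub_add_cancel h]
        rw [this]
        exact le_of_eq (by ring)
    rw [h3, Nat.add_sub_cancel]
    push_cast
    linarith

/-- the expansion of a moment -/
lemma expand {V α : Type} [Fintype V] [DecidableEq α] (X : α → V → ℝ) (d : ℕ) (μ : ℕ → ℝ) (h : KWise X d μ)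
    (m : ℕ) (hm : m + 2 ≤ d) (T : Finset α) (hμ : μ 1 = 0) :
    av (fun u => (∑ s ∈ T, X s u) ^ (m + 2)) = ∑ t ∈ T, (((m : ℝ) + 1) * μ 2 * av (fun u => (∑ s ∈ T.erase t, X s u) ^ m) +
      ∑ j ∈ range m, ((m + 1).choose (j + 2) : ℝ) * μ (j + 3) * av (fun u => (∑ s ∈ T.erase t, X s u) ^ (m - 1 - j))) := by
  have h1 : (fun u => (∑ s ∈ T, X s u) ^ (m + 2)) = fun u => ∑ t ∈ T, ∑ j ∈ range (m + 2),
      ((m + 1).choose j : ℝ) * (X t u ^ (j + 1) * (∑ s ∈ T.erase t, X s u) ^ (m + 1 - j)) := by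
    funext u
    rw [pow_succ', sum_mul]
    apply sum_congr rfl
    intro t ht
    rw [← add_sum_erase T (fun s => X s u) ht, add_pow, mul_sum]
    apply sum_congr rfl
    intro j _
    ring
  rw [h1, av_sum]
  apply sum_congr rfl
  intro t _
  rw [av_sum]
  have h2 : ∀ j ∈ range (m + 2), av (fun u => ((m + 1).choose j : ℝ) * (X t u ^ (j + 1) * (∑ s ∈ T.erase t, X s u) ^ (m + 1 - j))) =
      ((m + 1).choose j : ℝ) * (μ (j + 1) * av (fun u => (∑ s ∈ T.erase t, X s u) ^ (m + 1 - j))) := by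
    intro j _
    rw [av_mul, h (T.erase t) t (notMem_erase t T) (j + 1) (m + 1 - j) (by omega)]
  rw [sum_congr rfl h2, sum_range_succ', sum_range_succ']
  simp only [zero_add, hμ, zero_mul, mul_zero, add_zero]
  rw [add_comm]
  congr 1
  · have : (m + 1 - 1) = m := by omega
    rw [this, Nat.choose_one_right]
    push_cast
    ring
  · apply sum_congr rfl
    intro j hj
    rw [mem_range] at hj
    have e1 : m + 1 - (j + 1 + 1) = m - 1 - j := by omega
    rw [e1]
    ring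

/-- the moments are close to those of a normal law -/
theorem mom (L : ℝ) (hL : 1 ≤ L) : ∀ M : ℕ, ∃ C : ℝ, 0 ≤ C ∧ ∀ m : ℕ, m ≤ M → ∀ (V α : Type) [Fintype V] [Nonempty V]
    [DecidableEq α] (X : α → V → ℝ) (d : ℕ) (μ : ℕ → ℝ), KWise X d μ → m ≤ d → μ 1 = 0 → 0 ≤ μ 2 →
    (∀ j, |μ j| ≤ L ^ j) → ∀ T : Finset α,
    |av (fun u => (∑ s ∈ T, X s u) ^ m) - G m * √(μ 2) ^ m * √(T.card : ℝ) ^ m| ≤ C * m * √(T.card : ℝ) ^ (m - 1) := by
  intro M
  induction M with
  | zero =>
    refine ⟨0, le_rfl, fun m hm V α _ _ _ X d μ _ _ _ _ _ T => ?_⟩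
    have : m = 0 := by omega
    subst this
    simp only [pow_zero, av_one, G]
    norm_num
  | succ M ih =>
    rcases Nat.eq_zero_or_pos M with hM0 | hM0
    · subst hM0
      refine ⟨0, le_rfl, fun m hm V α _ _ _ X d μ h hd h1 _ _ T => ?_⟩
      rcases (by omega : m = 0 ∨ m = 1) with h0 | h0
      · subst h0
        simp only [pow_zero, av_one, G]
        norm_num
      · subst h0
        simp only [pow_one, G, zero_mul, sub_zero]
        rw [av_sum]
        have h2 : ∀ t ∈ T, av (X t) = 0 := by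
          intro t _
          have h3 := h ∅ t (notMem_empty t) 1 0 (by omega)
          simp only [pow_one, pow_zero, mul_one, h1, zero_mul] at h3
          exact h3
        rw [sum_eq_zero h2]
        norm_num
    obtain ⟨m', rfl⟩ : ∃ m', M = m' + 1 := ⟨M - 1, by omega⟩
    obtain ⟨C, hC, H⟩ := ih
    obtain ⟨Gm, hGm⟩ : ∃ Gm, Gm = ∑ r ∈ range (m' + 1), |G r| := ⟨_, rfl⟩
    have hGr : ∀ r, r ≤ m' → |G r| ≤ Gm := by
      intro r hr
      rw [hGm]
      exact single_le_sum (f := fun r => |G r|) (fun i _ => abs_nonneg _) (mem_range.2 (by omega))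
    have hGm0 : 0 ≤ Gm := by rw [hGm]; exact sum_nonneg fun _ _ => abs_nonneg _
    obtain ⟨K, hK⟩ : ∃ K, K = Gm * L ^ m' + C * m' := ⟨_, rfl⟩
    have hL0 : 0 ≤ L := by linarith
    have hLp : ∀ n : ℕ, 0 ≤ L ^ n := fun n => pow_nonneg hL0 n
    have hK0 : 0 ≤ K := by rw [hK]; positivity
    obtain ⟨D, hD⟩ : ∃ D, D = (2 : ℝ) ^ (m' + 1) * L ^ (m' + 2) * K := ⟨_, rfl⟩
    have hD0 : 0 ≤ D := by rw [hD]; positivity
    obtain ⟨C', hC'⟩ : ∃ C', C' = ((m' : ℝ) + 1) * L ^ 2 * ((Gm * L ^ m' + C) * m') + m' * D := ⟨_, rfl⟩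
    have hC'0 : 0 ≤ C' := by rw [hC']; positivity
    refine ⟨C + C', by positivity, fun m hm V α _ _ _ X d μ h hd h1 h2 hμ T => ?_⟩
    have hs0 : 0 ≤ √(T.card : ℝ) := Real.sqrt_nonneg _
    rcases (by omega : m ≤ m' + 1 ∨ m = m' + 2) with h0 | h0
    · refine (H m h0 V α X d μ h hd h1 h2 hμ T).trans ?_
      apply mul_le_mul_of_nonneg_right _ (pow_nonneg hs0 _)
      apply mul_le_mul_of_nonneg_right _ (Nat.cast_nonneg _)
      linarith
    subst h0
    rcases T.eq_empty_or_nonempty with hT | hT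
    · subst hT
      have : av (fun u => (∑ s ∈ (∅ : Finset α), X s u) ^ (m' + 2)) = 0 := by
        have : (fun u : V => (∑ s ∈ (∅ : Finset α), X s u) ^ (m' + 2)) = fun u => 0 * 1 := by
          funext u
          rw [sum_empty, zero_pow (by omega), zero_mul]
        rw [this, av_mul, zero_mul]
      rw [this]
      simp
    have hcard : (1 : ℝ) ≤ T.card := by exact_mod_cast hT.card_pos
    have hs1 : 1 ≤ √(T.card : ℝ) := by rw [Real.one_le_sqrt]; exact hcard
    have hs2 : √(T.card : ℝ) ^ 2 = T.card := Real.sq_sqrt (by linarith)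
    have hσ0 : 0 ≤ √(μ 2) := Real.sqrt_nonneg _
    have hσ2 : √(μ 2) ^ 2 = μ 2 := Real.sq_sqrt h2
    have hσL : √(μ 2) ≤ L := by
      rw [Real.sqrt_le_left hL0]
      exact (le_abs_self _).trans (hμ 2)
    have hμ2 : μ 2 ≤ L ^ 2 := (le_abs_self _).trans (hμ 2)
    obtain ⟨s, hs⟩ : ∃ s, s = √(T.card : ℝ) := ⟨_, rfl⟩
    obtain ⟨σ, hσ⟩ : ∃ σ, σ = √(μ 2) := ⟨_, rfl⟩
    rw [← hs] at hs0 hs1 hs2 ⊢
    rw [← hσ] at hσ0 hσ2 hσL ⊢
    have hsub : ∀ t ∈ T, 0 ≤ √((T.erase t).card : ℝ) ∧ √((T.erase t).card : ℝ) ≤ s ∧ s - √((T.erase t).card : ℝ) ≤ 1 := by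
      intro t ht
      have h3 : ((T.erase t).card : ℝ) = s ^ 2 - 1 := by
        rw [card_erase_of_mem ht, Nat.cast_sub hT.card_pos, hs2, Nat.cast_one]
      rw [h3]
      refine ⟨Real.sqrt_nonneg _, ?_, ?_⟩
      · rw [Real.sqrt_le_left hs0]
        linarith
      · rw [sub_le_comm]
        apply Real.le_sqrt_of_sq_le
        nlinarith
    rw [expand X d μ h m' hd T h1]
    have hG : G (m' + 2) * σ ^ (m' + 2) * s ^ (m' + 2) = ∑ t ∈ T, (((m' : ℝ) + 1) * μ 2 * (G m' * σ ^ m' * s ^ m')) := by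
      rw [sum_const, nsmul_eq_mul, ← hs2, ← hσ2]
      rw [show G (m' + 2) = ((m' : ℝ) + 1) * G m' from rfl]
      ring
    rw [hG, ← sum_sub_distrib]
    have hterm : ∀ t ∈ T, |((m' : ℝ) + 1) * μ 2 * av (fun u => (∑ s ∈ T.erase t, X s u) ^ m') +
        ∑ j ∈ range m', ((m' + 1).choose (j + 2) : ℝ) * μ (j + 3) * av (fun u => (∑ s ∈ T.erase t, X s u) ^ (m' - 1 - j)) -
        ((m' : ℝ) + 1) * μ 2 * (G m' * σ ^ m' * s ^ m')| ≤ C' * s ^ (m' - 1) := by
      intro t ht
      obtain ⟨hr0, hr1, hr2⟩ := hsub t ht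
      obtain ⟨r, hr⟩ : ∃ r, r = √((T.erase t).card : ℝ) := ⟨_, rfl⟩
      rw [← hr] at hr0 hr1 hr2
      have hA := H m' (by omega) V α X d μ h (by omega) h1 h2 hμ (T.erase t)
      rw [← hr, ← hσ] at hA
      have hps := pow_step s r hr0 hr1 hr2 m'
      have hmain : |((m' : ℝ) + 1) * μ 2 * av (fun u => (∑ s ∈ T.erase t, X s u) ^ m') -
          ((m' : ℝ) + 1) * μ 2 * (G m' * σ ^ m' * s ^ m')| ≤ ((m' : ℝ) + 1) * L ^ 2 * ((Gm * L ^ m' + C) * m') * s ^ (m' - 1) := by
        rw [← mul_sub, abs_mul, abs_of_nonneg (by positivity : 0 ≤ ((m' : ℝ) + 1) * μ 2), mul_assoc (((m' : ℝ) + 1) * L ^ 2)]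
        apply mul_le_mul
        · exact mul_le_mul_of_nonneg_left hμ2 (by positivity)
        · have e1 : av (fun u => (∑ s ∈ T.erase t, X s u) ^ m') - G m' * σ ^ m' * s ^ m' =
              (av (fun u => (∑ s ∈ T.erase t, X s u) ^ m') - G m' * σ ^ m' * r ^ m') - G m' * σ ^ m' * (s ^ m' - r ^ m') := by ring
          rw [e1]
          refine (abs_sub _ _).trans ?_
          have e2 : |G m' * σ ^ m' * (s ^ m' - r ^ m')| ≤ Gm * L ^ m' * (m' * s ^ (m' - 1)) := by
            rw [abs_mul, abs_mul, abs_of_nonneg (pow_nonneg hσ0 _), abs_of_nonneg hps.1]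
            apply mul_le_mul _ hps.2 hps.1 (by positivity)
            exact mul_le_mul (hGr m' le_rfl) (pow_le_pow_left₀ hσ0 hσL _) (pow_nonneg hσ0 _) hGm0
          have e3 : C * m' * r ^ (m' - 1) ≤ C * m' * s ^ (m' - 1) := by
            apply mul_le_mul_of_nonneg_left _ (by positivity)
            exact pow_le_pow_left₀ hr0 hr1 _
          have e4 : (Gm * L ^ m' + C) * m' * s ^ (m' - 1) = Gm * L ^ m' * (m' * s ^ (m' - 1)) + C * m' * s ^ (m' - 1) := by ring
          rw [e4]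
          linarith
        · exact abs_nonneg _
        · positivity
      have hrest : |∑ j ∈ range m', ((m' + 1).choose (j + 2) : ℝ) * μ (j + 3) *
          av (fun u => (∑ s ∈ T.erase t, X s u) ^ (m' - 1 - j))| ≤ m' * D * s ^ (m' - 1) := by
        refine (abs_sum_le_sum_abs _ _).trans ?_
        refine (sum_le_card_nsmul _ _ (D * s ^ (m' - 1)) fun j hj => ?_).trans (le_of_eq ?_)
        · rw [mem_range] at hj
          rw [abs_mul, abs_mul]
          have e1 : |((m' + 1).choose (j + 2) : ℝ)| ≤ 2 ^ (m' + 1) := by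
            rw [abs_of_nonneg (Nat.cast_nonneg _)]
            exact_mod_cast Nat.choose_le_two_pow _ _
          have e2 : |μ (j + 3)| ≤ L ^ (m' + 2) := (hμ _).trans (pow_le_pow_right₀ hL (by omega))
          have e3 : |av (fun u => (∑ s ∈ T.erase t, X s u) ^ (m' - 1 - j))| ≤ K * s ^ (m' - 1) := by
            have hB := H (m' - 1 - j) (by omega) V α X d μ h (by omega) h1 h2 hμ (T.erase t)
            rw [← hr, ← hσ] at hB
            have e4 : |G (m' - 1 - j) * σ ^ (m' - 1 - j) * r ^ (m' - 1 - j)| ≤ Gm * L ^ m' * s ^ (m' - 1) := by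
              rw [abs_mul, abs_mul, abs_of_nonneg (pow_nonneg hσ0 _), abs_of_nonneg (pow_nonneg hr0 _)]
              apply mul_le_mul
              · apply mul_le_mul (hGr _ (by omega)) _ (pow_nonneg hσ0 _) hGm0
                exact (pow_le_pow_left₀ hσ0 hσL _).trans (pow_le_pow_right₀ hL (by omega))
              · exact (pow_le_pow_left₀ hr0 hr1 _).trans (pow_le_pow_right₀ hs1 (by omega))
              · exact pow_nonneg hr0 _
              · positivity
            have e5 : C * ((m' - 1 - j : ℕ) : ℝ) * r ^ (m' - 1 - j - 1) ≤ C * m' * s ^ (m' - 1) := by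
              apply mul_le_mul
              · apply mul_le_mul_of_nonneg_left _ hC
                exact_mod_cast (by omega : m' - 1 - j ≤ m')
              · exact (pow_le_pow_left₀ hr0 hr1 _).trans (pow_le_pow_right₀ hs1 (by omega))
              · exact pow_nonneg hr0 _
              · positivity
            have e6 := abs_sub_abs_le_abs_sub (av (fun u => (∑ s ∈ T.erase t, X s u) ^ (m' - 1 - j)))
              (G (m' - 1 - j) * σ ^ (m' - 1 - j) * r ^ (m' - 1 - j))
            rw [hK, add_mul]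
            linarith
          calc |((m' + 1).choose (j + 2) : ℝ)| * |μ (j + 3)| * |av (fun u => (∑ s ∈ T.erase t, X s u) ^ (m' - 1 - j))| ≤
              2 ^ (m' + 1) * L ^ (m' + 2) * (K * s ^ (m' - 1)) := by
                apply mul_le_mul _ e3 (abs_nonneg _) (by positivity)
                exact mul_le_mul e1 e2 (abs_nonneg _) (by positivity)
            _ = D * s ^ (m' - 1) := by rw [hD]; ring
        · rw [card_range, nsmul_eq_mul]
          ring
      have e1 : ((m' : ℝ) + 1) * μ 2 * av (fun u => (∑ s ∈ T.erase t, X s u) ^ m') +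
        ∑ j ∈ range m', ((m' + 1).choose (j + 2) : ℝ) * μ (j + 3) * av (fun u => (∑ s ∈ T.erase t, X s u) ^ (m' - 1 - j)) -
        ((m' : ℝ) + 1) * μ 2 * (G m' * σ ^ m' * s ^ m') = (((m' : ℝ) + 1) * μ 2 * av (fun u => (∑ s ∈ T.erase t, X s u) ^ m') -
          ((m' : ℝ) + 1) * μ 2 * (G m' * σ ^ m' * s ^ m')) + ∑ j ∈ range m', ((m' + 1).choose (j + 2) : ℝ) * μ (j + 3) *
          av (fun u => (∑ s ∈ T.erase t, X s u) ^ (m' - 1 - j)) := by ring
      rw [e1]
      refine (abs_add_le _ _).trans ?_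
      have e2 : C' * s ^ (m' - 1) = ((m' : ℝ) + 1) * L ^ 2 * ((Gm * L ^ m' + C) * m') * s ^ (m' - 1) +
          m' * D * s ^ (m' - 1) := by rw [hC']; ring
      rw [e2]
      linarith
    refine (abs_sum_le_sum_abs _ _).trans ?_
    refine (sum_le_sum hterm).trans ?_
    rw [sum_const, nsmul_eq_mul, ← hs2]
    have hexp : m' + 2 - 1 = m' + 1 := by omega
    rw [hexp]
    have hfin : s ^ 2 * (C' * s ^ (m' - 1)) ≤ C' * s ^ (m' + 1) := by
      rcases Nat.eq_zero_or_pos m' with h0 | h0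
      · subst h0
        have : C' = 0 := by rw [hC']; push_cast; ring
        rw [this]
        simp
      · obtain ⟨n, rfl⟩ : ∃ n, m' = n + 1 := ⟨m' - 1, by omega⟩
        rw [Nat.add_sub_cancel]
        exact le_of_eq (by ring)
    refine hfin.trans ?_
    apply mul_le_mul_of_nonneg_right _ (pow_nonneg hs0 _)
    push_cast
    nlinarith

end Pool.Agent.R318.ST
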