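import Pool.Agent.R318.ST.Fld
import Pool.Agent.H730R2.AA.Expand

/-! # Points on the curves `y ^ ℓ = f(x)` modulo `p` -/

set_option autoImplicit false

namespace Pool.Agent.R318.ST

open Finset Polynomial
open Pool.Agent.H730R2.AA.Exp (fc fc_inv N_ne N_pos card_G)

variable {p : ℕ} [Fact p.Prime]

/-- the number of the solutions of `z ^ ℓ = y` -/
def rt (ℓ : ℕ) (y : ZMod p) : ℕ := (univ.filter (fun z : ZMod p => z ^ ℓ = y)).card

/-- the number of the solutions of `z ^ ℓ = y`, minus `1` -/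
noncomputable def psi (ℓ : ℕ) (y : ZMod p) : ℝ := (rt ℓ y : ℝ) - 1

lemma rt_le (ℓ : ℕ) (hℓ : 0 < ℓ) (y : ZMod p) : rt ℓ y ≤ ℓ := by
  classical
  have h1 : univ.filter (fun z : ZMod p => z ^ ℓ = y) ⊆ (nthRoots ℓ y).toFinset := by
    intro z hz
    rw [mem_filter] at hz
    rw [Multiset.mem_toFinset, mem_nthRoots hℓ]
    exact hz.2
  unfold rt
  refine (card_le_card h1).trans ?_
  exact (Multiset.toFinset_card_le _).trans (card_nthRoots ℓ y)

lemma rt_zero (ℓ : ℕ) (hℓ : 0 < ℓ) : rt ℓ (0 : ZMod p) = 1 := by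
  unfold rt
  rw [card_eq_one]
  refine ⟨0, ?_⟩
  ext z
  rw [mem_filter, mem_singleton]
  constructor
  · intro h
    exact pow_eq_zero_iff (by omega) |>.1 h.2
  · intro h
    rw [h]
    exact ⟨mem_univ _, zero_pow (by omega)⟩

lemma psi_abs (ℓ : ℕ) (hℓ : 1 ≤ ℓ) (y : ZMod p) : |psi ℓ y| ≤ ℓ := by
  have h1 : (rt ℓ y : ℝ) ≤ ℓ := by exact_mod_cast rt_le ℓ hℓ y
  have h2 : (0 : ℝ) ≤ rt ℓ y := Nat.cast_nonneg _
  have h3 : (1 : ℝ) ≤ ℓ := by exact_mod_cast hℓ
  unfold psi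
  rw [abs_le]
  constructor <;> linarith

lemma rt_sum (ℓ : ℕ) : ∑ y : ZMod p, (rt ℓ y : ℝ) = p := by
  have h1 : ∑ y : ZMod p, rt ℓ y = p := by
    unfold rt
    rw [← card_eq_sum_card_fiberwise (f := fun z : ZMod p => z ^ ℓ) (s := univ) (t := univ) (by
      intro z _
      exact mem_univ _), card_univ, ZMod.card]
  exact_mod_cast h1

lemma psi_sum (ℓ : ℕ) : ∑ y : ZMod p, psi ℓ y = 0 := by
  unfold psi
  rw [sum_sub_distrib, rt_sum, sum_const, card_univ, ZMod.card, nsmul_eq_mul]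
  ring

lemma rt_unit (ℓ : ℕ) (z : ZMod p) (hz : z ≠ 0) : rt ℓ (z ^ ℓ) = rt ℓ (1 : ZMod p) := by
  unfold rt
  apply card_bij' (fun w _ => w * z⁻¹) (fun w _ => w * z)
  · intro w hw
    rw [mem_filter] at hw ⊢
    refine ⟨mem_univ _, ?_⟩
    rw [mul_pow, hw.2, inv_pow, mul_inv_cancel₀ (pow_ne_zero _ hz)]
  · intro w hw
    rw [mem_filter] at hw ⊢
    refine ⟨mem_univ _, ?_⟩
    rw [mul_pow, hw.2, one_mul]
  · intro w _
    field_simp
  · intro w _
    field_simp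

lemma psi_sq (ℓ : ℕ) (hℓ : 0 < ℓ) :
    ∑ y : ZMod p, psi ℓ y ^ 2 = ((p : ℝ) - 1) * ((rt ℓ (1 : ZMod p) : ℝ) - 1) := by
  classical
  have h1 : ∑ y : ZMod p, (rt ℓ y : ℝ) ^ 2 = 1 + ((p : ℝ) - 1) * rt ℓ (1 : ZMod p) := by
    have h2 : ∑ y : ZMod p, (rt ℓ y : ℝ) ^ 2 = ∑ z : ZMod p, (rt ℓ (z ^ ℓ) : ℝ) := by
      rw [← sum_fiberwise univ (fun z : ZMod p => z ^ ℓ) (fun z => (rt ℓ (z ^ ℓ) : ℝ))]
      apply sum_congr rfl
      intro y _
      have h3 : ∀ z ∈ univ.filter (fun z : ZMod p => z ^ ℓ = y), (rt ℓ (z ^ ℓ) : ℝ) = rt ℓ y := by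
        intro z hz
        rw [(mem_filter.1 hz).2]
      rw [sum_congr rfl h3, sum_const, nsmul_eq_mul, sq]
      rfl
    rw [h2, ← add_sum_erase univ _ (mem_univ (0 : ZMod p)), zero_pow (by omega), rt_zero ℓ hℓ]
    have h4 : ∀ z ∈ univ.erase (0 : ZMod p), (rt ℓ (z ^ ℓ) : ℝ) = rt ℓ (1 : ZMod p) := by
      intro z hz
      rw [rt_unit ℓ z (ne_of_mem_erase hz)]
    rw [sum_congr rfl h4, sum_const, card_erase_of_mem (mem_univ _), card_univ, ZMod.card, nsmul_eq_mul,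
      Nat.cast_sub (Fact.out (p := p.Prime)).one_le]
    push_cast
    ring
  have h5 : ∀ y : ZMod p, psi ℓ y ^ 2 = (rt ℓ y : ℝ) ^ 2 - 2 * rt ℓ y + 1 := by
    intro y
    unfold psi
    ring
  simp only [h5]
  rw [sum_add_distrib, sum_sub_distrib, h1, ← mul_sum, rt_sum, sum_const, card_univ, ZMod.card, nsmul_eq_mul]
  ring

/-- the number of the `ℓ`-th roots of unity -/
lemma rt_one (ℓ : ℕ) (hℓ : ℓ.Prime) : rt ℓ (1 : ZMod p) = if ℓ ∣ p - 1 then ℓ else 1 := by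
  classical
  have h0 : rt ℓ (1 : ZMod p) = (univ.filter (fun z : (ZMod p)ˣ => z ^ ℓ = 1)).card := by
    unfold rt
    symm
    apply card_bij (fun (z : (ZMod p)ˣ) _ => (z : ZMod p))
    · intro z hz
      rw [mem_filter] at hz ⊢
      refine ⟨mem_univ _, ?_⟩
      rw [← Units.val_pow_eq_pow_val, hz.2, Units.val_one]
    · intro z _ z' _ h
      exact Units.ext h
    · intro z hz
      rw [mem_filter] at hz
      have hz0 : z ≠ 0 := by
        rintro rfl
        rw [zero_pow hℓ.ne_zero] at hz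
        exact zero_ne_one hz.2
      refine ⟨Units.mk0 z hz0, ?_, rfl⟩
      rw [mem_filter]
      refine ⟨mem_univ _, ?_⟩
      apply Units.ext
      rw [Units.val_pow_eq_pow_val, Units.val_mk0, Units.val_one]
      exact hz.2
  rw [h0]
  split_ifs with h
  · have h1 : univ.filter (fun z : (ZMod p)ˣ => z ^ ℓ = 1) =
        univ.filter (fun z : (ZMod p)ˣ => orderOf z = 1) ∪ univ.filter (fun z : (ZMod p)ˣ => orderOf z = ℓ) := by
      ext z
      rw [mem_union, mem_filter, mem_filter, mem_filter]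
      constructor
      · intro hz
        have h2 := orderOf_dvd_of_pow_eq_one hz.2
        rcases (Nat.dvd_prime hℓ).1 h2 with h3 | h3
        · exact Or.inl ⟨mem_univ _, h3⟩
        · exact Or.inr ⟨mem_univ _, h3⟩
      · rintro (hz | hz)
        · refine ⟨mem_univ _, ?_⟩
          rw [orderOf_eq_one_iff.1 hz.2, one_pow]
        · refine ⟨mem_univ _, ?_⟩
          rw [← hz.2]
          exact pow_orderOf_eq_one z
    rw [h1, card_union_of_disjoint]
    · have e1 := IsCyclic.card_orderOf_eq_totient (α := (ZMod p)ˣ) (d := 1) (by simp)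
      have e2 := IsCyclic.card_orderOf_eq_totient (α := (ZMod p)ˣ) (d := ℓ) (by rw [card_G]; exact h)
      rw [e1, e2, Nat.totient_one, Nat.totient_prime hℓ]
      have := hℓ.one_le
      omega
    · rw [Finset.disjoint_left]
      intro z hz hz'
      rw [mem_filter] at hz hz'
      rw [hz.2] at hz'
      exact hℓ.ne_one hz'.2.symm
  · rw [card_eq_one]
    refine ⟨1, ?_⟩
    ext z
    rw [mem_filter, mem_singleton]
    constructor
    · intro hz
      have h2 := orderOf_dvd_of_pow_eq_one hz.2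
      have h3 : orderOf z ∣ p - 1 := by
        have := orderOf_dvd_card (x := z)
        rwa [card_G] at this
      rcases (Nat.dvd_prime hℓ).1 h2 with h4 | h4
      · exact orderOf_eq_one_iff.1 h4
      · rw [h4] at h3
        exact absurd h3 h
    · rintro rfl
      exact ⟨mem_univ _, one_pow _⟩

lemma fc_rt (ℓ : ℕ) (hℓ : 0 < ℓ) (χ : DirichletCharacter ℂ p) :
    (∃ r : ℝ, 0 ≤ r ∧ fc (fun u => (rt ℓ (u : ZMod p) : ℂ)) χ = (r : ℂ)) ∧
      (χ = 1 → fc (fun u => (rt ℓ (u : ZMod p) : ℂ)) χ = 1) := by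
  classical
  set f : (ZMod p)ˣ →* ℂ :=
    { toFun := fun z => χ ((((z ^ ℓ)⁻¹ : (ZMod p)ˣ)) : ZMod p)
      map_one' := by simp
      map_mul' := by
        intro a b
        change χ (((((a * b) ^ ℓ)⁻¹ : (ZMod p)ˣ)) : ZMod p) = _
        rw [mul_pow, mul_inv, Units.val_mul, map_mul] } with hf
  have hunits : ∀ u : (ZMod p)ˣ, rt ℓ (u : ZMod p) = (univ.filter (fun z : (ZMod p)ˣ => z ^ ℓ = u)).card := by
    intro u
    unfold rt
    symm
    apply card_bij (fun (z : (ZMod p)ˣ) _ => (z : ZMod p))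
    · intro z hz
      rw [mem_filter] at hz ⊢
      refine ⟨mem_univ _, ?_⟩
      rw [← Units.val_pow_eq_pow_val, hz.2]
    · intro z _ z' _ h
      exact Units.ext h
    · intro z hz
      rw [mem_filter] at hz
      have hz0 : z ≠ 0 := by
        rintro rfl
        rw [zero_pow (by omega)] at hz
        exact u.ne_zero hz.2.symm
      refine ⟨Units.mk0 z hz0, ?_, rfl⟩
      rw [mem_filter]
      refine ⟨mem_univ _, ?_⟩
      apply Units.ext
      rw [Units.val_pow_eq_pow_val, Units.val_mk0]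
      exact hz.2
  have hsum : ∑ u : (ZMod p)ˣ, (rt ℓ (u : ZMod p) : ℂ) * χ ((u⁻¹ : (ZMod p)ˣ) : ZMod p) = ∑ z, f z := by
    rw [← sum_fiberwise univ (fun z : (ZMod p)ˣ => z ^ ℓ) (fun z => f z)]
    apply sum_congr rfl
    intro u _
    have h3 : ∀ z ∈ univ.filter (fun z : (ZMod p)ˣ => z ^ ℓ = u), f z = χ ((u⁻¹ : (ZMod p)ˣ) : ZMod p) := by
      intro z hz
      show χ ((((z ^ ℓ)⁻¹ : (ZMod p)ˣ)) : ZMod p) = _
      rw [(mem_filter.1 hz).2]
    rw [sum_congr rfl h3, sum_const, nsmul_eq_mul, hunits]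
  constructor
  · by_cases hf1 : f = 1
    · refine ⟨((p - 1 : ℕ) : ℝ)⁻¹ * (Fintype.card (ZMod p)ˣ : ℝ), by positivity, ?_⟩
      unfold fc
      rw [hsum, hf1]
      simp
    · refine ⟨0, le_rfl, ?_⟩
      unfold fc
      rw [hsum, sum_hom_units_eq_zero f hf1, mul_zero, Complex.ofReal_zero]
  · rintro rfl
    unfold fc
    rw [hsum]
    have : ∀ z, f z = 1 := by
      intro z
      show (1 : DirichletCharacter ℂ p) ((((z ^ ℓ)⁻¹ : (ZMod p)ˣ)) : ZMod p) = 1
      rw [MulChar.one_apply_coe]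
    simp only [this]
    rw [sum_const, card_univ, card_G, nsmul_eq_mul, mul_one, inv_mul_cancel₀ N_ne]

/-- the expansion of `psi` in characters -/
lemma psi_exp (ℓ : ℕ) (hℓ : 1 ≤ ℓ) : ∃ c : DirichletCharacter ℂ p → ℂ, ∑ χ, ‖c χ‖ ≤ ℓ ∧ c 1 = 0 ∧
    ∀ y : ZMod p, (psi ℓ y : ℂ) = ∑ χ, c χ * χ y := by
  classical
  choose h1 h2 using fun χ : DirichletCharacter ℂ p => fc_rt (p := p) ℓ hℓ χ
  choose r hr0 hr using h1
  obtain ⟨c, hc⟩ : ∃ c : DirichletCharacter ℂ p → ℂ, c = fun χ => if χ = 1 then 0 else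
    fc (fun u => (rt ℓ (u : ZMod p) : ℂ)) χ := ⟨_, rfl⟩
  have hsplit : ∀ y : ZMod p, ∑ χ, c χ * χ y = (∑ χ : DirichletCharacter ℂ p,
      fc (fun u => (rt ℓ (u : ZMod p) : ℂ)) χ * χ y) - (1 : DirichletCharacter ℂ p) y := by
    intro y
    rw [← add_sum_erase univ (fun χ : DirichletCharacter ℂ p => fc (fun u => (rt ℓ (u : ZMod p) : ℂ)) χ * χ y)
      (mem_univ 1), h2 1 rfl, one_mul, add_sub_cancel_left,
      ← add_sum_erase univ (fun χ : DirichletCharacter ℂ p => c χ * χ y) (mem_univ 1)]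
    rw [hc]
    simp only [if_true, zero_mul, zero_add]
    apply sum_congr rfl
    intro χ hχ
    rw [if_neg (ne_of_mem_erase hχ)]
  refine ⟨c, ?_, ?_, ?_⟩
  · have h3 : ∀ χ, ‖c χ‖ ≤ r χ := by
      intro χ
      rw [hc]
      simp only
      split_ifs with h
      · rw [norm_zero]
        exact hr0 χ
      · rw [hr, Complex.norm_real, Real.norm_of_nonneg (hr0 χ)]
    have h4 : ∑ χ, r χ = (rt ℓ (1 : ZMod p) : ℝ) := by
      have h5 := fc_inv (p := p) (fun u => (rt ℓ (u : ZMod p) : ℂ)) 1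
      simp only [Units.val_one, map_one, mul_one] at h5
      have h6 : ((∑ χ, r χ : ℝ) : ℂ) = ((rt ℓ (1 : ZMod p) : ℝ) : ℂ) := by
        rw [Complex.ofReal_sum]
        rw [Complex.ofReal_natCast, ← h5]
        exact sum_congr rfl fun χ _ => (hr χ).symm
      exact_mod_cast h6
    refine (sum_le_sum fun χ _ => h3 χ).trans ?_
    rw [h4]
    exact_mod_cast rt_le ℓ hℓ 1
  · rw [hc]
    simp
  · intro y
    rw [hsplit]
    by_cases hy : y = 0
    · subst hy
      have : ∀ χ : DirichletCharacter ℂ p, χ 0 = 0 := fun χ => MulChar.map_zero χ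
      simp only [this, mul_zero, sum_const_zero, sub_zero]
      unfold psi
      rw [rt_zero ℓ hℓ]
      simp
    · obtain ⟨u, rfl⟩ : ∃ u : (ZMod p)ˣ, (u : ZMod p) = y := ⟨Units.mk0 y hy, rfl⟩
      rw [fc_inv, MulChar.one_apply_coe]
      unfold psi
      push_cast
      ring

/-- Weil's bound for the number of the points -/
theorem points_bound (ℓ : ℕ) (hℓ : 1 ≤ ℓ) (hp : 3 ≤ p) (P : (ZMod p)[X]) (hP : Squarefree P) (hd : 1 ≤ P.natDegree) :
    |∑ x : ZMod p, psi ℓ (P.eval x)| ≤ ℓ * (P.natDegree * Real.sqrt p) := by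
  classical
  obtain ⟨c, hc1, hc2, hc3⟩ := psi_exp (p := p) ℓ hℓ
  have h1 : ((∑ x : ZMod p, psi ℓ (P.eval x) : ℝ) : ℂ) = ∑ χ, c χ * ∑ x : ZMod p, χ (P.eval x) := by
    rw [Complex.ofReal_sum]
    simp only [hc3, mul_sum]
    rw [sum_comm]
  rw [← Real.norm_eq_abs, ← Complex.norm_real, h1]
  refine (norm_sum_le _ _).trans ?_
  calc ∑ χ, ‖c χ * ∑ x : ZMod p, χ (P.eval x)‖ ≤ ∑ χ, ‖c χ‖ * (P.natDegree * Real.sqrt p) := by
        apply sum_le_sum
        intro χ _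
        rw [norm_mul]
        by_cases hχ : χ = 1
        · rw [hχ, hc2, norm_zero, zero_mul, zero_mul]
        · apply mul_le_mul_of_nonneg_left _ (norm_nonneg _)
          have := weil_sf (K := ZMod p) (by rw [ZMod.card]; exact hp) χ hχ P hP hd
          rwa [ZMod.card] at this
    _ = (∑ χ, ‖c χ‖) * (P.natDegree * Real.sqrt p) := by rw [sum_mul]
    _ ≤ _ := mul_le_mul_of_nonneg_right hc1 (by positivity)

end Pool.Agent.R318.ST
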